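import Mathlib

set_option autoImplicit false

/-! Base file: reachability, links, chains, necklaces, transversals (taken from the hand-in ChiFive of MP_c62493_co). -/

namespace Pool.Agent.Lib.NK

open Finset
open scoped Classical

section basics
variable {V : Type*} {R : V → V → Prop}

/-- `v` is reachable from `u` inside `S`. -/
def Rc (R : V → V → Prop) (S : Finset V) (u v : V) : Prop :=
  u ∈ S ∧ Relation.ReflTransGen (fun a b => R a b ∧ b ∈ S) u v

theorem Rc.rfl' {S : Finset V} {u : V} (h : u ∈ S) : Rc R S u u := ⟨h, Relation.ReflTransGen.refl⟩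

theorem Rc.left {S : Finset V} {u v : V} (h : Rc R S u v) : u ∈ S := h.1

theorem Rc.right {S : Finset V} {u v : V} (h : Rc R S u v) : v ∈ S := by
  obtain ⟨h1, h2⟩ := h
  rcases Relation.ReflTransGen.cases_tail h2 with h | ⟨c, _, hc⟩
  · exact h ▸ h1
  · exact hc.2

theorem Rc.mono {S T : Finset V} {u v : V} (h : Rc R S u v) (hST : S ⊆ T) : Rc R T u v :=
  ⟨hST h.1, (Relation.ReflTransGen.mono (fun _ _ hab => ⟨hab.1, hST hab.2⟩) :
    Relation.ReflTransGen (fun a b => R a b ∧ b ∈ S) ≤
      Relation.ReflTransGen (fun a b => R a b ∧ b ∈ T)) _ _ h.2⟩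

theorem Rc.trans {S : Finset V} {u v w : V} (h : Rc R S u v) (h' : Rc R S v w) : Rc R S u w :=
  ⟨h.1, h.2.trans h'.2⟩

theorem Rc.trans' {S T U : Finset V} {u v w : V} (h : Rc R S u v) (h' : Rc R T v w)
    (hS : S ⊆ U) (hT : T ⊆ U) : Rc R U u w :=
  (h.mono hS).trans (h'.mono hT)

theorem Rc.step {S : Finset V} {u v : V} (h : R u v) (hu : u ∈ S) (hv : v ∈ S) : Rc R S u v :=
  ⟨hu, Relation.ReflTransGen.single ⟨h, hv⟩⟩

theorem Rc.tail {S : Finset V} {u v w : V} (h : Rc R S u v) (h' : R v w) (hw : w ∈ S) :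
    Rc R S u w := h.trans (Rc.step h' h.right hw)

theorem Rc.head {S : Finset V} {u v w : V} (h : R u v) (hu : u ∈ S) (h' : Rc R S v w) :
    Rc R S u w := (Rc.step h hu h'.left).trans h'

theorem Rc.cases_head {S : Finset V} {u v : V} (h : Rc R S u v) :
    u = v ∨ ∃ w, R u w ∧ Rc R S w v := by
  obtain ⟨h1, h2⟩ := h
  rcases Relation.ReflTransGen.cases_head h2 with h | ⟨c, hc, h3⟩
  · exact Or.inl h
  · exact Or.inr ⟨c, hc.1, hc.2, h3⟩

theorem Rc.cases_tail {S : Finset V} {u v : V} (h : Rc R S u v) :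
    u = v ∨ ∃ w, Rc R S u w ∧ R w v := by
  obtain ⟨h1, h2⟩ := h
  rcases Relation.ReflTransGen.cases_tail h2 with h | ⟨c, hc, h3⟩
  · exact Or.inl h.symm
  · exact Or.inr ⟨c, ⟨h1, hc⟩, h3.1⟩

/-- induction along a walk -/
theorem Rc.induct {S : Finset V} {u : V} {p : V → Prop} (h0 : u ∈ S → p u)
    (hs : ∀ a b, Rc R S u a → p a → R a b → b ∈ S → p b) {v : V} (h : Rc R S u v) : p v := by
  obtain ⟨h1, h2⟩ := h
  have : p v ∧ Rc R S u v := by
    induction h2 with
    | refl => exact ⟨h0 h1, Rc.rfl' h1⟩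
    | tail _ hbc ih => exact ⟨hs _ _ ih.2 ih.1 hbc.1 hbc.2, ih.2.tail hbc.1 hbc.2⟩
  exact this.1

/-- reachability inside `S` restricted by removing a vertex -/
theorem Rc.cut {S : Finset V} {u v : V} (h : Rc R S u v) (z : V) :
    Rc R (S.erase z) u v ∨ (Rc R S u z ∧ Rc R S z v) := by
  by_cases huz : u = z
  · subst huz; exact Or.inr ⟨Rc.rfl' h.1, h⟩
  refine Rc.induct (p := fun v => Rc R (S.erase z) u v ∨ (Rc R S u z ∧ Rc R S z v)) ?_ ?_ h
  · intro hu; exact Or.inl (Rc.rfl' (mem_erase.mpr ⟨huz, hu⟩))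
  · intro a b hua ih hab hb
    rcases ih with ih | ⟨h1, h2⟩
    · by_cases hbz : b = z
      · subst hbz
        exact Or.inr ⟨(ih.mono (erase_subset _ _)).tail hab hb, Rc.rfl' hb⟩
      · exact Or.inl (ih.tail hab (mem_erase.mpr ⟨hbz, hb⟩))
    · exact Or.inr ⟨h1, h2.tail hab hb⟩

/-- first hit of a predicate -/
theorem Rc.firstHit {S : Finset V} {u v : V} (h : Rc R S u v) (p : V → Prop) (hv : p v) :
    ∃ x, p x ∧ x ∈ S ∧ ∃ T ⊆ S, Rc R T u x ∧ ∀ y ∈ T, p y → y = x := by
  have key : (∃ x, p x ∧ x ∈ S ∧ ∃ T ⊆ S, Rc R T u x ∧ ∀ y ∈ T, p y → y = x) ∨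
      (¬ p v ∧ ∃ T ⊆ S, Rc R T u v ∧ ∀ y ∈ T, ¬ p y) := by
    refine Rc.induct (p := fun v => (∃ x, p x ∧ x ∈ S ∧ ∃ T ⊆ S, Rc R T u x ∧ ∀ y ∈ T, p y → y = x) ∨
      (¬ p v ∧ ∃ T ⊆ S, Rc R T u v ∧ ∀ y ∈ T, ¬ p y)) ?_ ?_ h
    · intro hu
      by_cases hp : p u
      · left; exact ⟨u, hp, hu, {u}, by simpa using hu, Rc.rfl' (by simp), by simp⟩
      · right; exact ⟨hp, {u}, by simpa using hu, Rc.rfl' (by simp), by simpa using hp⟩
    · intro a b hua ih hab hb
      rcases ih with ih | ⟨hpa, T, hTS, hT, hTp⟩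
      · exact Or.inl ih
      · by_cases hpb : p b
        · left
          refine ⟨b, hpb, hb, insert b T, ?_, (hT.mono (subset_insert _ _)).tail hab (mem_insert_self _ _), ?_⟩
          · exact insert_subset hb hTS
          · intro y hy hpy
            rcases mem_insert.mp hy with h | h
            · exact h
            · exact absurd hpy (hTp y h)
        · right
          refine ⟨hpb, insert b T, insert_subset hb hTS, (hT.mono (subset_insert _ _)).tail hab (mem_insert_self _ _), ?_⟩
          intro y hy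
          rcases mem_insert.mp hy with h | h
          · exact h ▸ hpb
          · exact hTp y h
  rcases key with h | ⟨h, _⟩
  · exact h
  · exact absurd hv h

/-- last exit from a predicate -/
theorem Rc.lastHit {S : Finset V} {u v : V} (h : Rc R S u v) (p : V → Prop) (hu : p u) :
    ∃ x, p x ∧ x ∈ S ∧ ∃ T ⊆ S, Rc R T x v ∧ ∀ y ∈ T, p y → y = x := by
  refine Rc.induct (p := fun v => ∃ x, p x ∧ x ∈ S ∧ ∃ T ⊆ S, Rc R T x v ∧ ∀ y ∈ T, p y → y = x) ?_ ?_ h
  · intro hu'; exact ⟨u, hu, hu', {u}, by simpa using hu', Rc.rfl' (by simp), by simp⟩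
  · rintro a b hua ⟨x, hpx, hxS, T, hTS, hT, hTp⟩ hab hb
    by_cases hpb : p b
    · exact ⟨b, hpb, hb, {b}, by simpa using hb, Rc.rfl' (by simp), by simp⟩
    · refine ⟨x, hpx, hxS, insert b T, insert_subset hb hTS, (hT.mono (subset_insert _ _)).tail hab (mem_insert_self _ _), ?_⟩
      intro y hy hpy
      rcases mem_insert.mp hy with h | h
      · exact absurd (h ▸ hpy) hpb
      · exact hTp y h hpy

/-- `S` is the vertex set of a walk from `u` to `v`. -/
def PS (R : V → V → Prop) (S : Finset V) (u v : V) : Prop :=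
  u ∈ S ∧ v ∈ S ∧ ∀ x ∈ S, Rc R S u x ∧ Rc R S x v

theorem Rc.toPS {S : Finset V} {u v : V} (h : Rc R S u v) : ∃ T ⊆ S, PS R T u v := by
  refine Rc.induct (p := fun v => ∃ T ⊆ S, PS R T u v) ?_ ?_ h
  · intro hu
    refine ⟨{u}, by simpa using hu, by simp, by simp, ?_⟩
    intro x hx
    rw [mem_singleton] at hx; subst hx
    exact ⟨Rc.rfl' (by simp), Rc.rfl' (by simp)⟩
  · rintro a b hua ⟨T, hTS, h1, h2, h3⟩ hab hb
    refine ⟨insert b T, insert_subset hb hTS, by simp [h1], by simp, ?_⟩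
    have hub : Rc R (insert b T) u b :=
      ((h3 a h2).1.mono (subset_insert _ _)).tail hab (mem_insert_self _ _)
    intro x hx
    rcases mem_insert.mp hx with hx | hx
    · subst hx; exact ⟨hub, Rc.rfl' (by simp)⟩
    · exact ⟨(h3 x hx).1.mono (subset_insert _ _), ((h3 x hx).2.mono (subset_insert _ _)).tail hab (mem_insert_self _ _)⟩

theorem PS.rc {S : Finset V} {u v : V} (h : PS R S u v) : Rc R S u v := (h.2.2 u h.1).2

theorem PS.append {S T : Finset V} {u v w : V} (h : PS R S u v) (h' : PS R T v w) :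
    PS R (S ∪ T) u w := by
  refine ⟨by simp [h.1], by simp [h'.2.1], ?_⟩
  intro x hx
  rcases mem_union.mp hx with hx | hx
  · exact ⟨(h.2.2 x hx).1.mono subset_union_left,
      (h.2.2 x hx).2.trans' h'.rc subset_union_left subset_union_right⟩
  · exact ⟨h.rc.trans' (h'.2.2 x hx).1 subset_union_left subset_union_right,
      (h'.2.2 x hx).2.mono subset_union_right⟩

theorem PS.cons {S : Finset V} {u v w : V} (h' : R u v) (h : PS R S v w) :
    PS R (insert u S) u w := by
  have huw : Rc R (insert u S) u w := Rc.head h' (mem_insert_self _ _) (h.rc.mono (subset_insert _ _))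
  refine ⟨by simp, by simp [h.2.1], ?_⟩
  intro x hx
  rcases mem_insert.mp hx with hx | hx
  · subst hx; exact ⟨Rc.rfl' (by simp), huw⟩
  · exact ⟨Rc.head h' (mem_insert_self _ _) ((h.2.2 x hx).1.mono (subset_insert _ _)),
      (h.2.2 x hx).2.mono (subset_insert _ _)⟩

/-- no closed walk inside `S` -/
def Ac (R : V → V → Prop) (S : Finset V) : Prop :=
  ∀ u v, R u v → u ∈ S → ¬ Rc R S v u

theorem Ac.mono {S T : Finset V} (h : Ac R T) (hST : S ⊆ T) : Ac R S :=
  fun u v h1 h2 h3 => h u v h1 (hST h2) (h3.mono hST)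

theorem Ac.eq {S T U : Finset V} (h : Ac R S) {u v : V} (h1 : Rc R T u v) (h2 : Rc R U v u)
    (hT : T ⊆ S) (hU : U ⊆ S) : u = v := by
  rcases h1.cases_head with h3 | ⟨w, hw, h3⟩
  · exact h3
  · exact absurd (h3.trans' h2 hT hU) (h u w hw (hT h1.1))

/-- two opposite internally disjoint paths between different vertices -/
def Link (R : V → V → Prop) (S : Finset V) (u v : V) : Prop :=
  u ≠ v ∧ ∃ S1 S2 : Finset V, Rc R S1 u v ∧ Rc R S2 v u ∧ (∀ x ∈ S1, x ∈ S2 → x = u ∨ x = v) ∧
    S1 ⊆ S ∧ S2 ⊆ S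

theorem Link.symm {S : Finset V} {u v : V} (h : Link R S u v) : Link R S v u := by
  obtain ⟨h0, S1, S2, h1, h2, h3, h4, h5⟩ := h
  exact ⟨h0.symm, S2, S1, h2, h1, fun x hx hx' => (h3 x hx' hx).symm, h5, h4⟩

theorem Link.mono {S T : Finset V} {u v : V} (h : Link R S u v) (hST : S ⊆ T) : Link R T u v := by
  obtain ⟨h0, S1, S2, h1, h2, h3, h4, h5⟩ := h
  exact ⟨h0, S1, S2, h1, h2, h3, h4.trans hST, h5.trans hST⟩

theorem Link.left {S : Finset V} {u v : V} (h : Link R S u v) : u ∈ S := by
  obtain ⟨h0, S1, S2, h1, h2, h3, h4, h5⟩ := h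
  exact h4 h1.left

theorem Link.right {S : Finset V} {u v : V} (h : Link R S u v) : v ∈ S := h.symm.left

theorem Link.ne {S : Finset V} {u v : V} (h : Link R S u v) : u ≠ v := h.1

theorem Link.rc {S : Finset V} {u v : V} (h : Link R S u v) : Rc R S u v := by
  obtain ⟨h0, S1, S2, h1, h2, h3, h4, h5⟩ := h
  exact h1.mono h4

/-- a chain of `r` links from `a` to `t` with vertex set `S` -/
inductive Ch (R : V → V → Prop) : ℕ → V → V → Finset V → Prop
  | nil (a : V) : Ch R 0 a a {a}
  | cons {r : ℕ} {a m t : V} {E S : Finset V} : Link R E a m → Ch R r m t S →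
      (∀ x ∈ E, x ∈ S → x = m) → Ch R (r + 1) a t (E ∪ S)

theorem Ch.left {r : ℕ} {a t : V} {S : Finset V} (h : Ch R r a t S) : a ∈ S := by
  cases h with
  | nil => simp
  | cons h1 h2 h3 => exact mem_union_left _ h1.left

theorem Ch.right {r : ℕ} {a t : V} {S : Finset V} (h : Ch R r a t S) : t ∈ S := by
  induction h with
  | nil => simp
  | cons h1 h2 h3 ih => exact mem_union_right _ ih

theorem Ch.ne {r : ℕ} {a t : V} {S : Finset V} (h : Ch R r a t S) (hr : 1 ≤ r) : a ≠ t := by
  cases h with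
  | nil => omega
  | cons h1 h2 h3 =>
    rintro rfl
    exact h1.ne (h3 _ h1.left h2.right)

/-- a closed chain of at least three links -/
def Neck (R : V → V → Prop) : Prop :=
  ∃ r a t S T, 2 ≤ r ∧ Ch R r a t S ∧ Link R T t a ∧ ∀ x ∈ S, x ∈ T → x = a ∨ x = t

end basics

section fan
variable {V : Type*} {R : V → V → Prop}

/-- `p` reaches the target predicate inside `D` avoiding `z` -/
def Esc (R : V → V → Prop) (D : Finset V) (T : V → Prop) (z p : V) : Prop :=
  ∃ u, T u ∧ Rc R (D.erase z) p u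

theorem postdom {D : Finset V} (hD : Ac R D) (T : V → Prop) {p u0 : V} (hu : T u0)
    (hp : Rc R D p u0) :
    ∃ z ∈ D, ¬ Esc R D T z p ∧ ∀ y ∈ D, ¬ Esc R D T y p → ¬ Esc R D T z y := by
  have hpp : ¬ Esc R D T p p := by
    rintro ⟨u, _, h⟩
    exact (mem_erase.mp h.left).1 rfl
  obtain ⟨z, hz, hmin⟩ := exists_min_image (D.filter (fun z => ¬ Esc R D T z p))
    (fun z => (D.filter (fun x => Rc R D z x)).card) ⟨p, by simp [hp.left, hpp]⟩
  rw [mem_filter] at hz
  refine ⟨z, hz.1, hz.2, ?_⟩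
  rintro y hy hyp ⟨u, hu', hyu⟩
  have hyz : y ≠ z := (mem_erase.mp hyu.left).1
  rcases hp.cut y with h | ⟨h1, _⟩
  · exact hyp ⟨u0, hu, h⟩
  rcases h1.cut z with h | ⟨_, hzy⟩
  · exact hz.2 ⟨u, hu', h.trans hyu⟩
  have h2 := hmin y (by simp [hy, hyp])
  have h3 : D.filter (fun x => Rc R D y x) ⊂ D.filter (fun x => Rc R D z x) := by
    rw [Finset.ssubset_iff_of_subset]
    · refine ⟨z, by simp [hz.1, Rc.rfl' hz.1], ?_⟩
      simp only [mem_filter, not_and]
      intro _ h
      exact hyz (hD.eq h hzy (Subset.refl _) (Subset.refl _))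
    · intro x hx
      rw [mem_filter] at hx ⊢
      exact ⟨hx.1, hzy.trans hx.2⟩
  have := card_lt_card h3
  omega

theorem pebble {D : Finset V} (hD : Ac R D) (T : V → Prop) : ∀ (n : ℕ) (p1 p2 : V), p1 ∈ D → p2 ∈ D →
    p1 ≠ p2 → (∀ z ∈ D, Esc R D T z p1 ∨ Esc R D T z p2) →
    (D.filter (fun x => Rc R D p1 x ∨ Rc R D p2 x)).card ≤ n →
    ∃ S1 S2 u1 u2, S1 ⊆ D ∧ S2 ⊆ D ∧ T u1 ∧ T u2 ∧ PS R S1 p1 u1 ∧ PS R S2 p2 u2 ∧
      (∀ x ∈ S1, x ∉ S2) := by
  intro n
  induction n with
  | zero =>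
    intro p1 p2 h1 h2 _ _ hc
    have : p1 ∈ D.filter (fun x => Rc R D p1 x ∨ Rc R D p2 x) := by simp [h1, Rc.rfl' h1]
    have := card_pos.mpr ⟨p1, this⟩
    omega
  | succ n ih =>
    have main : ∀ p1 p2 : V, p1 ∈ D → p2 ∈ D →
      p1 ≠ p2 → (∀ z ∈ D, Esc R D T z p1 ∨ Esc R D T z p2) →
      (D.filter (fun x => Rc R D p1 x ∨ Rc R D p2 x)).card ≤ n + 1 → ¬ Rc R D p2 p1 → 
      ∃ S1 S2 u1 u2, S1 ⊆ D ∧ S2 ⊆ D ∧ T u1 ∧ T u2 ∧ PS R S1 p1 u1 ∧ PS R S2 p2 u2 ∧
        (∀ x ∈ S1, x ∉ S2) := by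
      intro p1 p2 h1 h2 hne hg hc hnr
      have he2 : Esc R D T p1 p2 := by
        rcases hg p1 h1 with ⟨u, _, h⟩ | h
        · exact absurd rfl (mem_erase.mp h.left).1
        · exact h
      obtain ⟨u2, hu2, hp2⟩ := he2
      by_cases hT : T p1
      · obtain ⟨S2, hS2, hPS⟩ := hp2.toPS
        refine ⟨{p1}, S2, p1, u2, by simpa using h1, hS2.trans (erase_subset _ _), hT, hu2, ?_, hPS, ?_⟩
        · refine ⟨by simp, by simp, ?_⟩
          intro x hx
          rw [mem_singleton] at hx; subst hx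
          exact ⟨Rc.rfl' (by simp), Rc.rfl' (by simp)⟩
        · intro x hx hx2
          rw [mem_singleton] at hx; subst hx
          exact (mem_erase.mp (hS2 hx2)).1 rfl
      · obtain ⟨z, hz, hz1, hz2⟩ := postdom hD T hu2 (hp2.mono (erase_subset _ _))
        have hz3 : Esc R D T z p1 := by
          rcases hg z hz with h | h
          · exact h
          · exact absurd h hz1
        obtain ⟨u, hu, hp1⟩ := hz3
        rcases hp1.cases_head with h | ⟨q, hq, hqu⟩
        · exact absurd (h ▸ hu) hT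
        have hqD : q ∈ D := (mem_erase.mp hqu.left).2
        have hqp2 : q ≠ p2 := by
          rintro rfl; exact hz1 ⟨u, hu, hqu⟩
        have hgood : ∀ z ∈ D, Esc R D T z q ∨ Esc R D T z p2 := by
          intro y hy
          by_cases hyp : Esc R D T y p2
          · exact Or.inr hyp
          left
          rcases hqu.cut y with h | ⟨_, h⟩
          · exact ⟨u, hu, h.mono (by
              intro x hx
              simp only [mem_erase] at hx ⊢
              exact ⟨hx.1, hx.2.2⟩)⟩
          · exact absurd ⟨u, hu, h⟩ (hz2 y hy hyp)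
        have hlt : (D.filter (fun x => Rc R D q x ∨ Rc R D p2 x)).card <
            (D.filter (fun x => Rc R D p1 x ∨ Rc R D p2 x)).card := by
          apply card_lt_card
          rw [Finset.ssubset_iff_of_subset]
          · refine ⟨p1, by simp [h1, Rc.rfl' h1], ?_⟩
            simp only [mem_filter, not_and, not_or]
            intro _
            exact ⟨hD p1 q hq h1, hnr⟩
          · intro x hx
            rw [mem_filter] at hx ⊢
            refine ⟨hx.1, ?_⟩
            rcases hx.2 with h | h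
            · exact Or.inl (Rc.head hq h1 h)
            · exact Or.inr h
        obtain ⟨S1, S2, u1, u2, hS1, hS2, hu1, hu2, hP1, hP2, hdis⟩ := ih q p2 hqD h2 hqp2 hgood (by omega)
        refine ⟨insert p1 S1, S2, u1, u2, insert_subset h1 hS1, hS2, hu1, hu2, PS.cons hq hP1, hP2, ?_⟩
        intro x hx hx2
        rcases mem_insert.mp hx with hx | hx
        · subst hx
          exact hnr ((hP2.2.2 _ hx2).1.mono hS2)
        · exact hdis x hx hx2
    intro p1 p2 h1 h2 hne hg hc
    by_cases hr : Rc R D p2 p1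
    · have hr' : ¬ Rc R D p1 p2 := fun h => hne (hD.eq h hr (Subset.refl _) (Subset.refl _))
      obtain ⟨S1, S2, u1, u2, hS1, hS2, hu1, hu2, hP1, hP2, hdis⟩ := main p2 p1 h2 h1 hne.symm
        (fun z hz => (hg z hz).symm) (by simpa only [or_comm] using hc) hr'
      exact ⟨S2, S1, u2, u1, hS2, hS1, hu2, hu1, hP2, hP1, fun x hx hx' => hdis x hx' hx⟩
    · exact main p1 p2 h1 h2 hne hg hc hr

/-- fan version of Menger's theorem for two paths in an acyclic digraph -/
theorem fan {D : Finset V} (hD : Ac R D) (N T : V → Prop) (h0 : ∃ n u, N n ∧ T u ∧ Rc R D n u)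
    (h : ∀ z ∈ D, ∃ n, N n ∧ Esc R D T z n) :
    ∃ n1 n2 S1 S2 u1 u2, n1 ≠ n2 ∧ N n1 ∧ N n2 ∧ S1 ⊆ D ∧ S2 ⊆ D ∧ T u1 ∧ T u2 ∧ PS R S1 n1 u1 ∧
      PS R S2 n2 u2 ∧ (∀ x ∈ S1, x ∉ S2) := by
  obtain ⟨n1, u, hn1, hu, hr⟩ := h0
  obtain ⟨z, hz, hz1, hz2⟩ := postdom hD T hu hr
  obtain ⟨n2, hn2, u2, hu2, hr2⟩ := h z hz
  have hne : n1 ≠ n2 := by
    rintro rfl; exact hz1 ⟨u2, hu2, hr2⟩
  have hgood : ∀ y ∈ D, Esc R D T y n1 ∨ Esc R D T y n2 := by
    intro y hy
    by_cases hyp : Esc R D T y n1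
    · exact Or.inl hyp
    right
    rcases hr2.cut y with h | ⟨_, h⟩
    · exact ⟨u2, hu2, h.mono (by
        intro x hx
        simp only [mem_erase] at hx ⊢
        exact ⟨hx.1, hx.2.2⟩)⟩
    · exact absurd ⟨u2, hu2, h⟩ (hz2 y hy hyp)
  obtain ⟨S1, S2, u1, u2, h1⟩ := pebble hD T _ n1 n2 hr.left (mem_erase.mp hr2.left).2 hne hgood (le_refl _)
  exact ⟨n1, n2, S1, S2, u1, u2, hne, hn1, hn2, h1⟩

end fan

section block
variable {V : Type*} {R : V → V → Prop}

theorem Rc.out {S : Finset V} {s v : V} (h : Rc R S s v) (hv : v ≠ s) :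
    ∃ n, R s n ∧ Rc R (S.erase s) n v := by
  have : v = s ∨ ∃ n, R s n ∧ Rc R (S.erase s) n v := by
    refine Rc.induct (p := fun v => v = s ∨ ∃ n, R s n ∧ Rc R (S.erase s) n v) ?_ ?_ h
    · intro _; exact Or.inl rfl
    · intro a b _ ih hab hb
      by_cases hbs : b = s
      · exact Or.inl hbs
      right
      have hb' : b ∈ S.erase s := mem_erase.mpr ⟨hbs, hb⟩
      rcases ih with rfl | ⟨n, hn, hr⟩
      · exact ⟨b, hab, Rc.rfl' hb'⟩
      · exact ⟨n, hn, hr.tail hab hb'⟩
  rcases this with h | h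
  · exact absurd h hv
  · exact h

theorem Rc.inn {S : Finset V} {s v : V} (h : Rc R S v s) (hv : v ≠ s) :
    ∃ u, R u s ∧ Rc R (S.erase s) v u := by
  have : (∃ u, R u s ∧ Rc R (S.erase s) v u) ∨ Rc R (S.erase s) v s := by
    refine Rc.induct (p := fun w => (∃ u, R u s ∧ Rc R (S.erase s) v u) ∨ Rc R (S.erase s) v w) ?_ ?_ h
    · intro hv'; exact Or.inr (Rc.rfl' (mem_erase.mpr ⟨hv, hv'⟩))
    · intro a b _ ih hab hb
      rcases ih with ih | ih
      · exact Or.inl ih
      by_cases hbs : b = s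
      · subst hbs; exact Or.inl ⟨a, hab, ih⟩
      · exact Or.inr (ih.tail hab (mem_erase.mpr ⟨hbs, hb⟩))
  rcases this with h | h
  · exact h
  · exact absurd rfl (mem_erase.mp h.right).1

theorem linkOfPS {D S : Finset V} {s n u y : V} (hD : Ac R D) (hS : S ⊆ D) (hs : s ∉ D)
    (hP : PS R S n u) (hn : R s n) (hu : R u s) (hy : y ∈ S) : Link R (insert s S) y s := by
  obtain ⟨h1, h2⟩ := hP.2.2 y hy
  obtain ⟨S1, hS1, hP1⟩ := h1.toPS
  obtain ⟨S2, hS2, hP2⟩ := h2.toPS
  have hys : y ≠ s := by rintro rfl; exact hs (hS hy)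
  refine ⟨hys, insert s S2, insert s S1,
    (hP2.rc.mono (subset_insert _ _)).tail hu (mem_insert_self _ _),
    Rc.head hn (mem_insert_self _ _) (hP1.rc.mono (subset_insert _ _)), ?_,
    insert_subset_insert _ hS2, insert_subset_insert _ hS1⟩
  intro x hx hx'
  rcases mem_insert.mp hx with hx | hx
  · exact Or.inr hx
  rcases mem_insert.mp hx' with hx' | hx'
  · exact Or.inr hx'
  left
  exact (hD.eq ((hP2.2.2 x hx).1) ((hP1.2.2 x hx').2) (hS2.trans hS) (hS1.trans hS)).symm

/-- transversal of the circuits through `s` -/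
def Tr (R : V → V → Prop) (D : Finset V) (s : V) (X : Finset V) : Prop :=
  ∀ n u, R s n → R u s → ¬ Rc R (D \ X) n u

noncomputable def RS (R : V → V → Prop) (D : Finset V) (s : V) (X : Finset V) : Finset V :=
  (D \ X).filter (fun v => ∃ n, R s n ∧ Rc R (D \ X) n v)

structure MT (R : V → V → Prop) (D : Finset V) (s : V) (X : Finset V) : Prop where
  sub : X ⊆ D
  tr : Tr R D s X
  min : ∀ Z ⊆ D, Tr R D s Z → X.card ≤ Z.card
  max : ∀ Z ⊆ D, Tr R D s Z → Z.card ≤ X.card → (RS R D s Z).card ≤ (RS R D s X).card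

theorem exists_MT (D : Finset V) (s : V) : ∃ X, MT R D s X := by
  obtain ⟨X, hX, hmin⟩ := exists_min_image (D.powerset.filter (fun X => Tr R D s X))
    (fun X => X.card * (D.card + 1) + (D.card - (RS R D s X).card))
    ⟨D, by
      simp only [mem_filter, mem_powerset, Subset.refl, true_and]
      intro n u _ _ h
      have := h.left
      simp at this⟩
  simp only [mem_filter, mem_powerset] at hX hmin
  have hb : ∀ Z, (RS R D s Z).card ≤ D.card := by
    intro Z
    exact card_le_card ((filter_subset _ _).trans sdiff_subset)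
  refine ⟨X, hX.1, hX.2, ?_, ?_⟩
  · intro Z hZ hT
    have h1 := hmin Z ⟨hZ, hT⟩
    by_contra hlt
    push Not at hlt
    have h2 := hb X
    have h3 := hb Z
    have h4 : Z.card + 1 ≤ X.card := hlt
    have h5 := Nat.mul_le_mul_right (D.card + 1) h4
    rw [add_mul, one_mul] at h5
    omega
  · intro Z hZ hT hc
    have h1 := hmin Z ⟨hZ, hT⟩
    have h2 := hb X
    have h3 := hb Z
    have h5 := Nat.mul_le_mul_right (D.card + 1) hc
    omega

/-- every element of a minimum transversal is on a circuit meeting it only there -/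
theorem MT.single {D : Finset V} {s : V} {X : Finset V} (h : MT R D s X) {y : V} (hy : y ∈ X) :
    ∃ n u S, R s n ∧ R u s ∧ S ⊆ D \ (X.erase y) ∧ PS R S n u ∧ y ∈ S := by
  have h1 : ¬ Tr R D s (X.erase y) := by
    intro h2
    have := h.min _ ((erase_subset _ _).trans h.sub) h2
    rw [card_erase_of_mem hy] at this
    have := card_pos.mpr ⟨y, hy⟩
    omega
  unfold Tr at h1
  push Not at h1
  obtain ⟨n, u, hn, hu, hr⟩ := h1
  obtain ⟨S, hS, hP⟩ := hr.toPS
  refine ⟨n, u, S, hn, hu, hS, hP, ?_⟩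
  by_contra hyS
  refine h.tr n u hn hu (hP.rc.mono ?_)
  intro x hx
  have hx' := hS hx
  simp only [mem_sdiff, mem_erase, not_and] at hx' ⊢
  refine ⟨hx'.1, fun hxX => hx'.2 ?_ hxX⟩
  rintro rfl; exact hyS hx

theorem MT.pair {D : Finset V} {s : V} {X : Finset V} (hD : Ac R D) (h : MT R D s X) {y y' : V}
    (hy : y ∈ X) (hy' : y' ∈ X) (hne : y ≠ y') :
    ∃ n u S n' u' S', R s n ∧ R u s ∧ R s n' ∧ R u' s ∧ S ⊆ D \ (X.erase y) ∧ S' ⊆ D \ (X.erase y') ∧
      PS R S n u ∧ PS R S' n' u' ∧ y ∈ S ∧ y' ∈ S' ∧ ∀ x ∈ S, x ∉ S' := by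
  have hsub : D \ ((X.erase y).erase y') ⊆ D := sdiff_subset
  have hcard : ((X.erase y).erase y').card + 2 ≤ X.card := by
    have h1 : y' ∈ X.erase y := mem_erase.mpr ⟨hne.symm, hy'⟩
    rw [card_erase_of_mem h1, card_erase_of_mem hy]
    have h2 := card_pos.mpr ⟨y', h1⟩
    rw [card_erase_of_mem hy] at h2
    omega
  obtain ⟨n1, n2, S1, S2, u1, u2, _, hn1, hn2, hS1, hS2, hu1, hu2, hP1, hP2, hdis⟩ :=
    fan (R := R) (D := D \ ((X.erase y).erase y')) (hD.mono hsub) (fun n => R s n) (fun u => R u s)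
    (by
      by_contra hcon
      push Not at hcon
      have h2 : Tr R D s ((X.erase y).erase y') := fun n u hn hu hr => hcon n u hn hu hr
      have := h.min _ (((erase_subset _ _).trans (erase_subset _ _)).trans h.sub) h2
      omega)
    (by
      intro z hz
      by_contra hcon
      push Not at hcon
      have h2 : Tr R D s (insert z ((X.erase y).erase y')) := by
        intro n u hn hu hr
        refine hcon n hn ⟨u, hu, hr.mono ?_⟩
        intro x hx
        simp only [mem_sdiff, mem_insert, not_or, mem_erase] at hx ⊢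
        exact ⟨hx.2.1, hx.1, hx.2.2⟩
      have h3 := h.min _ (insert_subset (hsub hz) (((erase_subset _ _).trans (erase_subset _ _)).trans h.sub)) h2
      have h4 := card_insert_le z ((X.erase y).erase y')
      omega)
  -- each of the two sets contains `y` or `y'`
  have key : ∀ S n u, R s n → R u s → PS R S n u → S ⊆ D \ ((X.erase y).erase y') → y ∈ S ∨ y' ∈ S := by
    intro S n u hn hu hP hS
    by_contra hcon
    push Not at hcon
    refine h.tr n u hn hu (hP.rc.mono ?_)
    intro x hx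
    have hx' := hS hx
    simp only [mem_sdiff, mem_erase, not_and] at hx' ⊢
    refine ⟨hx'.1, fun hxX => hx'.2 ?_ ?_ hxX⟩
    · rintro rfl; exact hcon.2 hx
    · rintro rfl; exact hcon.1 hx
  have sub : ∀ S, S ⊆ D \ ((X.erase y).erase y') → ∀ w w', (w = y ∧ w' = y' ∨ w = y' ∧ w' = y) → w' ∉ S →
      S ⊆ D \ (X.erase w) := by
    intro S hS w w' hw hw' x hx
    have hx' := hS hx
    simp only [mem_sdiff, mem_erase, not_and] at hx' ⊢
    refine ⟨hx'.1, fun hxw hxX => ?_⟩
    have hxw' : x ≠ w' := by rintro rfl; exact hw' hx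
    rcases hw with ⟨rfl, rfl⟩ | ⟨rfl, rfl⟩
    · exact hx'.2 hxw' hxw hxX
    · exact hx'.2 hxw hxw' hxX
  rcases key S1 n1 u1 hn1 hu1 hP1 hS1 with h1 | h1
  · have h2 : y' ∈ S2 := by
      rcases key S2 n2 u2 hn2 hu2 hP2 hS2 with h2 | h2
      · exact absurd h2 (hdis y h1)
      · exact h2
    refine ⟨n1, u1, S1, n2, u2, S2, hn1, hu1, hn2, hu2, ?_, ?_, hP1, hP2, h1, h2, hdis⟩
    · exact sub S1 hS1 y y' (Or.inl ⟨rfl, rfl⟩) (fun h => hdis _ h h2)
    · exact sub S2 hS2 y' y (Or.inr ⟨rfl, rfl⟩) (fun h => hdis _ h1 h)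
  · have h2 : y ∈ S2 := by
      rcases key S2 n2 u2 hn2 hu2 hP2 hS2 with h2 | h2
      · exact h2
      · exact absurd h2 (hdis y' h1)
    refine ⟨n2, u2, S2, n1, u1, S1, hn2, hu2, hn1, hu1, ?_, ?_, hP2, hP1, h2, h1,
      fun x hx hx' => hdis x hx' hx⟩
    · exact sub S2 hS2 y y' (Or.inl ⟨rfl, rfl⟩) (fun h => hdis _ h1 h)
    · exact sub S1 hS1 y' y (Or.inr ⟨rfl, rfl⟩) (fun h => hdis _ h h2)

end block

section lists
variable {V : Type*}

/-- `l` is the list of interior vertices of a path from `u` to `v`. -/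
def Pth (R : V → V → Prop) (u v : V) (l : List V) : Prop :=
  (u :: (l ++ [v])).Nodup ∧ (u :: (l ++ [v])).IsChain R

theorem Pth.split {R : V → V → Prop} {u v w : V} {s t : List V} (h : Pth R u v (s ++ w :: t)) :
    Pth R u w s ∧ Pth R w v t := by
  obtain ⟨h1, h2⟩ := h
  have e : u :: (s ++ w :: t ++ [v]) = u :: (s ++ w :: (t ++ [v])) := by simp
  rw [e] at h1 h2
  rw [List.isChain_cons_split] at h2
  refine ⟨⟨?_, h2.1⟩, ⟨?_, h2.2⟩⟩
  · refine h1.sublist ?_
    simp
  · refine h1.sublist ?_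
    have : w :: (t ++ [v]) = [] ++ (w :: (t ++ [v])) := rfl
    refine List.Sublist.cons _ ?_
    exact List.sublist_append_right s _

theorem Pth.join {R : V → V → Prop} {u v w : V} {s t : List V} (h1 : Pth R u w s)
    (h2 : Pth R w v t) (hd : ∀ z ∈ s, z ∉ t ∧ z ≠ v) (hu : u ≠ v) (hut : u ∉ t) :
    Pth R u v (s ++ w :: t) := by
  obtain ⟨a1, a2⟩ := h1
  obtain ⟨b1, b2⟩ := h2
  have e : u :: (s ++ w :: t ++ [v]) = u :: (s ++ w :: (t ++ [v])) := by simp
  refine ⟨?_, ?_⟩
  · rw [e]
    simp only [List.nodup_cons, List.mem_append, List.mem_cons, List.nodup_append,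
      List.not_mem_nil, or_false, not_or] at a1 b1 ⊢
    grind
  · rw [e, List.isChain_cons_split]; exact ⟨a2, b2⟩

theorem Pth.ne {R : V → V → Prop} {u v : V} {l : List V} (h : Pth R u v l) : u ≠ v := by
  obtain ⟨h1, _⟩ := h
  simp only [List.nodup_cons, List.mem_append, List.mem_cons, List.not_mem_nil, or_false,
    not_or] at h1
  exact h1.1.2

theorem Pth.not_mem_left {R : V → V → Prop} {u v : V} {l : List V} (h : Pth R u v l) : u ∉ l := by
  obtain ⟨h1, _⟩ := h
  simp only [List.nodup_cons, List.mem_append, List.mem_cons, List.not_mem_nil, or_false,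
    not_or] at h1
  exact h1.1.1

theorem Pth.not_mem_right {R : V → V → Prop} {u v : V} {l : List V} (h : Pth R u v l) : v ∉ l := by
  obtain ⟨h1, _⟩ := h
  simp only [List.nodup_cons, List.nodup_append, List.mem_cons] at h1
  intro hv
  exact h1.2.2.2 v hv v (by simp) rfl

theorem Pth.nodup {R : V → V → Prop} {u v : V} {l : List V} (h : Pth R u v l) : l.Nodup := by
  obtain ⟨h1, _⟩ := h
  simp only [List.nodup_cons, List.nodup_append, List.mem_cons] at h1
  exact h1.2.1

theorem pth_nil {R : V → V → Prop} {u v : V} (hR : R u v) (h : u ≠ v) : Pth R u v [] := by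
  refine ⟨by simp [h], by simp [hR]⟩

theorem Pth.mono {R S : V → V → Prop} {u v : V} {l : List V} (h : Pth R u v l)
    (hRS : ∀ a b, R a b → S a b) : Pth S u v l :=
  ⟨h.1, h.2.imp hRS⟩

/-- the first relation on a path -/
theorem Pth.first {R : V → V → Prop} {u v : V} {l : List V} (h : Pth R u v l) :
    ∃ w, R u w := by
  obtain ⟨_, h2⟩ := h
  cases l with
  | nil => exact ⟨v, by simpa using h2⟩
  | cons a t =>
    simp only [List.cons_append, List.isChain_cons_cons] at h2
    exact ⟨a, h2.1⟩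

theorem Pth.mem_of {R : V → V → Prop} {u v : V} {l : List V} {p : V → Prop} (h : Pth R u v l)
    (hR : ∀ a b, R a b → p a) : ∀ w ∈ l, p w := by
  intro w hw
  obtain ⟨s, t, rfl⟩ := List.append_of_mem hw
  obtain ⟨b, hb⟩ := h.split.2.first
  exact hR _ _ hb

theorem reachPath {R : V → V → Prop} {u v : V} (h : Relation.ReflTransGen R u v) :
    u = v ∨ ∃ l, Pth R u v l := by
  induction h with
  | refl => left; rfl
  | tail hab hbc ih =>
    rename_i b c
    by_cases huc : u = c
    · left; exact huc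
    right
    rcases ih with rfl | ⟨l, hl⟩
    · exact ⟨[], pth_nil hbc huc⟩
    · by_cases hcl : c ∈ l
      · obtain ⟨s, t, rfl⟩ := List.append_of_mem hcl
        exact ⟨s, hl.split.1⟩
      · by_cases hbc' : b = c
        · subst hbc'; exact ⟨l, hl⟩
        · refine ⟨l ++ b :: [], hl.join (pth_nil hbc hbc') ?_ huc (by simp)⟩
          intro z hz
          refine ⟨by simp, ?_⟩
          rintro rfl; exact hcl hz

variable {R : V → V → Prop}

theorem Rc.pth {S : Finset V} {u v : V} (h : Rc R S u v) (hne : u ≠ v) :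
    ∃ l, Pth R u v l ∧ ∀ x ∈ l, x ∈ S := by
  have h2 : Relation.ReflTransGen (fun a b => R a b ∧ a ∈ S ∧ b ∈ S) u v := by
    obtain ⟨h1, h3⟩ := h
    clear hne
    have : u ∈ S ∧ Relation.ReflTransGen (fun a b => R a b ∧ a ∈ S ∧ b ∈ S) u v ∧ v ∈ S := by
      induction h3 with
      | refl => exact ⟨h1, Relation.ReflTransGen.refl, h1⟩
      | tail _ hbc ih =>
        exact ⟨h1, ih.2.1.tail ⟨hbc.1, ih.2.2, hbc.2⟩, hbc.2⟩
    exact this.2.1
  rcases reachPath h2 with h | ⟨l, hl⟩
  · exact absurd h hne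
  · exact ⟨l, hl.mono (fun _ _ h => h.1), hl.mem_of (fun _ _ h => h.2.1)⟩

theorem chainRc : ∀ (l : List V) (a b : V), (a :: (l ++ [b])).IsChain R →
    Rc R (a :: (l ++ [b])).toFinset a b := by
  intro l
  induction l with
  | nil =>
    intro a b h
    have : R a b := by simpa using h
    exact Rc.step this (by simp) (by simp)
  | cons c l ih =>
    intro a b h
    simp only [List.cons_append, List.isChain_cons_cons] at h
    have h1 := ih c b h.2
    refine Rc.head h.1 (by simp) (h1.mono ?_)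
    intro x hx
    simp only [List.mem_toFinset, List.cons_append, List.mem_cons, List.mem_append] at hx ⊢
    tauto

/-- a set such that any two of its elements lie on a circuit in it -/
def Circ (R : V → V → Prop) (g : Finset V) : Prop := ∀ x ∈ g, ∀ y ∈ g, x ≠ y → Link R g x y

theorem circ_aux {w : V} {l p q1 q2 : List V} {x y : V} (hn : (w :: l).Nodup)
    (hc : (w :: (l ++ [w])).IsChain R) (he : w :: l = p ++ x :: (q1 ++ y :: q2)) :
    Link R (w :: l).toFinset x y := by
  have he' : w :: (l ++ [w]) = p ++ x :: (q1 ++ y :: (q2 ++ [w])) := by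
    have := congrArg (fun t => t ++ [w]) he
    simpa using this
  rw [he'] at hc
  have hc1 := (List.isChain_append.mp hc).2.1
  rw [List.isChain_cons_split] at hc1
  obtain ⟨hc1, hc2⟩ := hc1
  -- path from `w` to `x`
  have hwx : Rc R (p ++ [x]).toFinset w x := by
    cases p with
    | nil =>
      simp only [List.nil_append, List.cons.injEq] at he
      rw [he.1]
      exact Rc.rfl' (by simp)
    | cons a p =>
      simp only [List.cons_append, List.cons.injEq] at he
      rw [he.1]
      have : (a :: (p ++ [x])).IsChain R := by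
        have h3 : (a :: p ++ x :: (q1 ++ y :: (q2 ++ [w]))) =
          (a :: (p ++ x :: (q1 ++ y :: (q2 ++ [w])))) := by simp
        rw [h3, List.isChain_cons_split] at hc
        exact hc.1
      exact chainRc p a x this
  have hw : w ∈ p ++ [x] := List.mem_toFinset.mp hwx.left
  rw [he] at hn
  have hxy : x ≠ y := by
    rintro rfl
    simp [List.nodup_append] at hn
  refine ⟨hxy, (x :: (q1 ++ [y])).toFinset, (y :: (q2 ++ [w])).toFinset ∪ (p ++ [x]).toFinset,
    chainRc q1 x y hc1, (chainRc q2 y w hc2).trans' hwx subset_union_left subset_union_right, ?_, ?_, ?_⟩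
  · intro v hv hv'
    simp only [List.mem_toFinset, mem_union, List.mem_cons, List.mem_append, List.not_mem_nil,
      or_false] at hv hv' hw
    simp only [List.nodup_append, List.nodup_cons, List.mem_cons, List.mem_append] at hn
    obtain ⟨hp, ⟨hx1, hq1, hq2, hq12⟩, hpq⟩ := hn
    push Not at hx1
    rcases hv with hv | hv | hv
    · exact Or.inl hv
    · exfalso
      rcases hv' with (hv' | hv' | hv') | hv' | hv'
      · exact hq12 v hv y (Or.inl rfl) hv'
      · exact hq12 v hv v (Or.inr hv') rfl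
      · subst hv'
        rcases hw with hw | hw
        · exact hpq _ hw _ (Or.inr (Or.inl hv)) rfl
        · subst hw; exact hx1.1 hv
      · exact hpq _ hv' _ (Or.inr (Or.inl hv)) rfl
      · subst hv'; exact hx1.1 hv
    · exact Or.inr hv
  · rw [he]
    intro v hv
    simp only [List.mem_toFinset, List.mem_cons, List.mem_append, List.not_mem_nil, or_false] at hv ⊢
    tauto
  · intro v hv
    simp only [List.mem_toFinset, mem_union, List.mem_cons, List.mem_append, List.not_mem_nil,
      or_false] at hv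
    rw [List.mem_toFinset]
    rcases hv with (hv | hv | hv) | hv | hv
    · rw [he]; simp [hv]
    · rw [he]; simp [hv]
    · simp [hv]
    · rw [he]; simp [hv]
    · rw [he]; simp [hv]

theorem circ_list {w : V} {l : List V} (hn : (w :: l).Nodup)
    (hc : (w :: (l ++ [w])).IsChain R) : Circ R (w :: l).toFinset := by
  intro x hx y hy hxy
  rw [List.mem_toFinset] at hx hy
  obtain ⟨p, q, he⟩ := List.append_of_mem hx
  rw [he] at hy
  rcases List.mem_append.mp hy with hy | hy
  · obtain ⟨p1, p2, rfl⟩ := List.append_of_mem hy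
    have : w :: l = p1 ++ y :: (p2 ++ x :: q) := by rw [he]; simp
    exact (circ_aux hn hc this).symm
  · rcases List.mem_cons.mp hy with hy | hy
    · exact absurd hy.symm hxy
    · obtain ⟨q1, q2, rfl⟩ := List.append_of_mem hy
      exact circ_aux hn hc he

/-- two vertices, one of which meets all circuits, in a strong set lie on a circuit -/
theorem exists_circ {C : Finset V} {w v : V} (hD : Ac R (C.erase w)) (hvw : v ≠ w)
    (h1 : Rc R C w v) (h2 : Rc R C v w) : ∃ g ⊆ C, w ∈ g ∧ v ∈ g ∧ Circ R g := by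
  obtain ⟨l1, hp1, hl1⟩ := h1.pth hvw.symm
  obtain ⟨l2, hp2, hl2⟩ := h2.pth hvw
  have hd : ∀ z ∈ l1, z ∉ l2 := by
    intro z hz1 hz2
    have hzv : z ≠ v := by rintro rfl; exact hp1.not_mem_right hz1
    obtain ⟨s, t, rfl⟩ := List.append_of_mem hz1
    obtain ⟨s', t', rfl⟩ := List.append_of_mem hz2
    have hzt := hp1.split.2
    have hvs := hp2.split.1
    have r1 : Rc R (C.erase w) z v := by
      refine (chainRc _ _ _ hzt.2).mono ?_
      intro x hx
      simp only [List.mem_toFinset, List.mem_cons, List.mem_append, List.not_mem_nil, or_false] at hx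
      rw [mem_erase]
      have hwn := hp1.not_mem_left
      rcases hx with hx | hx | hx
      · subst hx; exact ⟨by rintro rfl; exact hwn (by simp), hl1 _ (by simp)⟩
      · exact ⟨by rintro rfl; exact hwn (by simp [hx]), hl1 _ (by simp [hx])⟩
      · subst hx; exact ⟨hvw, h2.left⟩
    have r2 : Rc R (C.erase w) v z := by
      refine (chainRc _ _ _ hvs.2).mono ?_
      intro x hx
      simp only [List.mem_toFinset, List.mem_cons, List.mem_append, List.not_mem_nil, or_false] at hx
      rw [mem_erase]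
      have hwn := hp2.not_mem_right
      rcases hx with hx | hx | hx
      · subst hx; exact ⟨hvw, h2.left⟩
      · exact ⟨by rintro rfl; exact hwn (by simp [hx]), hl2 _ (by simp [hx])⟩
      · subst hx; exact ⟨by rintro rfl; exact hwn (by simp), hl2 _ (by simp)⟩
    exact hzv (hD.eq r1 r2 (Subset.refl _) (Subset.refl _))
  refine ⟨(w :: (l1 ++ v :: l2)).toFinset, ?_, by simp, by simp, circ_list ?_ ?_⟩
  · intro x hx
    simp only [List.mem_toFinset, List.mem_cons, List.mem_append] at hx
    rcases hx with hx | hx | hx | hx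
    · subst hx; exact h1.left
    · exact hl1 x hx
    · subst hx; exact h2.left
    · exact hl2 x hx
  · obtain ⟨a1, _⟩ := hp1
    obtain ⟨b1, _⟩ := hp2
    simp only [List.nodup_cons, List.mem_append, List.mem_cons, List.nodup_append,
      List.not_mem_nil, or_false, not_or] at a1 b1 ⊢
    grind
  · have : w :: (l1 ++ v :: l2 ++ [w]) = w :: (l1 ++ v :: (l2 ++ [w])) := by simp
    rw [this, List.isChain_cons_split]
    exact ⟨hp1.2, hp2.2⟩

theorem Pth.fn {u v : V} {l : List V} (h : Pth R u v l) :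
    ∃ (n : ℕ) (f : ℕ → V), 1 ≤ n ∧ f 0 = u ∧ f n = v ∧ (∀ k, k < n → R (f k) (f (k + 1))) ∧
      (∀ k, 0 < k → k < n → f k ∈ l) ∧ (∀ k k', k ≤ n → k' ≤ n → f k = f k' → k = k') := by
  have hlen : (u :: (l ++ [v])).length = l.length + 2 := by simp
  refine ⟨l.length + 1, fun k => (u :: (l ++ [v])).getD k u, by omega, by simp, ?_, ?_, ?_, ?_⟩
  · simp
  · intro k hk
    have h1 : k + 1 < (u :: (l ++ [v])).length := by rw [hlen]; omega
    have h0 : k < (u :: (l ++ [v])).length := by rw [hlen]; omega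
    have := h.2
    rw [List.isChain_iff_getElem] at this
    have h3 := this k (by rw [hlen]; omega)
    simp only [List.getD_eq_getElem?_getD, List.getElem?_eq_getElem h0, List.getElem?_eq_getElem h1,
      Option.getD_some]
    exact h3
  · intro k h0 hk
    obtain ⟨k, rfl⟩ : ∃ j, k = j + 1 := ⟨k - 1, by omega⟩
    have hk' : k < l.length := by omega
    simp [List.getElem?_append_left hk', List.getElem?_eq_getElem hk']
  · intro k k' hk hk' he
    have h1 : k < (u :: (l ++ [v])).length := by rw [hlen]; omega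
    have h0 : k' < (u :: (l ++ [v])).length := by rw [hlen]; omega
    simp only [List.getD_eq_getElem?_getD, List.getElem?_eq_getElem h0, List.getElem?_eq_getElem h1,
      Option.getD_some] at he
    exact (List.Nodup.getElem_inj_iff h.1).mp he

end lists


section final
variable {V : Type*} {R : V → V → Prop}

theorem Ch.fn {r : ℕ} {a t : V} {S : Finset V} (h : Ch R r a t S) :
    ∃ (j : ℕ → V) (E : ℕ → Finset V), j 0 = a ∧ j r = t ∧ (∀ i, i < r → Link R (E i) (j i) (j (i + 1))) ∧
      (∀ i, i < r → E i ⊆ S) ∧ (∀ i, i ≤ r → j i ∈ S) ∧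
      (∀ i i', i < i' → i' < r → ∀ x ∈ E i, x ∈ E i' → i' = i + 1 ∧ x = j i') := by
  induction h with
  | nil a =>
    exact ⟨fun _ => a, fun _ => ∅, rfl, rfl, fun i hi => absurd hi (by omega), fun i hi => absurd hi (by omega),
      fun i _ => by simp, fun i i' _ hi => absurd hi (by omega)⟩
  | @cons r a m t E0 S hl hc hE ih =>
    obtain ⟨j, E, h0, hr, h1, h2, h3, h4⟩ := ih
    refine ⟨fun i => match i with | 0 => a | i + 1 => j i, fun i => match i with | 0 => E0 | i + 1 => E i,
      rfl, hr, ?_, ?_, ?_, ?_⟩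
    · intro i hi
      cases i with
      | zero => simpa [h0] using hl
      | succ i => exact h1 i (by omega)
    · intro i hi
      cases i with
      | zero => exact subset_union_left
      | succ i => exact (h2 i (by omega)).trans subset_union_right
    · intro i hi
      cases i with
      | zero => exact mem_union_left _ hl.left
      | succ i => exact mem_union_right _ (h3 i (by omega))
    · intro i i' hii hi' x hx hx'
      cases i' with
      | zero => omega
      | succ i' =>
        cases i with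
        | zero =>
          have hxm : x = m := hE x hx (h2 i' (by omega) hx')
          have : i' = 0 := by
            by_contra hne
            have h5 := h4 0 i' (by omega) (by omega) x (by
              rw [hxm, ← h0]; exact (h1 0 (by omega)).left) hx'
            have h6 : i' = 1 := h5.1
            subst h6
            have h7 := (h1 0 (by omega)).ne
            apply h7
            rw [h0, ← hxm]
            exact h5.2
          subst this
          exact ⟨rfl, by simpa [h0] using hxm⟩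
        | succ i =>
          have := h4 i i' (by omega) (by omega) x hx hx'
          exact ⟨by omega, this.2⟩

/-- the conclusion of the frozen statement -/
def Concl (R : V → V → Prop) : Prop :=
  ∃ (ℓ : ℕ) (b : ℕ → V) (n : ℕ → Bool → ℕ) (P : ℕ → Bool → ℕ → V),
        3 ≤ ℓ ∧
        (∀ i j, i < ℓ → j < ℓ → b i = b j → i = j) ∧
        (∀ i, i < ℓ → ∀ d, 1 ≤ n i d) ∧
        (∀ i, i < ℓ →
          P i false 0 = b i ∧ P i false (n i false) = b ((i + 1) % ℓ) ∧
          P i true 0 = b ((i + 1) % ℓ) ∧ P i true (n i true) = b i) ∧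
        (∀ i, i < ℓ → ∀ d, ∀ k, k < n i d → R (P i d k) (P i d (k + 1))) ∧
        (∀ i, i < ℓ → ∀ d, ∀ k, 0 < k → k < n i d → ∀ j, j < ℓ → P i d k ≠ b j) ∧
        (∀ i d k i' d' k', i < ℓ → i' < ℓ → 0 < k → k < n i d → 0 < k' → k' < n i' d' →
          P i d k = P i' d' k' → i = i' ∧ d = d' ∧ k = k')

theorem Link.fn {S : Finset V} {u v : V} (h : Link R S u v) :
    ∃ (n : Bool → ℕ) (P : Bool → ℕ → V), (∀ d, 1 ≤ n d) ∧ P false 0 = u ∧ P false (n false) = v ∧
      P true 0 = v ∧ P true (n true) = u ∧ (∀ d k, k < n d → R (P d k) (P d (k + 1))) ∧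
      (∀ d k, 0 < k → k < n d → P d k ∈ S ∧ P d k ≠ u ∧ P d k ≠ v) ∧
      (∀ d d' k k', 0 < k → k < n d → 0 < k' → k' < n d' → P d k = P d' k' → d = d' ∧ k = k') := by
  obtain ⟨hne, S1, S2, h1, h2, h3, h4, h5⟩ := h
  obtain ⟨l1, hp1, hl1⟩ := h1.pth hne
  obtain ⟨l2, hp2, hl2⟩ := h2.pth hne.symm
  obtain ⟨n1, f1, a1, a2, a3, a4, a5, a6⟩ := hp1.fn
  obtain ⟨n2, f2, b1, b2, b3, b4, b5, b6⟩ := hp2.fn
  have dis : ∀ x ∈ l1, x ∉ l2 := by
    intro x hx hx'
    rcases h3 x (hl1 x hx) (hl2 x hx') with h | h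
    · exact hp1.not_mem_left (h ▸ hx)
    · exact hp1.not_mem_right (h ▸ hx)
  refine ⟨fun d => if d then n2 else n1, fun d => if d then f2 else f1, ?_, by simpa using a2, by simpa using a3,
    by simpa using b2, by simpa using b3, ?_, ?_, ?_⟩
  · intro d; cases d
    · simpa using a1
    · simpa using b1
  · intro d k; cases d
    · simpa using a4 k
    · simpa using b4 k
  · intro d k h0 hk
    cases d
    · simp only [Bool.false_eq_true, if_false] at hk ⊢
      have := a5 k h0 hk
      exact ⟨h4 (hl1 _ this), fun h => hp1.not_mem_left (h ▸ this), fun h => hp1.not_mem_right (h ▸ this)⟩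
    · simp only [if_true] at hk ⊢
      have := b5 k h0 hk
      exact ⟨h5 (hl2 _ this), fun h => hp2.not_mem_right (h ▸ this), fun h => hp2.not_mem_left (h ▸ this)⟩
  · intro d d' k k' h0 hk h0' hk' he
    cases d <;> cases d'
    · simp only [Bool.false_eq_true, if_false] at hk hk' he
      exact ⟨rfl, a6 k k' hk.le hk'.le he⟩
    · simp only [Bool.false_eq_true, if_false, if_true] at hk hk' he
      exact absurd (he ▸ b5 k' h0' hk') (dis _ (a5 k h0 hk))
    · simp only [Bool.false_eq_true, if_false, if_true] at hk hk' he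
      exact absurd (he ▸ b5 k h0 hk) (dis _ (a5 k' h0' hk'))
    · simp only [if_true] at hk hk' he
      exact ⟨rfl, b6 k k' hk.le hk'.le he⟩

theorem Neck.concl (h : Neck R) : Concl R := by
  obtain ⟨r, a, t, S, T, hr, hch, hT, hST⟩ := h
  obtain ⟨j, E, h0, hjr, h1, h2, h3, h4⟩ := hch.fn
  -- injectivity of the joints
  have inj' : ∀ i i', i < i' → i' ≤ r → j i ≠ j i' := by
    intro i i' hii hi' he
    by_cases h5 : i' = i + 1
    · subst h5; exact (h1 i (by omega)).ne he
    · have hL := (h1 i (by omega)).left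
      have hR := (h1 (i' - 1) (by omega)).right
      have h6 : i' - 1 + 1 = i' := by omega
      rw [h6, ← he] at hR
      have h7 := h4 i (i' - 1) (by omega) (by omega) (j i) hL hR
      have h8 : i' - 1 = i + 1 := h7.1
      rw [h8] at h7
      exact (h1 i (by omega)).ne h7.2
  have inj : ∀ i i', i ≤ r → i' ≤ r → j i = j i' → i = i' := by
    intro i i' hi hi' he
    rcases lt_trichotomy i i' with h | h | h
    · exact absurd he (inj' i i' h hi')
    · exact h
    · exact absurd he.symm (inj' i' i h hi)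
  -- the links
  obtain ⟨F, hF⟩ : ∃ F : ℕ → Finset V, F = fun i => if i < r then E i else T := ⟨_, rfl⟩
  have hFr : ∀ i, i < r → F i = E i := by intro i hi; rw [hF]; simp [hi]
  have hFT : F r = T := by rw [hF]; simp
  have mod1 : ∀ i, i < r → (i + 1) % (r + 1) = i + 1 := by
    intro i hi; exact Nat.mod_eq_of_lt (by omega)
  have mod2 : (r + 1) % (r + 1) = 0 := Nat.mod_self _
  have hlink : ∀ i, i < r + 1 → Link R (F i) (j i) (j ((i + 1) % (r + 1))) := by
    intro i hi
    by_cases hir : i < r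
    · rw [hFr i hir, mod1 i hir]; exact h1 i hir
    · have : i = r := by omega
      subst this
      rw [hFT, mod2, h0, hjr]; exact hT
  have hbeta : ∀ i i', i < i' → i' < r + 1 → ∀ x ∈ F i, x ∈ F i' → ∃ k, k < r + 1 ∧ x = j k := by
    intro i i' hii hi' x hx hx'
    have hir : i < r := by omega
    rw [hFr i hir] at hx
    by_cases hir' : i' < r
    · rw [hFr i' hir'] at hx'
      exact ⟨i', by omega, (h4 i i' hii hir' x hx hx').2⟩
    · have : i' = r := by omega
      subst this
      rw [hFT] at hx'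
      rcases hST x (h2 i hir hx) hx' with h | h
      · exact ⟨0, by omega, by rw [h0]; exact h⟩
      · exact ⟨i', by omega, by rw [hjr]; exact h⟩
  have hgamma : ∀ i k, i < r + 1 → k < r + 1 → j k ∈ F i → k = i ∨ k = (i + 1) % (r + 1) := by
    intro i k hi hk hm
    by_cases hir : i < r
    · rw [hFr i hir] at hm
      rw [mod1 i hir]
      rcases lt_trichotomy k i with h | h | h
      · exfalso
        have := h4 k i h hir (j k) (h1 k (by omega)).left hm
        exact absurd (inj k i (by omega) (by omega) this.2) (by omega)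
      · exact Or.inl h
      · by_cases h5 : k = i + 1
        · exact Or.inr h5
        · exfalso
          have hR := (h1 (k - 1) (by omega)).right
          have h6 : k - 1 + 1 = k := by omega
          rw [h6] at hR
          have := h4 i (k - 1) (by omega) (by omega) (j k) hm hR
          exact absurd (inj k (k - 1) (by omega) (by omega) this.2) (by omega)
    · have : i = r := by omega
      subst this
      rw [hFT] at hm
      rw [mod2]
      rcases hST _ (h3 k (by omega)) hm with h | h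
      · right; exact inj k 0 (by omega) (by omega) (by rw [h0]; exact h)
      · left; exact inj k i (by omega) (by omega) (by rw [hjr]; exact h)
  -- choose the paths
  have hch : ∀ i, ∃ (n : Bool → ℕ) (P : Bool → ℕ → V), i < r + 1 → ((∀ d, 1 ≤ n d) ∧ P false 0 = j i ∧
      P false (n false) = j ((i + 1) % (r + 1)) ∧
      P true 0 = j ((i + 1) % (r + 1)) ∧ P true (n true) = j i ∧ (∀ d k, k < n d → R (P d k) (P d (k + 1))) ∧
      (∀ d k, 0 < k → k < n d → P d k ∈ F i ∧ P d k ≠ j i ∧ P d k ≠ j ((i + 1) % (r + 1))) ∧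
      (∀ d d' k k', 0 < k → k < n d → 0 < k' → k' < n d' → P d k = P d' k' → d = d' ∧ k = k')) := by
    intro i
    by_cases hi : i < r + 1
    · obtain ⟨n, P, h⟩ := (hlink i hi).fn
      exact ⟨n, P, fun _ => h⟩
    · exact ⟨fun _ => 0, fun _ _ => j 0, fun h => absurd h hi⟩
  choose n P hnP using hch
  have hjoint : ∀ i, i < r + 1 → ∀ d, ∀ k, 0 < k → k < n i d → ∀ m, m < r + 1 → P i d k ≠ j m := by
    intro i hi d k h0k hk m hm he
    obtain ⟨_, _, _, _, _, _, h7, _⟩ := hnP i hi
    have := h7 d k h0k hk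
    rw [he] at this
    rcases hgamma i m hi hm this.1 with h | h
    · subst h; exact this.2.1 rfl
    · subst h; exact this.2.2 rfl
  refine ⟨r + 1, j, n, P, by omega, fun i i' hi hi' he => inj i i' (by omega) (by omega) he, ?_, ?_, ?_,
    hjoint, ?_⟩
  · intro i hi; exact (hnP i hi).1
  · intro i hi
    obtain ⟨_, h2, h3, h4, h5, _⟩ := hnP i hi
    exact ⟨h2, h3, h4, h5⟩
  · intro i hi
    obtain ⟨_, h2, h3, h4, h5, h6, _⟩ := hnP i hi
    exact h6
  · intro i d k i' d' k' hi hi' h0k hk h0k' hk' he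
    obtain ⟨_, _, _, _, _, _, h7, h8⟩ := hnP i hi
    obtain ⟨_, _, _, _, _, _, h7', h8'⟩ := hnP i' hi'
    rcases lt_trichotomy i i' with h | h | h
    · exfalso
      obtain ⟨m, hm, hx⟩ := hbeta i i' h hi' _ (h7 d k h0k hk).1 (he ▸ (h7' d' k' h0k' hk').1)
      exact hjoint i hi d k h0k hk m hm hx
    · subst h
      exact ⟨rfl, h8 d d' k k' h0k hk h0k' hk' he⟩
    · exfalso
      obtain ⟨m, hm, hx⟩ := hbeta i' i h hi _ (h7' d' k' h0k' hk').1 (he ▸ (h7 d k h0k hk).1)
      exact hjoint i' hi' d' k' h0k' hk' m hm hx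

end final


end Pool.Agent.Lib.NK
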