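import Mathlib
import Pool.Agent.Lib.NK.Base

set_option autoImplicit false

/-! Digraphs with at most three vertices meeting all directed cycles (MP_c62493_co). -/

namespace Pool.Agent.Lib.NK

open Finset
open scoped Classical

section fvs
variable {V : Type*} {R : V → V → Prop}

theorem exists_circ_of_not_ac (hirr : ∀ v, ¬ R v v) {S : Finset V} (h : ¬ Ac R S) :
    ∃ g ⊆ S, Circ R g ∧ ∃ x ∈ g, ∃ y ∈ g, x ≠ y := by
  unfold Ac at h
  push Not at h
  obtain ⟨u, v, huv, hu, hr⟩ := h
  have hne : v ≠ u := by rintro rfl; exact hirr _ huv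
  obtain ⟨l, hl, hlS⟩ := hr.pth hne
  refine ⟨(v :: (l ++ [u])).toFinset, ?_, ?_, v, by simp, u, by simp, hne⟩
  · intro x hx
    simp only [List.mem_toFinset, List.mem_cons, List.mem_append, List.not_mem_nil, or_false] at hx
    rcases hx with hx | hx | hx
    · exact hx ▸ hr.left
    · exact hlS x hx
    · exact hx ▸ hu
  · refine circ_list hl.1 ?_
    have := hl.2
    have e : v :: (l ++ [u] ++ [v]) = v :: (l ++ u :: ([] ++ [v])) := by simp
    rw [e, List.isChain_cons_split]
    exact ⟨this, by simpa using huv⟩

theorem Circ.link {g : Finset V} (hg : Circ R g) {x y : V} (hx : x ∈ g) (hy : y ∈ g) (hne : x ≠ y) :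
    Link R g x y := hg x hx y hy hne

theorem Circ.not_sub {g B : Finset V} (hg : Circ R g) {x y : V} (hx : x ∈ g) (hy : y ∈ g) (hne : x ≠ y)
    (hB : Ac R B) : ¬ g ⊆ B := by
  intro h
  exact hne (hB.eq (hg.link hx hy hne).rc (hg.link hy hx hne.symm).rc h h)

theorem link_digon {a b : V} (hne : a ≠ b) (h1 : R a b) (h2 : R b a) : Link R {a, b} a b :=
  ⟨hne, {a, b}, {a, b}, Rc.step h1 (by simp) (by simp), Rc.step h2 (by simp) (by simp),
    by intro x hx _; simpa using hx, Subset.refl _, Subset.refl _⟩

theorem neck_three {E F G : Finset V} {a m t : V} (h1 : Link R E a m) (h2 : Link R F m t)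
    (h3 : Link R G t a) (hEF : ∀ x ∈ E, x ∈ F → x = m) (hFG : ∀ x ∈ F, x ∈ G → x = t)
    (hEG : ∀ x ∈ E, x ∈ G → x = a) : Neck R := by
  refine ⟨2, a, t, E ∪ (F ∪ {t}), G, le_refl _, Ch.cons h1 (Ch.cons h2 (Ch.nil t) ?_) ?_, h3, ?_⟩
  · intro x _ hx; simpa using hx
  · intro x hx hx'
    rcases mem_union.mp hx' with hx' | hx'
    · exact hEF x hx hx'
    · rw [mem_singleton] at hx'; subst hx'
      exact absurd (hEG _ hx h3.left) h3.ne
  · intro x hx hx'
    simp only [mem_union, mem_singleton] at hx
    rcases hx with hx | hx | hx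
    · exact Or.inl (hEG x hx hx')
    · exact Or.inr (hFG x hx hx')
    · exact Or.inr hx

/-- inclusion-minimal sets -/
theorem exists_incl_min (A : Finset V) (p : Finset V → Prop) (h : p A) :
    ∃ X ⊆ A, p X ∧ ∀ x ∈ X, ¬ p (X.erase x) := by
  obtain ⟨X, hX, hmin⟩ := exists_min_image (A.powerset.filter p) card ⟨A, by simp [h]⟩
  simp only [mem_filter, mem_powerset] at hX hmin
  refine ⟨X, hX.1, hX.2, ?_⟩
  intro x hx hp
  have := hmin (X.erase x) ⟨(erase_subset _ _).trans hX.1, hp⟩
  rw [card_erase_of_mem hx] at this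
  have := card_pos.mpr ⟨x, hx⟩
  omega

/-- removing a transversal -/
theorem MT.ac {D : Finset V} {s : V} {X : Finset V} (hD : Ac R D) (h : Tr R D s X) (hirr : ∀ v, ¬ R v v)
    (hs : s ∉ D) : Ac R (insert s (D \ X)) := by
  intro u v huv hu hr
  -- there is a closed walk in `insert s (D \ X)`
  have hne : v ≠ u := by rintro rfl; exact hirr _ huv
  by_cases hus : u = s
  · subst hus
    obtain ⟨w, hw, hr'⟩ := hr.inn hne
    rw [erase_insert (by simp [hs])] at hr'
    exact h v w huv hw hr'
  · have hu' : u ∈ D \ X := by simpa [hus] using hu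
    rcases hr.cut s with h1 | ⟨h1, h2⟩
    · rw [erase_insert (by simp [hs])] at h1
      exact hD u v huv (mem_sdiff.mp hu').1 (h1.mono sdiff_subset)
    · obtain ⟨n, hn, h3⟩ := h2.out hus
      rw [erase_insert (by simp [hs])] at h3
      by_cases hvs : v = s
      · subst hvs
        exact h n u hn huv h3
      · obtain ⟨w, hw, h4⟩ := h1.inn hvs
        rw [erase_insert (by simp [hs])] at h4
        exact h n w hn hw ((h3.tail huv h4.left).trans h4)

/-- the dicycle through `s` and one element of the minimum transversal -/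
theorem MT.link {D : Finset V} {s : V} {X : Finset V} (hD : Ac R D) (hs : s ∉ D) (h : MT R D s X) {y : V}
    (hy : y ∈ X) : ∃ E, Link R E y s ∧ E ⊆ insert s (insert y (D \ X)) := by
  obtain ⟨n, u, S, hn, hu, hS, hP, hyS⟩ := h.single hy
  refine ⟨insert s S, linkOfPS hD (hS.trans sdiff_subset) hs hP hn hu hyS, ?_⟩
  apply insert_subset_insert
  intro x hx
  have := hS hx
  simp only [mem_sdiff, mem_erase, not_and, mem_insert] at this ⊢
  by_cases hxy : x = y
  · exact Or.inl hxy
  · exact Or.inr ⟨this.1, this.2 hxy⟩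

/-- two dicycles through `s` meeting only there -/
theorem MT.link2 {D : Finset V} {s : V} {X : Finset V} (hD : Ac R D) (hs : s ∉ D) (h : MT R D s X)
    {y y' : V} (hy : y ∈ X) (hy' : y' ∈ X) (hne : y ≠ y') :
    ∃ E E', Link R E y s ∧ Link R E' y' s ∧ E ⊆ insert s (insert y (D \ X)) ∧
      E' ⊆ insert s (insert y' (D \ X)) ∧ ∀ x ∈ E, x ∈ E' → x = s := by
  obtain ⟨n, u, S, n', u', S', hn, hu, hn', hu', hS, hS', hP, hP', hyS, hyS', hd⟩ := h.pair hD hy hy' hne
  have key : ∀ (S : Finset V) (y : V), S ⊆ D \ (X.erase y) → insert s S ⊆ insert s (insert y (D \ X)) := by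
    intro S y hS
    apply insert_subset_insert
    intro x hx
    have := hS hx
    simp only [mem_sdiff, mem_erase, not_and, mem_insert] at this ⊢
    by_cases hxy : x = y
    · exact Or.inl hxy
    · exact Or.inr ⟨this.1, this.2 hxy⟩
  refine ⟨insert s S, insert s S', linkOfPS hD (hS.trans sdiff_subset) hs hP hn hu hyS,
    linkOfPS hD (hS'.trans sdiff_subset) hs hP' hn' hu' hyS', key S y hS, key S' y' hS', ?_⟩
  intro x hx hx'
  rcases mem_insert.mp hx with hx | hx
  · exact hx
  rcases mem_insert.mp hx' with hx' | hx'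
  · exact hx'
  exact absurd hx' (hd x hx)

/-- (M): a dicycle outside the red class meets the minimum transversal at most once -/
theorem MT.meet {D : Finset V} {s : V} {X : Finset V} (hN : ¬ Neck R) (hD : Ac R D) (hs : s ∉ D)
    (h : MT R D s X) {W : Finset V} (hW : Circ R W) (hsW : s ∉ W) (hWD : ∀ x ∈ W, x ∈ D → x ∈ X)
    {y y' : V} (hy : y ∈ X) (hy' : y' ∈ X) (hyW : y ∈ W) (hyW' : y' ∈ W) : y = y' := by
  by_contra hne
  obtain ⟨E, E', hE, hE', hEs, hEs', hEE⟩ := h.link2 hD hs hy hy' hne
  apply hN
  have key : ∀ (E : Finset V) (y : V), E ⊆ insert s (insert y (D \ X)) → ∀ x ∈ E, x ∈ W → x = y := by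
    intro E y hE x hx hxW
    have := hE hx
    simp only [mem_insert, mem_sdiff] at this
    rcases this with h1 | h1 | h1
    · exact absurd (h1 ▸ hxW) hsW
    · exact h1
    · exact absurd (hWD x hxW h1.1) h1.2
  refine neck_three (E := E) (F := E') (G := W) hE hE'.symm (hW.link hyW' hyW (Ne.symm hne)) hEE ?_ ?_
  · exact key E' y' hEs'
  · exact key E y hEs

/-- an acyclic set contains no nonempty subset without sinks -/
theorem Ac.sink {F S : Finset V} (h : Ac R F) (hS : S ⊆ F) (hne : S.Nonempty)
    (hs : ∀ u ∈ S, ∃ v ∈ S, R u v) : False := by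
  obtain ⟨u, hu, hmin⟩ := exists_min_image S (fun u => (S.filter (fun x => Rc R S u x)).card) hne
  obtain ⟨v, hv, huv⟩ := hs u hu
  have h1 := hmin v hv
  have h2 : S.filter (fun x => Rc R S v x) ⊂ S.filter (fun x => Rc R S u x) := by
    rw [Finset.ssubset_iff_of_subset]
    · refine ⟨u, by simp [hu, Rc.rfl' hu], ?_⟩
      simp only [mem_filter, not_and]
      intro _ h3
      exact h u v huv (hS hu) (h3.mono hS)
    · intro x hx
      rw [mem_filter] at hx ⊢
      exact ⟨hx.1, Rc.head huv hu hx.2⟩
  have := card_lt_card h2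
  omega

/-- covered by two acyclic sets -/
def Cov (R : V → V → Prop) (U : Finset V) : Prop := ∃ B C, U ⊆ B ∪ C ∧ Ac R B ∧ Ac R C

theorem rc_pair (hirr : ∀ v, ¬ R v v) {g : Finset V} {x y : V} (hg : g ⊆ {x, y}) (h : Rc R g x y)
    (hne : x ≠ y) : R x y := by
  rcases h.cases_head with h1 | ⟨w, hw, h1⟩
  · exact absurd h1 hne
  · have := hg h1.left
    simp only [mem_insert, mem_singleton] at this
    rcases this with rfl | rfl
    · exact absurd hw (hirr _)
    · exact hw

theorem ac_pair (hirr : ∀ v, ¬ R v v) {b c : V} (h : ¬ (R b c ∧ R c b)) : Ac R {b, c} := by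
  by_contra hac
  obtain ⟨g, hg, hC, x, hx, y, hy, hne⟩ := exists_circ_of_not_ac hirr hac
  have hx' := hg hx
  have hy' := hg hy
  simp only [mem_insert, mem_singleton] at hx' hy'
  have hg' : g ⊆ {c, b} := by rw [pair_comm]; exact hg
  rcases hx' with rfl | rfl
  · rcases hy' with rfl | rfl
    · exact hne rfl
    · exact h ⟨rc_pair hirr hg (hC.link hx hy hne).rc hne, rc_pair hirr hg' (hC.link hy hx hne.symm).rc hne.symm⟩
  · rcases hy' with rfl | rfl
    · exact h ⟨rc_pair hirr hg (hC.link hy hx hne.symm).rc hne.symm, rc_pair hirr hg' (hC.link hx hy hne).rc hne⟩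
    · exact hne rfl

/-- two digons with a common end in `T` -/
theorem two_dig (hirr : ∀ v, ¬ R v v) (hN : ¬ Neck R) {A : Finset V} (hA : Ac R A) {a b c : V}
    (ha : a ∉ A) (hb : b ∉ A) (hc : c ∉ A) (hab : a ≠ b) (hac : a ≠ c)
    (d1 : R a b) (d2 : R b a) (d3 : R a c) (d4 : R c a) (nbc : ¬ (R b c ∧ R c b)) :
    Cov R (insert a (insert b (insert c A))) := by
  obtain ⟨X, hXA, hX, hmin⟩ := exists_incl_min A (fun X => Ac R (insert b (insert c (A \ X)))) (by
    simpa using ac_pair hirr nbc)
  refine ⟨insert b (insert c (A \ X)), insert a X, ?_, hX, ?_⟩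
  · intro x hx
    simp only [mem_union, mem_insert, mem_sdiff] at hx ⊢
    tauto
  by_contra hac'
  obtain ⟨W, hW, hWC, u, hu, v, hv, huv⟩ := exists_circ_of_not_ac hirr hac'
  have haW : a ∈ W := by
    by_contra h
    refine hWC.not_sub hu hv huv (hA.mono hXA) ?_
    intro x hx
    rcases mem_insert.mp (hW hx) with h1 | h1
    · exact absurd (h1 ▸ hx) h
    · exact h1
  obtain ⟨x, hxW, hxa⟩ : ∃ x ∈ W, x ≠ a := by
    by_cases h : u = a
    · exact ⟨v, hv, fun h' => huv (h.trans h'.symm)⟩
    · exact ⟨u, hu, h⟩
  have hxX : x ∈ X := by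
    rcases mem_insert.mp (hW hxW) with h1 | h1
    · exact absurd h1 hxa
    · exact h1
  obtain ⟨C, hC, hCC, u', hu', v', hv', huv'⟩ := exists_circ_of_not_ac hirr (hmin x hxX)
  have hxC : x ∈ C := by
    by_contra h
    refine hCC.not_sub hu' hv' huv' hX ?_
    intro y hy
    have h1 := hC hy
    simp only [mem_insert, mem_sdiff, mem_erase, not_and] at h1 ⊢
    rcases h1 with h1 | h1 | h1
    · exact Or.inl h1
    · exact Or.inr (Or.inl h1)
    · refine Or.inr (Or.inr ⟨h1.1, h1.2 ?_⟩)
      rintro rfl; exact h hy
  obtain ⟨j, hjC, hj⟩ : ∃ j ∈ C, j = b ∨ j = c := by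
    by_contra h
    push Not at h
    refine hCC.not_sub hu' hv' huv' hA ?_
    intro y hy
    have h1 := hC hy
    have h2 := h y hy
    simp only [mem_insert, mem_sdiff] at h1
    tauto
  have haj : a ≠ j := by rcases hj with rfl | rfl <;> assumption
  have hdig : R a j ∧ R j a := by rcases hj with rfl | rfl <;> exact ⟨by assumption, by assumption⟩
  have hjW : j ∉ W := by
    intro h
    rcases mem_insert.mp (hW h) with h1 | h1
    · exact haj h1.symm
    · rcases hj with rfl | rfl
      · exact hb (hXA h1)
      · exact hc (hXA h1)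
  have haC : a ∉ C := by
    intro h
    have h1 := hC h
    simp only [mem_insert, mem_sdiff] at h1
    tauto
  have hCW : ∀ y ∈ C, y ∈ W → y = x := by
    intro y hy hy'
    have h1 := hC hy
    have h2 := hW hy'
    simp only [mem_insert, mem_sdiff, mem_erase, not_and] at h1 h2
    by_contra hyx
    rcases h2 with h2 | h2
    · exact haC (h2 ▸ hy)
    rcases h1 with h1 | h1 | h1
    · exact hb (h1 ▸ hXA h2)
    · exact hc (h1 ▸ hXA h2)
    · exact h1.2 hyx h2
  have hxj : j ≠ x := by rintro rfl; exact hjW hxW
  refine hN (neck_three (link_digon haj hdig.1 hdig.2) (hCC.link hjC hxC hxj)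
    (hWC.link hxW haW hxa) ?_ hCW ?_)
  · intro y hy hy'
    simp only [mem_insert, mem_singleton] at hy
    rcases hy with hy | hy
    · exact absurd (hy ▸ hy') haC
    · exact hy
  · intro y hy hy'
    simp only [mem_insert, mem_singleton] at hy
    rcases hy with hy | hy
    · exact hy
    · exact absurd (hy ▸ hy') hjW

/-- one digon `ab` in `T`: half of the argument -/
theorem one_dig (hirr : ∀ v, ¬ R v v) (hN : ¬ Neck R) {A : Finset V} (hA : Ac R A) {a b c : V}
    (ha : a ∉ A) (hb : b ∉ A) (hc : c ∉ A) (hab : a ≠ b) (hac : a ≠ c) (hbc : b ≠ c)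
    (d1 : R a b) (d2 : R b a) (nac : ¬ (R a c ∧ R c a)) {X : Finset V} (hX : MT R A c X) :
    Cov R (insert a (insert b (insert c A))) ∨ ∃ w ∈ X, R b w ∧ R w b := by
  obtain ⟨Y, hYA, hY, hmin⟩ := exists_incl_min (A \ X) (fun Y => Ac R (insert a (insert c ((A \ X) \ Y)))) (by
    simpa using ac_pair hirr nac)
  by_cases hbl : Ac R (insert b (X ∪ Y))
  · left
    refine ⟨insert a (insert c ((A \ X) \ Y)), insert b (X ∪ Y), ?_, hY, hbl⟩
    intro x hx
    simp only [mem_union, mem_insert, mem_sdiff] at hx ⊢
    tauto
  right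
  have hXY : X ∪ Y ⊆ A := union_subset hX.sub (hYA.trans sdiff_subset)
  obtain ⟨W, hW, hWC, u, hu, v, hv, huv⟩ := exists_circ_of_not_ac hirr hbl
  have hbW : b ∈ W := by
    by_contra h
    refine hWC.not_sub hu hv huv (hA.mono hXY) ?_
    intro x hx
    rcases mem_insert.mp (hW hx) with h1 | h1
    · exact absurd (h1 ▸ hx) h
    · exact h1
  obtain ⟨x, hxW, hxb⟩ : ∃ x ∈ W, x ≠ b := by
    by_cases h : u = b
    · exact ⟨v, hv, fun h' => huv (h.trans h'.symm)⟩
    · exact ⟨u, hu, h⟩
  have haW : a ∉ W := by
    intro h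
    rcases mem_insert.mp (hW h) with h1 | h1
    · exact hab h1
    · exact ha (hXY h1)
  have hcW : c ∉ W := by
    intro h
    rcases mem_insert.mp (hW h) with h1 | h1
    · exact hbc h1.symm
    · exact hc (hXY h1)
  -- no element of `Y`
  have hWY : ∀ y ∈ W, y ∉ Y := by
    intro x hxW hxY
    obtain ⟨C, hC, hCC, u', hu', v', hv', huv'⟩ := exists_circ_of_not_ac hirr (hmin x hxY)
    have hxC : x ∈ C := by
      by_contra h
      refine hCC.not_sub hu' hv' huv' hY ?_
      intro y hy
      have h1 := hC hy
      simp only [mem_insert, mem_sdiff, mem_erase, not_and] at h1 ⊢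
      rcases h1 with h1 | h1 | h1
      · exact Or.inl h1
      · exact Or.inr (Or.inl h1)
      · refine Or.inr (Or.inr ⟨h1.1, h1.2 ?_⟩)
        rintro rfl; exact h hy
    have haC : a ∈ C := by
      by_contra h
      refine hCC.not_sub hu' hv' huv' (MT.ac hA hX.tr hirr hc) ?_
      intro y hy
      have h1 := hC hy
      simp only [mem_insert, mem_sdiff, mem_erase, not_and] at h1 ⊢
      rcases h1 with h1 | h1 | h1
      · exact absurd (h1 ▸ hy) h
      · exact Or.inl h1
      · exact Or.inr h1.1
    have hbC : b ∉ C := by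
      intro h
      have h1 := hC h
      simp only [mem_insert, mem_sdiff] at h1
      rcases h1 with h1 | h1 | h1
      · exact hab h1.symm
      · exact hbc h1
      · exact hb h1.1.1
    have hxA : x ∈ A := (mem_sdiff.mp (hYA hxY)).1
    have hxa : x ≠ a := by rintro rfl; exact ha hxA
    have hxb : x ≠ b := by rintro rfl; exact hb hxA
    have hCW : ∀ y ∈ C, y ∈ W → y = x := by
      intro y hy hy'
      have h1 := hC hy
      have h2 := hW hy'
      simp only [mem_insert, mem_sdiff, mem_erase, mem_union, not_and] at h1 h2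
      by_contra hyx
      rcases h1 with h1 | h1 | h1
      · exact haW (h1 ▸ hy')
      · exact hcW (h1 ▸ hy')
      · rcases h2 with h2 | h2 | h2
        · exact hbC (h2 ▸ hy)
        · exact h1.1.2 h2
        · exact h1.2 hyx h2
    refine hN (neck_three (link_digon hab d1 d2).symm (hCC.link haC hxC hxa.symm)
      (hWC.link hxW hbW hxb) ?_ hCW ?_)
    · intro y hy hy'
      simp only [mem_insert, mem_singleton] at hy
      rcases hy with hy | hy
      · exact hy
      · exact absurd (hy ▸ hy') hbC
    · intro y hy hy'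
      simp only [mem_insert, mem_singleton] at hy
      rcases hy with hy | hy
      · exact absurd (hy ▸ hy') haW
      · exact hy
  have hWX : ∀ y ∈ W, y = b ∨ y ∈ X := by
    intro y hy
    have h1 := hW hy
    simp only [mem_insert, mem_union] at h1
    rcases h1 with h1 | h1 | h1
    · exact Or.inl h1
    · exact Or.inr h1
    · exact absurd h1 (hWY y hy)
  have hxX : x ∈ X := (hWX x hxW).resolve_left hxb
  have hWe : W ⊆ {b, x} := by
    intro y hy
    simp only [mem_insert, mem_singleton]
    rcases hWX y hy with h1 | h1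
    · exact Or.inl h1
    right
    refine hX.meet hN hA hc hWC hcW ?_ h1 hxX hy hxW
    intro z hz hzA
    rcases hWX z hz with h2 | h2
    · exact absurd (h2 ▸ hzA) hb
    · exact h2
  refine ⟨x, hxX, ?_, ?_⟩
  · exact rc_pair hirr hWe (hWC.link hbW hxW hxb.symm).rc hxb.symm
  · exact rc_pair hirr (by rw [pair_comm]; exact hWe) (hWC.link hxW hbW hxb).rc hxb

/-- one digon `ab` in `T` -/
theorem one_dig' (hirr : ∀ v, ¬ R v v) (hN : ¬ Neck R) {A : Finset V} (hA : Ac R A) {a b c : V}
    (ha : a ∉ A) (hb : b ∉ A) (hc : c ∉ A) (hab : a ≠ b) (hac : a ≠ c) (hbc : b ≠ c)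
    (d1 : R a b) (d2 : R b a) (nac : ¬ (R a c ∧ R c a)) (nbc : ¬ (R b c ∧ R c b)) :
    Cov R (insert a (insert b (insert c A))) := by
  obtain ⟨X, hX⟩ := exists_MT (R := R) A c
  rcases one_dig hirr hN hA ha hb hc hab hac hbc d1 d2 nac hX with h | ⟨w, hw, e1, e2⟩
  · exact h
  rcases one_dig hirr hN hA hb ha hc hab.symm hbc hac d2 d1 nbc hX with h | ⟨w', hw', e3, e4⟩
  · rw [Finset.insert_comm]; exact h
  exfalso
  have hwA := hX.sub hw
  have hwA' := hX.sub hw'
  have hwa : w ≠ a := by rintro rfl; exact ha hwA
  have hwb : w ≠ b := by rintro rfl; exact hb hwA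
  have hwc : w ≠ c := by rintro rfl; exact hc hwA
  have hwa' : w' ≠ a := by rintro rfl; exact ha hwA'
  have hwb' : w' ≠ b := by rintro rfl; exact hb hwA'
  have hwc' : w' ≠ c := by rintro rfl; exact hc hwA'
  by_cases hww : w = w'
  · subst hww
    refine hN (neck_three (link_digon hab d1 d2) (link_digon hwb.symm e1 e2) (link_digon hwa e4 e3) ?_ ?_ ?_)
    · intro x hx hx'
      simp only [mem_insert, mem_singleton] at hx hx'
      rcases hx with rfl | rfl
      · rcases hx' with h | h
        · exact absurd h hab
        · exact absurd h hwa.symm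
      · rfl
    · intro x hx hx'
      simp only [mem_insert, mem_singleton] at hx hx'
      rcases hx with rfl | rfl
      · rcases hx' with h | h
        · exact h
        · exact absurd h.symm hab
      · rfl
    · intro x hx hx'
      simp only [mem_insert, mem_singleton] at hx hx'
      rcases hx with rfl | rfl
      · rfl
      · rcases hx' with h | h
        · exact absurd h.symm hwb
        · exact h
  · obtain ⟨E, E', hE, hE', hEs, hEs', hEE⟩ := hX.link2 hA hc hw hw' hww
    have ke : ∀ x ∈ E, x ≠ a ∧ x ≠ b ∧ x ≠ w' := by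
      intro x hx
      have h1 := hEs hx
      simp only [mem_insert, mem_sdiff] at h1
      rcases h1 with rfl | rfl | h1
      · exact ⟨hac.symm, hbc.symm, hwc'.symm⟩
      · exact ⟨hwa, hwb, hww⟩
      · refine ⟨?_, ?_, ?_⟩
        · rintro rfl; exact ha h1.1
        · rintro rfl; exact hb h1.1
        · rintro rfl; exact h1.2 hw'
    have ke' : ∀ x ∈ E', x ≠ a ∧ x ≠ b ∧ x ≠ w := by
      intro x hx
      have h1 := hEs' hx
      simp only [mem_insert, mem_sdiff] at h1
      rcases h1 with rfl | rfl | h1
      · exact ⟨hac.symm, hbc.symm, hwc.symm⟩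
      · exact ⟨hwa', hwb', Ne.symm hww⟩
      · refine ⟨?_, ?_, ?_⟩
        · rintro rfl; exact ha h1.1
        · rintro rfl; exact hb h1.1
        · rintro rfl; exact h1.2 hw
    refine hN ⟨4, a, w', _, {w', a}, by omega, Ch.cons (link_digon hab d1 d2)
      (Ch.cons (link_digon hwb.symm e1 e2) (Ch.cons hE (Ch.cons hE'.symm (Ch.nil w') ?_) ?_) ?_) ?_,
      link_digon hwa' e4 e3, ?_⟩
    · intro x _ hx; simpa using hx
    · intro x hx hx'
      rcases mem_union.mp hx' with h | h
      · exact hEE x hx h
      · exact absurd (mem_singleton.mp h) (ke x hx).2.2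
    · intro x hx hx'
      simp only [mem_insert, mem_singleton, mem_union] at hx hx'
      rcases hx with rfl | rfl
      · rcases hx' with h | h | h
        · exact absurd rfl (ke _ h).2.1
        · exact absurd rfl (ke' _ h).2.1
        · exact absurd h hwb'.symm
      · rfl
    · intro x hx hx'
      simp only [mem_insert, mem_singleton, mem_union] at hx hx'
      rcases hx with rfl | rfl
      · rcases hx' with (h | h) | h | h | h
        · exact absurd h hab
        · exact absurd h hwa.symm
        · exact absurd rfl (ke _ h).1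
        · exact absurd rfl (ke' _ h).1
        · exact absurd h hwa'.symm
      · rfl
    · intro x hx hx'
      simp only [mem_insert, mem_singleton, mem_union] at hx hx'
      rcases hx' with rfl | rfl
      · exact Or.inr rfl
      · exact Or.inl rfl

theorem Cov.mono {U U' : Finset V} (h : Cov R U') (hU : U ⊆ U') : Cov R U := by
  obtain ⟨B, C, h1, h2, h3⟩ := h
  exact ⟨B, C, hU.trans h1, h2, h3⟩

/-- a directed triangle -/
theorem link_tri {a b c : V} (hab : a ≠ b) (h1 : R a b) (h2 : R b c) (h3 : R c a) :
    Link R {a, b, c} a b :=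
  ⟨hab, {a, b}, {a, b, c}, Rc.step h1 (by simp) (by simp),
    (Rc.step h2 (by simp) (by simp)).tail h3 (by simp), by intro x hx _; simpa using hx,
    by intro x hx; simp only [mem_insert, mem_singleton] at hx ⊢; tauto, Subset.refl _⟩

theorem tri_one (hN : ¬ Neck R) {A : Finset V} (hA : Ac R A) {a j k : V}
    (ha : a ∉ A) (hj : j ∉ A) (hk : k ∉ A) (haj : a ≠ j)
    (hZ : Link R {a, j, k} a j) {X : Finset V} (hX : MT R A a X) {x : V} (hx : x ∈ X)
    (e1 : R x j) (e2 : R j x) : False := by
  obtain ⟨E, hE, hEs⟩ := MT.link hA ha hX hx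
  have hxA := hX.sub hx
  have hxa : x ≠ a := by rintro rfl; exact ha hxA
  have hxj : x ≠ j := by rintro rfl; exact hj hxA
  have hxk : x ≠ k := by rintro rfl; exact hk hxA
  refine hN (neck_three hE hZ (link_digon hxj.symm e2 e1) ?_ ?_ ?_)
  · intro y hy hy'
    have h1 := hEs hy
    simp only [mem_insert, mem_sdiff, mem_singleton] at h1 hy'
    rcases hy' with rfl | rfl | rfl
    · rfl
    · rcases h1 with h | h | h
      · exact h
      · exact absurd h.symm hxj
      · exact absurd h.1 hj
    · rcases h1 with h | h | h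
      · exact h
      · exact absurd h.symm hxk
      · exact absurd h.1 hk
  · intro y hy hy'
    simp only [mem_insert, mem_singleton] at hy hy'
    rcases hy' with rfl | rfl
    · rfl
    · rcases hy with h | h | h
      · exact absurd h hxa
      · exact h
      · exact absurd h hxk
  · intro y hy hy'
    have h1 := hEs hy
    simp only [mem_insert, mem_sdiff, mem_singleton] at h1 hy'
    rcases hy' with rfl | rfl
    · rcases h1 with h | h | h
      · exact absurd h haj.symm
      · exact h
      · exact absurd h.1 hj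
    · rfl

theorem tri_half (hirr : ∀ v, ¬ R v v) (hN : ¬ Neck R) {A : Finset V} (hA : Ac R A) {a b c : V}
    (ha : a ∉ A) (hb : b ∉ A) (hc : c ∉ A) (hab : a ≠ b) (hac : a ≠ c) (hbc : b ≠ c)
    (rab : R a b) (rbc : R b c) (rca : R c a) (ncb : ¬ R c b) {X : Finset V} (hX : MT R A a X) :
    Cov R (insert a (insert b (insert c A))) ∨ ∃ x ∈ X, R c x ∧ R x b := by
  by_cases hbl : Ac R (insert b (insert c X))
  · left
    refine ⟨insert a (A \ X), insert b (insert c X), ?_, MT.ac hA hX.tr hirr ha, hbl⟩
    intro x hx
    simp only [mem_union, mem_insert, mem_sdiff] at hx ⊢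
    tauto
  right
  obtain ⟨W, hW, hWC, u, hu, v, hv, huv⟩ := exists_circ_of_not_ac hirr hbl
  obtain ⟨x, hxW, hxX⟩ : ∃ x ∈ W, x ∈ X := by
    by_contra h
    push Not at h
    refine hWC.not_sub hu hv huv (ac_pair (b := b) (c := c) hirr (fun h' => ncb h'.2)) ?_
    intro y hy
    have h1 := hW hy
    have h2 := h y hy
    simp only [mem_insert, mem_singleton] at h1 ⊢
    tauto
  have haW : a ∉ W := by
    intro h
    have h1 := hW h
    simp only [mem_insert] at h1
    rcases h1 with h1 | h1 | h1
    · exact hab h1
    · exact hac h1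
    · exact ha (hX.sub h1)
  have hxA := hX.sub hxX
  have hxa : x ≠ a := by rintro rfl; exact ha hxA
  have hxb : x ≠ b := by rintro rfl; exact hb hxA
  have hxc : x ≠ c := by rintro rfl; exact hc hxA
  have hWe : ∀ y ∈ W, y = b ∨ y = c ∨ y = x := by
    intro y hy
    have h1 := hW hy
    simp only [mem_insert] at h1
    rcases h1 with h1 | h1 | h1
    · exact Or.inl h1
    · exact Or.inr (Or.inl h1)
    · refine Or.inr (Or.inr (hX.meet hN hA ha hWC haW ?_ h1 hxX hy hxW))
      intro z hz hzA
      have h2 := hW hz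
      simp only [mem_insert] at h2
      rcases h2 with h2 | h2 | h2
      · exact absurd (h2 ▸ hzA) hb
      · exact absurd (h2 ▸ hzA) hc
      · exact h2
  have hZ1 : Link R {a, b, c} a b := link_tri hab rab rbc rca
  have hZ2 : Link R {a, c, b} a c := by
    have := (link_tri (R := R) hac.symm rca rab rbc).symm
    refine this.mono ?_
    intro x hx
    simp only [mem_insert, mem_singleton] at hx ⊢
    tauto
  have hbW : b ∈ W := by
    by_contra h
    have hWs : W ⊆ {c, x} := by
      intro y hy
      simp only [mem_insert, mem_singleton]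
      rcases hWe y hy with h1 | h1
      · exact absurd (h1 ▸ hy) h
      · exact h1
    have hcW : c ∈ W := by
      by_contra h'
      have : ∀ y ∈ W, y = x := by
        intro y hy
        have := hWs hy
        simp only [mem_insert, mem_singleton] at this
        rcases this with h1 | h1
        · exact absurd (h1 ▸ hy) h'
        · exact h1
      exact huv ((this u hu).trans (this v hv).symm)
    exact tri_one hN hA ha hc hb hac hZ2 hX hxX
      (rc_pair hirr (by rw [pair_comm]; exact hWs) (hWC.link hxW hcW hxc).rc hxc)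
      (rc_pair hirr hWs (hWC.link hcW hxW hxc.symm).rc hxc.symm)
  have hcW : c ∈ W := by
    by_contra h
    have hWs : W ⊆ {b, x} := by
      intro y hy
      simp only [mem_insert, mem_singleton]
      rcases hWe y hy with h1 | h1 | h1
      · exact Or.inl h1
      · exact absurd (h1 ▸ hy) h
      · exact Or.inr h1
    exact tri_one hN hA ha hb hc hab hZ1 hX hxX
      (rc_pair hirr (by rw [pair_comm]; exact hWs) (hWC.link hxW hbW hxb).rc hxb)
      (rc_pair hirr hWs (hWC.link hbW hxW hxb.symm).rc hxb.symm)
  have hr : Rc R W c b := (hWC.link hcW hbW hbc.symm).rc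
  refine ⟨x, hxX, ?_, ?_⟩
  · rcases hr.cases_head with h | ⟨w, hw, h⟩
    · exact absurd h hbc.symm
    · rcases hWe w h.left with rfl | rfl | rfl
      · exact absurd hw ncb
      · exact absurd hw (hirr _)
      · exact hw
  · rcases hr.cases_tail with h | ⟨w, h, hw⟩
    · exact absurd h hbc.symm
    · rcases hWe w h.right with rfl | rfl | rfl
      · exact absurd hw (hirr _)
      · exact absurd hw ncb
      · exact hw

theorem tri (hirr : ∀ v, ¬ R v v) (hN : ¬ Neck R) {A : Finset V} (hA : Ac R A) {a b c : V}
    (ha : a ∉ A) (hb : b ∉ A) (hc : c ∉ A) (hab : a ≠ b) (hac : a ≠ c) (hbc : b ≠ c)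
    (rab : R a b) (rbc : R b c) (rca : R c a) (nba : ¬ R b a) (ncb : ¬ R c b) (nac : ¬ R a c) :
    Cov R (insert a (insert b (insert c A))) := by
  obtain ⟨X1, hX1⟩ := exists_MT (R := R) A a
  obtain ⟨X2, hX2⟩ := exists_MT (R := R) A b
  obtain ⟨X3, hX3⟩ := exists_MT (R := R) A c
  rcases tri_half hirr hN hA ha hb hc hab hac hbc rab rbc rca ncb hX1 with h | ⟨x1, hx1, e1, f1⟩
  · exact h
  rcases tri_half hirr hN hA hb hc ha hbc hab.symm hac.symm rbc rca rab nac hX2 with h | ⟨x2, hx2, e2, f2⟩
  · refine h.mono ?_
    intro x hx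
    simp only [mem_insert] at hx ⊢
    tauto
  rcases tri_half hirr hN hA hc ha hb hac.symm hbc.symm hab rca rab rbc nba hX3 with h | ⟨x3, hx3, e3, f3⟩
  · refine h.mono ?_
    intro x hx
    simp only [mem_insert] at hx ⊢
    tauto
  exfalso
  have key : ∀ x ∈ A, x ≠ a ∧ x ≠ b ∧ x ≠ c := by
    intro x hx
    refine ⟨?_, ?_, ?_⟩
    · rintro rfl; exact ha hx
    · rintro rfl; exact hb hx
    · rintro rfl; exact hc hx
  have k1 := key x1 (hX1.sub hx1)
  have k2 := key x2 (hX2.sub hx2)
  have k3 := key x3 (hX3.sub hx3)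
  have Z (a b c : V) (hab : a ≠ b) (hac : a ≠ c) (rab : R a b) (rbc : R b c) (rca : R c a) :
      Link R {a, b, c} a b ∧ Link R {a, c, b} a c := by
    refine ⟨link_tri hab rab rbc rca, ?_⟩
    refine (link_tri (R := R) hac.symm rca rab rbc).symm.mono ?_
    intro x hx
    simp only [mem_insert, mem_singleton] at hx ⊢
    tauto
  -- `x1 = x2` : digon `c x1`
  have n12 : x1 ≠ x2 := by
    rintro rfl
    exact tri_one hN hA ha hc hb hac (Z a b c hab hac rab rbc rca).2 hX1 hx1 f2 e1
  have n23 : x2 ≠ x3 := by
    rintro rfl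
    exact tri_one hN hA hb ha hc hab.symm (Z b c a hbc hab.symm rbc rca rab).2 hX2 hx2 f3 e2
  have n31 : x3 ≠ x1 := by
    rintro rfl
    exact tri_one hN hA ha hb hc hab (Z a b c hab hac rab rbc rca).1 hX1 hx1 f1 e3
  -- joints `b`, `c`, `a`
  refine hN (neck_three (a := b) (m := c) (t := a) (Z b c x1 hbc k1.2.1.symm rbc e1 f1).1
    (Z c a x2 hac.symm k2.2.2.symm rca e2 f2).1 (Z a b x3 hab k3.1.symm rab e3 f3).1 ?_ ?_ ?_)
  · intro x hx hx'
    simp only [mem_insert, mem_singleton] at hx hx'
    rcases hx with rfl | rfl | rfl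
    · rcases hx' with h | h | h
      · exact h
      · exact absurd h hab.symm
      · exact absurd h.symm k2.2.1
    · rfl
    · rcases hx' with h | h | h
      · exact h
      · exact absurd h k1.1
      · exact absurd h n12
  · intro x hx hx'
    simp only [mem_insert, mem_singleton] at hx hx'
    rcases hx with rfl | rfl | rfl
    · rcases hx' with h | h | h
      · exact h
      · exact absurd h hbc.symm
      · exact absurd h.symm k3.2.2
    · rfl
    · rcases hx' with h | h | h
      · exact h
      · exact absurd h k2.2.1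
      · exact absurd h n23
  · intro x hx hx'
    simp only [mem_insert, mem_singleton] at hx hx'
    rcases hx with rfl | rfl | rfl
    · rfl
    · rcases hx' with h | h | h
      · exact absurd h hac.symm
      · exact h
      · exact absurd h.symm k3.2.2
    · rcases hx' with h | h | h
      · exact absurd h k1.1
      · exact h
      · exact absurd h.symm n31

theorem three_dig (hN : ¬ Neck R) {a b c : V} (hab : a ≠ b) (hac : a ≠ c) (hbc : b ≠ c)
    (d1 : R a b) (d2 : R b a) (d3 : R b c) (d4 : R c b) (d5 : R a c) (d6 : R c a) : False := by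
  refine hN (neck_three (link_digon hab d1 d2) (link_digon hbc d3 d4) (link_digon hac.symm d6 d5) ?_ ?_ ?_)
  all_goals
    intro x hx hx'
    simp only [mem_insert, mem_singleton] at hx hx'
    rcases hx with rfl | rfl <;> first | rfl | skip
  · rcases hx' with h | h
    · exact absurd h hab
    · exact absurd h hac
  · rcases hx' with h | h
    · exact h
    · exact absurd h.symm hab
  · rcases hx' with h | h
    · exact absurd h hbc
    · exact h

theorem fvs3 (hirr : ∀ v, ¬ R v v) (hN : ¬ Neck R) {A : Finset V} (hA : Ac R A) {a b c : V}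
    (ha : a ∉ A) (hb : b ∉ A) (hc : c ∉ A) (hab : a ≠ b) (hac : a ≠ c) (hbc : b ≠ c) :
    Cov R (insert a (insert b (insert c A))) := by
  by_cases dab : R a b ∧ R b a
  · by_cases dac : R a c ∧ R c a
    · by_cases dbc : R b c ∧ R c b
      · exact (three_dig hN hab hac hbc dab.1 dab.2 dbc.1 dbc.2 dac.1 dac.2).elim
      · exact two_dig hirr hN hA ha hb hc hab hac dab.1 dab.2 dac.1 dac.2 dbc
    · by_cases dbc : R b c ∧ R c b
      · refine (two_dig hirr hN hA hb ha hc hab.symm hbc dab.2 dab.1 dbc.1 dbc.2 dac).mono ?_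
        intro x hx
        simp only [mem_insert] at hx ⊢
        tauto
      · exact one_dig' hirr hN hA ha hb hc hab hac hbc dab.1 dab.2 dac dbc
  · by_cases dac : R a c ∧ R c a
    · by_cases dbc : R b c ∧ R c b
      · refine (two_dig hirr hN hA hc ha hb hac.symm hbc.symm dac.2 dac.1 dbc.2 dbc.1 dab).mono ?_
        intro x hx
        simp only [mem_insert] at hx ⊢
        tauto
      · refine (one_dig' hirr hN hA ha hc hb hac hab hbc.symm dac.1 dac.2 dab (fun h => dbc h.symm)).mono ?_
        intro x hx
        simp only [mem_insert] at hx ⊢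
        tauto
    · by_cases dbc : R b c ∧ R c b
      · refine (one_dig' hirr hN hA hb hc ha hbc hab.symm hac.symm dbc.1 dbc.2 (fun h => dab h.symm)
          (fun h => dac h.symm)).mono ?_
        intro x hx
        simp only [mem_insert] at hx ⊢
        tauto
      · by_cases hT : Ac R {a, b, c}
        · refine ⟨{a, b, c}, A, ?_, hT, hA⟩
          intro x hx
          simp only [mem_insert, mem_union, mem_singleton] at hx ⊢
          tauto
        · obtain ⟨W, hW, hWC, u, hu, v, hv, huv⟩ := exists_circ_of_not_ac hirr hT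
          have haW : a ∈ W := by
            by_contra h
            refine hWC.not_sub hu hv huv (ac_pair hirr dbc) ?_
            intro y hy
            have := hW hy
            simp only [mem_insert, mem_singleton] at this ⊢
            rcases this with h1 | h1
            · exact absurd (h1 ▸ hy) h
            · exact h1
          have hbW : b ∈ W := by
            by_contra h
            refine hWC.not_sub hu hv huv (ac_pair hirr dac) ?_
            intro y hy
            have := hW hy
            simp only [mem_insert, mem_singleton] at this ⊢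
            rcases this with h1 | h1 | h1
            · exact Or.inl h1
            · exact absurd (h1 ▸ hy) h
            · exact Or.inr h1
          have hcW : c ∈ W := by
            by_contra h
            refine hWC.not_sub hu hv huv (ac_pair hirr dab) ?_
            intro y hy
            have := hW hy
            simp only [mem_insert, mem_singleton] at this ⊢
            rcases this with h1 | h1 | h1
            · exact Or.inl h1
            · exact Or.inr h1
            · exact absurd (h1 ▸ hy) h
          have out : ∀ x ∈ W, ∀ y ∈ W, x ≠ y → ∃ w ∈ W, R x w := by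
            intro x hx y hy hne
            rcases (hWC.link hx hy hne).rc.cases_head with h | ⟨w, hw, h⟩
            · exact absurd h hne
            · exact ⟨w, h.left, hw⟩
          have o1 : R a b ∨ R a c := by
            obtain ⟨w, hw, h⟩ := out a haW b hbW hab
            have := hW hw
            simp only [mem_insert, mem_singleton] at this
            rcases this with rfl | rfl | rfl
            · exact absurd h (hirr _)
            · exact Or.inl h
            · exact Or.inr h
          have o2 : R b a ∨ R b c := by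
            obtain ⟨w, hw, h⟩ := out b hbW a haW hab.symm
            have := hW hw
            simp only [mem_insert, mem_singleton] at this
            rcases this with rfl | rfl | rfl
            · exact Or.inl h
            · exact absurd h (hirr _)
            · exact Or.inr h
          have o3 : R c a ∨ R c b := by
            obtain ⟨w, hw, h⟩ := out c hcW a haW hac.symm
            have := hW hw
            simp only [mem_insert, mem_singleton] at this
            rcases this with rfl | rfl | rfl
            · exact Or.inl h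
            · exact Or.inr h
            · exact absurd h (hirr _)
          rcases o1 with h1 | h1
          · have n1 : ¬ R b a := fun h => dab ⟨h1, h⟩
            have h2 : R b c := o2.resolve_left n1
            have n2 : ¬ R c b := fun h => dbc ⟨h2, h⟩
            have h3 : R c a := o3.resolve_right n2
            exact tri hirr hN hA ha hb hc hab hac hbc h1 h2 h3 n1 n2 (fun h => dac ⟨h, h3⟩)
          · have n1 : ¬ R c a := fun h => dac ⟨h1, h⟩
            have h2 : R c b := o3.resolve_left n1
            have n2 : ¬ R b c := fun h => dbc ⟨h, h2⟩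
            have h3 : R b a := o2.resolve_right n2
            refine (tri hirr hN hA ha hc hb hac hab hbc.symm h1 h2 h3 n1 n2 (fun h => dab ⟨h, h3⟩)).mono ?_
            intro x hx
            simp only [mem_insert] at hx ⊢
            tauto

end fvs

end Pool.Agent.Lib.NK
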