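import Mathlib
import Pool.Agent.Lib.NK.Fvs

set_option autoImplicit false

/-! Necklaces through a given vertex, and lifting of necklaces along new arcs into one vertex
(MP_c62493_co, reduction to strongly 2-connected digraphs). -/

namespace Pool.Agent.Lib.NK

open Finset
open scoped Classical

section mono
variable {V : Type*} {R R' : V → V → Prop}

theorem Rc.change {S T : Finset V} {u v : V} (h : Rc R S u v) (hST : S ⊆ T)
    (hR : ∀ a ∈ S, ∀ b ∈ S, R a b → R' a b) : Rc R' T u v := by
  refine Rc.induct (p := fun v => Rc R' T u v) (fun hu => Rc.rfl' (hST hu)) ?_ h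
  intro a b hua ih hab hb
  exact ih.tail (hR a hua.right b hb hab) (hST hb)

theorem Rc.monoR {S : Finset V} {u v : V} (h : Rc R S u v) (hR : ∀ a b, R a b → R' a b) :
    Rc R' S u v := h.change (Subset.refl _) (fun a _ b _ => hR a b)

theorem Link.monoR {S : Finset V} {u v : V} (h : Link R S u v) (hR : ∀ a b, R a b → R' a b) :
    Link R' S u v := by
  obtain ⟨h0, S1, S2, h1, h2, h3, h4, h5⟩ := h
  exact ⟨h0, S1, S2, h1.monoR hR, h2.monoR hR, h3, h4, h5⟩

theorem Link.change {S : Finset V} {u v : V} (h : Link R S u v)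
    (hR : ∀ a ∈ S, ∀ b ∈ S, R a b → R' a b) : Link R' S u v := by
  obtain ⟨h0, S1, S2, h1, h2, h3, h4, h5⟩ := h
  exact ⟨h0, S1, S2, h1.change (Subset.refl _) (fun a ha b hb => hR a (h4 ha) b (h4 hb)),
    h2.change (Subset.refl _) (fun a ha b hb => hR a (h5 ha) b (h5 hb)), h3, h4, h5⟩

theorem Ch.change {r : ℕ} {a t : V} {S : Finset V} (h : Ch R r a t S) :
    (∀ a ∈ S, ∀ b ∈ S, R a b → R' a b) → Ch R' r a t S := by
  induction h with
  | nil a => intro _; exact Ch.nil a
  | cons h1 h2 h3 ih =>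
    intro hR
    refine Ch.cons (h1.change (fun a ha b hb => hR a (mem_union_left _ ha) b (mem_union_left _ hb)))
      (ih (fun a ha b hb => hR a (mem_union_right _ ha) b (mem_union_right _ hb))) h3

theorem Neck.monoR (h : Neck R) (hR : ∀ a b, R a b → R' a b) : Neck R' := by
  obtain ⟨r, a, t, S, T, hr, h1, h2, h3⟩ := h
  exact ⟨r, a, t, S, T, hr, h1.change (fun a _ b _ => hR a b), h2.monoR hR, h3⟩

/-- the reversed relation -/
def Rv (R : V → V → Prop) : V → V → Prop := fun a b => R b a

theorem Rc.rv {S : Finset V} {u v : V} (h : Rc R S u v) : Rc (Rv R) S v u := by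
  refine Rc.induct (p := fun v => Rc (Rv R) S v u) (fun hu => Rc.rfl' hu) ?_ h
  intro a b hua ih hab hb
  exact Rc.head hab hb ih

theorem Link.rv {S : Finset V} {u v : V} (h : Link R S u v) : Link (Rv R) S u v := by
  obtain ⟨h0, S1, S2, h1, h2, h3, h4, h5⟩ := h
  exact ⟨h0, S2, S1, h2.rv, h1.rv, fun x hx hx' => h3 x hx' hx, h5, h4⟩

theorem Ch.rv {r : ℕ} {a t : V} {S : Finset V} (h : Ch R r a t S) : Ch (Rv R) r a t S := by
  induction h with
  | nil a => exact Ch.nil a
  | cons h1 h2 h3 ih => exact Ch.cons h1.rv ih h3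

theorem Neck.rv (h : Neck R) : Neck (Rv R) := by
  obtain ⟨r, a, t, S, T, hr, h1, h2, h3⟩ := h
  exact ⟨r, a, t, S, T, hr, h1.rv, h2.rv, h3⟩

theorem Ac.rv {S : Finset V} (h : Ac R S) : Ac (Rv R) S := by
  intro u v huv hu hr
  have h1 : Rc R S u v := by
    have := hr.rv
    exact this.monoR (fun a b hab => hab)
  exact h v u huv h1.right h1

end mono

section ring
variable {V : Type*} {R : V → V → Prop}

theorem Ch.append {r s : ℕ} {a m t : V} {S T : Finset V} (h : Ch R r a m S) (h' : Ch R s m t T)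
    (hd : ∀ x ∈ S, x ∈ T → x = m) : Ch R (r + s) a t (S ∪ T) := by
  induction h with
  | nil a =>
    have : ({a} : Finset V) ∪ T = T := by
      rw [union_eq_right, singleton_subset_iff]; exact h'.left
    rw [this, zero_add]; exact h'
  | @cons r a n m E S h1 h2 h3 ih =>
    have h4 := ih h' (fun x hx hx' => hd x (mem_union_right _ hx) hx')
    have e : r + 1 + s = r + s + 1 := by omega
    rw [e, union_assoc]
    refine Ch.cons h1 h4 ?_
    intro x hx hx'
    rcases mem_union.mp hx' with hx' | hx'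
    · exact h3 x hx hx'
    · have : x = m := hd x (mem_union_left _ hx) hx'
      subst this
      exact h3 x hx h2.right

theorem Ch.snoc {r : ℕ} {a m t : V} {S E : Finset V} (h : Ch R r a m S) (h' : Link R E m t)
    (hd : ∀ x ∈ S, x ∈ E → x = m) : Ch R (r + 1) a t (S ∪ E) := by
  have h1 : Ch R 1 m t (E ∪ {t}) := Ch.cons h' (Ch.nil t) (by intro x _ hx; simpa using hx)
  have h2 : E ∪ {t} = E := by
    rw [union_eq_left, singleton_subset_iff]; exact h'.right
  rw [h2] at h1
  exact h.append h1 hd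

theorem Ch.symm {r : ℕ} {a t : V} {S : Finset V} (h : Ch R r a t S) : Ch R r t a S := by
  induction h with
  | nil a => exact Ch.nil a
  | @cons r a m t E S h1 h2 h3 ih =>
    rw [union_comm]
    exact ih.snoc h1.symm (fun x hx hx' => h3 x hx' hx)

/-- decomposition of a chain at a vertex -/
theorem Ch.at {r : ℕ} {a t : V} {S : Finset V} (h : Ch R r a t S) (hr : 1 ≤ r) {z : V} (hz : z ∈ S) :
    ∃ r1 r2 a1 a2 S1 E S2, Ch R r1 a a1 S1 ∧ Link R E a1 a2 ∧ Ch R r2 a2 t S2 ∧ z ∈ E ∧
      r = r1 + 1 + r2 ∧ S = S1 ∪ (E ∪ S2) ∧ (∀ x ∈ S1, x ∈ E ∪ S2 → x = a1) ∧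
      (∀ x ∈ E, x ∈ S2 → x = a2) := by
  induction h with
  | nil a => omega
  | @cons r a m t E S h1 h2 h3 ih =>
    by_cases hzE : z ∈ E
    · refine ⟨0, r, a, m, {a}, E, S, Ch.nil a, h1, h2, hzE, by omega, ?_, ?_, h3⟩
      · symm
        rw [union_eq_right, singleton_subset_iff]; exact mem_union_left _ h1.left
      · intro x hx _; simpa using hx
    · have hzS : z ∈ S := (mem_union.mp hz).resolve_left hzE
      by_cases hr0 : r = 0
      · subst hr0
        cases h2
        rw [mem_singleton] at hzS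
        subst hzS
        exact absurd h1.right hzE
      obtain ⟨r1, r2, a1, a2, S1, E', S2, g1, g2, g3, g4, g5, g6, g7, g8⟩ := ih (by omega) hzS
      refine ⟨r1 + 1, r2, a1, a2, E ∪ S1, E', S2, ?_, g2, g3, g4, by omega, ?_, ?_, g8⟩
      · exact Ch.cons h1 g1 (fun x hx hx' => h3 x hx (by rw [g6]; exact mem_union_left _ hx'))
      · rw [g6, union_assoc]
      · intro x hx hx'
        rcases mem_union.mp hx with hx | hx
        · have h4 : x = m := h3 x hx (by rw [g6]; exact mem_union_right _ hx')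
          subst h4
          exact g7 x g1.left hx'
        · exact g7 x hx hx'

/-- a closed chain with at least three links -/
def Ring (R : V → V → Prop) (a t : V) (S T : Finset V) : Prop :=
  ∃ r, 2 ≤ r ∧ Ch R r a t S ∧ Link R T t a ∧ ∀ x ∈ S, x ∈ T → x = a ∨ x = t

theorem Ring.neck {a t : V} {S T : Finset V} (h : Ring R a t S T) : Neck R := by
  obtain ⟨r, h1, h2, h3, h4⟩ := h
  exact ⟨r, a, t, S, T, h1, h2, h3, h4⟩

theorem Ring.symm {a t : V} {S T : Finset V} (h : Ring R a t S T) : Ring R t a S T := by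
  obtain ⟨r, h1, h2, h3, h4⟩ := h
  exact ⟨r, h1, h2.symm, h3.symm, fun x hx hx' => (h4 x hx hx').symm⟩

/-- rotate a ring so that a given vertex lies in the closing link -/
theorem Ring.at {a t : V} {S T : Finset V} (h : Ring R a t S T) {z : V} (hz : z ∈ S ∪ T) :
    ∃ a' t' S' T', Ring R a' t' S' T' ∧ z ∈ T' ∧ S' ∪ T' = S ∪ T := by
  by_cases hzT : z ∈ T
  · exact ⟨a, t, S, T, h, hzT, rfl⟩
  obtain ⟨r, h1, h2, h3, h4⟩ := h
  have hzS : z ∈ S := (mem_union.mp hz).resolve_right hzT
  obtain ⟨r1, r2, a1, a2, S1, E, S2, g1, g2, g3, g4, g5, g6, g7, g8⟩ := h2.at (by omega) hzS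
  subst g6
  have c1 : Ch R (1 + r1) t a1 (T ∪ S1) := by
    have h5 : Ch R 1 t a (T ∪ {a}) := Ch.cons h3 (Ch.nil a) (by intro x _ hx; simpa using hx)
    have h6 : T ∪ {a} = T := by
      rw [union_eq_left, singleton_subset_iff]; exact h3.right
    rw [h6] at h5
    refine h5.append g1 ?_
    intro x hx hx'
    rcases h4 x (mem_union_left _ hx') hx with h7 | h7
    · exact h7
    · subst h7
      have h8 : x = a1 := g7 x hx' (mem_union_right _ g3.right)
      subst h8
      exact absurd (g8 x g2.left g3.right) g2.ne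
  have c2 : Ch R (r2 + (1 + r1)) a2 a1 (S2 ∪ (T ∪ S1)) := by
    refine g3.append c1 ?_
    intro x hx hx'
    rcases mem_union.mp hx' with hx' | hx'
    · rcases h4 x (mem_union_right _ (mem_union_right _ hx)) hx' with h7 | h7
      · subst h7
        have h8 : x = a1 := g7 x g1.left (mem_union_right _ hx)
        subst h8
        exact absurd (g8 x g2.left hx) g2.ne
      · exact h7
    · have h8 : x = a1 := g7 x hx' (mem_union_right _ hx)
      subst h8
      exact absurd (g8 x g2.left hx) g2.ne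
  refine ⟨a2, a1, S2 ∪ (T ∪ S1), E, ⟨r2 + (1 + r1), by omega, c2, g2, ?_⟩, g4, ?_⟩
  · intro x hx hxE
    rcases mem_union.mp hx with hx | hx
    · exact Or.inl (g8 x hxE hx)
    rcases mem_union.mp hx with hx | hx
    · rcases h4 x (mem_union_right _ (mem_union_left _ hxE)) hx with h7 | h7
      · subst h7
        exact Or.inr (g7 x g1.left (mem_union_left _ hxE))
      · subst h7
        exact Or.inl (g8 x hxE g3.right)
    · exact Or.inr (g7 x hx (mem_union_left _ hxE))
  · ext x
    simp only [mem_union]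
    tauto

end ring

end Pool.Agent.Lib.NK
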