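import Mathlib
import Pool.Agent.Lib.NK.Two

set_option autoImplicit false

/-! Normal form of a necklace in a digraph with additional arcs into one vertex. -/

namespace Pool.Agent.Lib.NK

open Finset
open scoped Classical

section dom
variable {V : Type*} {R : V → V → Prop} {D : Finset V}

theorem Rc.dom {S : Finset V} {u v : V} (h : Rc R S u v) (hu : u ∈ D)
    (hR : ∀ a b, R a b → a ∈ D ∧ b ∈ D) : Rc R (S ∩ D) u v := by
  refine Rc.induct (p := fun v => Rc R (S ∩ D) u v) (fun hu' => Rc.rfl' (mem_inter.mpr ⟨hu', hu⟩)) ?_ h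
  intro a b _ ih hab hb
  exact ih.tail hab (mem_inter.mpr ⟨hb, (hR a b hab).2⟩)

theorem Rc.ne_dom {S : Finset V} {u v : V} (h : Rc R S u v) (hne : u ≠ v)
    (hR : ∀ a b, R a b → a ∈ D ∧ b ∈ D) : u ∈ D := by
  rcases h.cases_head with h1 | ⟨w, hw, _⟩
  · exact absurd h1 hne
  · exact (hR _ _ hw).1

theorem Link.dom {T : Finset V} {u v : V} (h : Link R T u v)
    (hR : ∀ a b, R a b → a ∈ D ∧ b ∈ D) : Link R (T ∩ D) u v := by
  obtain ⟨h0, S1, S2, h1, h2, h3, h4, h5⟩ := h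
  exact ⟨h0, S1 ∩ D, S2 ∩ D, h1.dom (h1.ne_dom h0 hR) hR, h2.dom (h2.ne_dom h0.symm hR) hR,
    fun x hx hx' => h3 x (mem_inter.mp hx).1 (mem_inter.mp hx').1,
    inter_subset_inter_right h4, inter_subset_inter_right h5⟩

theorem Ch.dom {r : ℕ} {a t : V} {S : Finset V} (h : Ch R r a t S) :
    a ∈ D → (∀ a b, R a b → a ∈ D ∧ b ∈ D) → Ch R r a t (S ∩ D) := by
  induction h with
  | nil a =>
    intro ha _
    have : ({a} : Finset V) ∩ D = {a} := by
      rw [inter_eq_left, singleton_subset_iff]; exact ha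
    rw [this]; exact Ch.nil a
  | @cons r a m t E S h1 h2 h3 ih =>
    intro ha hR
    have hl := h1.dom hR
    rw [union_inter_distrib_right]
    exact Ch.cons hl (ih (mem_inter.mp hl.right).2 hR)
      (fun x hx hx' => h3 x (mem_inter.mp hx).1 (mem_inter.mp hx').1)

theorem Neck.ringDom (h : Neck R) (hR : ∀ a b, R a b → a ∈ D ∧ b ∈ D) :
    ∃ a t S T, Ring R a t S T ∧ S ⊆ D ∧ T ⊆ D := by
  obtain ⟨r, a, t, S, T, hr, h1, h2, h3⟩ := h
  have hl := h2.dom hR
  exact ⟨a, t, S ∩ D, T ∩ D, ⟨r, hr, h1.dom (mem_inter.mp hl.right).2 hR, hl,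
    fun x hx hx' => h3 x (mem_inter.mp hx).1 (mem_inter.mp hx').1⟩, inter_subset_right, inter_subset_right⟩

end dom

section nf
variable {V : Type*} {R R' : V → V → Prop} {z : V} {U : V → Prop}

theorem toR_avoid (hR' : ∀ a b, R' a b → R a b ∨ (b = z ∧ U a)) {X : Finset V} {a b : V}
    (h : Rc R' X a b) (hz : z ∉ X) : Rc R X a b := by
  refine h.change (Subset.refl _) ?_
  intro p hp q hq hpq
  rcases hR' p q hpq with h1 | ⟨h1, _⟩
  · exact h1
  · exact absurd (h1 ▸ hq) hz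

theorem toR_out (hR' : ∀ a b, R' a b → R a b ∨ (b = z ∧ U a)) {X : Finset V} {b : V}
    (h : Rc R' X z b) : Rc R X z b := by
  by_cases hb : b = z
  · subst hb; exact Rc.rfl' h.left
  · obtain ⟨n, hn, h1⟩ := h.out hb
    have hnz : n ≠ z := (mem_erase.mp h1.left).1
    have h2 : Rc R (X.erase z) n b := toR_avoid hR' h1 (by simp)
    rcases hR' z n hn with h3 | ⟨h3, _⟩
    · exact Rc.head h3 h.left (h2.mono (erase_subset _ _))
    · exact absurd h3 hnz

theorem toR_in (hR' : ∀ a b, R' a b → R a b ∨ (b = z ∧ U a)) {X : Finset V} {a : V}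
    (h : Rc R' X a z) (ha : a ≠ z) : ∃ u, R' u z ∧ Rc R (X.erase z) a u := by
  obtain ⟨u, hu, h1⟩ := h.inn ha
  exact ⟨u, hu, toR_avoid hR' h1 (by simp)⟩

theorem toR_through (hR' : ∀ a b, R' a b → R a b ∨ (b = z ∧ U a)) {X : Finset V} {t a : V}
    (h : Rc R' X t a) (ht : t ≠ z) :
    Rc R X t a ∨ ∃ u ∈ X, u ≠ z ∧ z ∈ X ∧ U u ∧ ∀ B, Rc R B u z → Rc R (X ∪ B) t a := by
  rcases h.cut z with h1 | ⟨h1, h2⟩
  · exact Or.inl ((toR_avoid hR' h1 (by simp)).mono (erase_subset _ _))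
  · obtain ⟨u, hu, h3⟩ := toR_in hR' h1 ht
    have h4 := toR_out hR' h2
    rcases hR' u z hu with h5 | ⟨_, h5⟩
    · exact Or.inl (((h3.mono (erase_subset _ _)).tail h5 h2.left).trans h4)
    · right
      refine ⟨u, (mem_erase.mp h3.right).2, (mem_erase.mp h3.right).1, h2.left, h5, ?_⟩
      intro B hB
      exact ((h3.mono ((erase_subset _ _).trans subset_union_left)).trans
        (hB.mono subset_union_right)).trans (h4.mono subset_union_left)

/-- the vertex is in the interior of a link -/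
theorem nf_int (hR' : ∀ a b, R' a b → R a b ∨ (b = z ∧ U a)) {D : Finset V} {a t : V}
    {S T : Finset V} (h : Ring R' a t S T) (hTD : T ⊆ D) (hSD : S ⊆ D) (hzS : z ∉ S) :
    Neck R ∨ (∃ u ∈ D, U u ∧ u ≠ z ∧
      ∀ B, Rc R B u z → (∀ x ∈ B, x ∈ D → x = u ∨ x = z) → Neck R) := by
  obtain ⟨r, hr, hch, hT, hST⟩ := h
  have hch' : Ch R r a t S := by
    refine hch.change ?_
    intro p hp q hq hpq
    rcases hR' p q hpq with h1 | ⟨h1, _⟩
    · exact h1
    · exact absurd (h1 ▸ hq) hzS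
  obtain ⟨h0, T1, T2, h1, h2, h3, h4, h5⟩ := hT
  have hta : t ≠ z := by rintro rfl; exact hzS hch.right
  have haz : a ≠ z := by rintro rfl; exact hzS hch.left
  have key : ∀ T1 T2 t a, t ≠ a → t ≠ z → a ≠ z → (t ∈ S) → (a ∈ S) → Rc R' T1 t a → Rc R T2 a t →
      (∀ x ∈ T1, x ∈ T2 → x = t ∨ x = a) → T1 ⊆ T → T2 ⊆ T → Ch R r a t S →
      (∀ x ∈ S, x ∈ T → x = a ∨ x = t) → 
      Neck R ∨ (∃ u ∈ D, U u ∧ u ≠ z ∧
      ∀ B, Rc R B u z → (∀ x ∈ B, x ∈ D → x = u ∨ x = z) → Neck R) := by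
    intro T1 T2 t a h0 hta haz htS haS h1 h2 h3 h4 h5 hch hST
    rcases toR_through hR' h1 hta with h6 | ⟨u, hu, huz, hzT1, hU, h6⟩
    · exact Or.inl ⟨r, a, t, S, T, hr, hch, ⟨h0, T1, T2, h6, h2, h3, h4, h5⟩, hST⟩
    · right
      refine ⟨u, hTD (h4 hu), hU, huz, ?_⟩
      intro B hB hBD
      have hzT2 : z ∉ T2 := by
        intro hz2
        rcases h3 z hzT1 hz2 with h7 | h7
        · exact hta h7.symm
        · exact haz h7.symm
      refine ⟨r, a, t, S, T ∪ B, hr, hch, ⟨h0, T1 ∪ B, T2, h6 B hB, h2, ?_,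
        union_subset_union_left h4, h5.trans subset_union_left⟩, ?_⟩
      · intro x hx hx'
        rcases mem_union.mp hx with hx | hx
        · exact h3 x hx hx'
        · rcases hBD x hx (hTD (h5 hx')) with h7 | h7
          · subst h7; exact h3 x hu hx'
          · subst h7; exact absurd hx' hzT2
      · intro x hx hx'
        rcases mem_union.mp hx' with hx' | hx'
        · exact hST x hx hx'
        · rcases hBD x hx' (hSD hx) with h7 | h7
          · subst h7; exact hST x hx (h4 hu)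
          · subst h7; exact absurd hx hzS
  by_cases hz1 : z ∈ T1
  · have hz2 : z ∉ T2 := by
      intro hz2
      rcases h3 z hz1 hz2 with h7 | h7
      · exact hta h7.symm
      · exact haz h7.symm
    exact key T1 T2 t a h0 hta haz hch.right hch.left h1 (toR_avoid hR' h2 hz2) h3 h4 h5 hch' hST
  · exact key T2 T1 a t h0.symm haz hta hch.left hch.right h2 (toR_avoid hR' h1 hz1)
      (fun x hx hx' => (h3 x hx' hx).symm) h5 h4 hch'.symm (fun x hx hx' => (hST x hx hx').symm)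

/-- the vertex is a joint -/
theorem nf_joint (hR' : ∀ a b, R' a b → R a b ∨ (b = z ∧ U a)) {D : Finset V} {t : V}
    {S T : Finset V} (h : Ring R' z t S T) (hTD : T ⊆ D) (hSD : S ⊆ D) :
    Neck R ∨ (∃ u ∈ D, U u ∧ u ≠ z ∧
      ∀ B, Rc R B u z → (∀ x ∈ B, x ∈ D → x = u ∨ x = z) → Neck R) ∨
    (∃ u1 ∈ D, ∃ u2 ∈ D, u1 ≠ u2 ∧ u1 ≠ z ∧ u2 ≠ z ∧ U u1 ∧ U u2 ∧
      (∀ B1 B2, Rc R B1 u1 z → Rc R B2 u2 z → (∀ x ∈ B1, x ∈ D → x = u1 ∨ x = z) →
        (∀ x ∈ B2, x ∈ D → x = u2 ∨ x = z) → (∀ x ∈ B1, x ∈ B2 → x = z) → Neck R) ∧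
      ∃ P1 P2, P1 ⊆ D ∧ P2 ⊆ D ∧ Rc R P1 z u1 ∧ Rc R P2 z u2 ∧ ∀ x ∈ P1, x ∈ P2 → x = z) := by
  obtain ⟨r, hr, hch, hT, hST⟩ := h
  obtain ⟨r, rfl⟩ : ∃ s, r = s + 1 := ⟨r - 1, by omega⟩
  cases hch with
  | @cons _ _ m _ E S0 hE hch0 hES =>
  have hmt : m ≠ t := hch0.ne (by omega)
  have hzm : z ≠ m := hE.ne
  have hzS0 : z ∉ S0 := fun hz => hzm (hES z hE.left hz)
  have hch1 : Ch R r m t S0 := by
    refine hch0.change ?_
    intro p hp q hq hpq
    rcases hR' p q hpq with h1 | ⟨h1, _⟩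
    · exact h1
    · exact absurd (h1 ▸ hq) hzS0
  have htE : t ∉ E := fun ht => hmt (hES t ht hch0.right).symm
  obtain ⟨hz0, E1, E2, e1, e2, e3, e4, e5⟩ := hE
  obtain ⟨ht0, T1, T2, t1, t2, t3, t4, t5⟩ := hT
  obtain ⟨u1, hu1, q1⟩ := toR_in hR' t1 ht0
  obtain ⟨u2, hu2, q2⟩ := toR_in hR' e2 hz0.symm
  have e1' := toR_out hR' e1
  have t2' := toR_out hR' t2
  have hu1T1 : u1 ∈ T1 := (mem_erase.mp q1.right).2
  have hu2E2 : u2 ∈ E2 := (mem_erase.mp q2.right).2
  have hu1z : u1 ≠ z := (mem_erase.mp q1.right).1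
  have hu2z : u2 ≠ z := (mem_erase.mp q2.right).1
  have hET : ∀ x ∈ E, x ∈ T → x = z := by
    intro x hx hx'
    rcases hST x (mem_union_left _ hx) hx' with h1 | h1
    · exact h1
    · exact absurd (h1 ▸ hx) htE
  have hS0T : ∀ x ∈ S0, x ∈ T → x = t := by
    intro x hx hx'
    rcases hST x (mem_union_right _ hx) hx' with h1 | h1
    · exact absurd (h1 ▸ hx) hzS0
    · exact h1
  have hED : E ⊆ D := subset_union_left.trans hSD
  have hS0D : S0 ⊆ D := subset_union_right.trans hSD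
  have hne : u1 ≠ u2 := by
    rintro rfl
    exact hu1z (hET u1 (e5 hu2E2) (t4 hu1T1))
  -- general assembly
  have build : ∀ B1 B2, Rc R (T1 ∪ B1) t z → Rc R (E2 ∪ B2) m z →
      (∀ x ∈ B1, x ∈ D → x = u1 ∨ x = z) → (∀ x ∈ B2, x ∈ D → x = u2 ∨ x = z) →
      (∀ x ∈ B1, x ∈ B2 → x = z) → Neck R := by
    intro B1 B2 hB1 hB2 hD1 hD2 hB
    have hL1 : Link R (T ∪ B1) t z := by
      refine ⟨ht0, T1 ∪ B1, T2, hB1, t2', ?_, union_subset_union_left t4, t5.trans subset_union_left⟩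
      intro x hx hx'
      rcases mem_union.mp hx with hx | hx
      · exact t3 x hx hx'
      · rcases hD1 x hx (hTD (t5 hx')) with h7 | h7
        · subst h7; exact t3 x hu1T1 hx'
        · exact Or.inr h7
    have hL2 : Link R (E ∪ B2) z m := by
      refine ⟨hz0, E1, E2 ∪ B2, e1', hB2, ?_, e4.trans subset_union_left, union_subset_union_left e5⟩
      intro x hx hx'
      rcases mem_union.mp hx' with hx' | hx'
      · exact e3 x hx hx'
      · rcases hD2 x hx' (hED (e4 hx)) with h7 | h7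
        · subst h7; exact e3 x hx hu2E2
        · exact Or.inl h7
    refine ⟨r + 1, z, t, (E ∪ B2) ∪ S0, T ∪ B1, hr, Ch.cons hL2 hch1 ?_, hL1, ?_⟩
    · intro x hx hx'
      rcases mem_union.mp hx with hx | hx
      · exact hES x hx hx'
      · rcases hD2 x hx (hS0D hx') with h7 | h7
        · subst h7; exact hES x (e5 hu2E2) hx'
        · subst h7; exact absurd hx' hzS0
    · intro x hx hx'
      rcases mem_union.mp hx with hx | hx
      · rcases mem_union.mp hx with hx | hx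
        · rcases mem_union.mp hx' with hx' | hx'
          · exact Or.inl (hET x hx hx')
          · rcases hD1 x hx' (hED hx) with h7 | h7
            · subst h7; exact Or.inl (hET x hx (t4 hu1T1))
            · exact Or.inl h7
        · rcases mem_union.mp hx' with hx' | hx'
          · rcases hD2 x hx (hTD hx') with h7 | h7
            · subst h7; exact Or.inl (hET x (e5 hu2E2) hx')
            · exact Or.inl h7
          · exact Or.inl (hB x hx' hx)
      · rcases mem_union.mp hx' with hx' | hx'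
        · exact Or.inr (hS0T x hx hx')
        · rcases hD1 x hx' (hS0D hx) with h7 | h7
          · subst h7; exact Or.inr (hS0T x hx (t4 hu1T1))
          · subst h7; exact absurd hx hzS0
  have hzT1 : z ∈ T1 := t1.right
  have hzE2 : z ∈ E2 := e2.right
  have viaR1 : R u1 z → Rc R (T1 ∪ ∅) t z := fun h => by
    rw [union_empty]; exact (q1.mono (erase_subset _ _)).tail h hzT1
  have viaR2 : R u2 z → Rc R (E2 ∪ ∅) m z := fun h => by
    rw [union_empty]; exact (q2.mono (erase_subset _ _)).tail h hzE2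
  have viaB1 : ∀ B, Rc R B u1 z → Rc R (T1 ∪ B) t z := fun B hB =>
    (q1.mono (erase_subset _ _)).trans' hB subset_union_left subset_union_right
  have viaB2 : ∀ B, Rc R B u2 z → Rc R (E2 ∪ B) m z := fun B hB =>
    (q2.mono (erase_subset _ _)).trans' hB subset_union_left subset_union_right
  rcases hR' u1 z hu1 with h1 | ⟨_, h1⟩
  · rcases hR' u2 z hu2 with h2 | ⟨_, h2⟩
    · exact Or.inl (build ∅ ∅ (viaR1 h1) (viaR2 h2) (by simp) (by simp) (by simp))
    · refine Or.inr (Or.inl ⟨u2, hED (e5 hu2E2), h2, hu2z, ?_⟩)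
      intro B hB hBD
      exact build ∅ B (viaR1 h1) (viaB2 B hB) (by simp) hBD (by simp)
  · rcases hR' u2 z hu2 with h2 | ⟨_, h2⟩
    · refine Or.inr (Or.inl ⟨u1, hTD (t4 hu1T1), h1, hu1z, ?_⟩)
      intro B hB hBD
      exact build B ∅ (viaB1 B hB) (viaR2 h2) hBD (by simp) (by simp)
    · refine Or.inr (Or.inr ⟨u1, hTD (t4 hu1T1), u2, hED (e5 hu2E2), hne, hu1z, hu2z, h1, h2, ?_,
        T, E, hTD, hED, ?_, ?_, ?_⟩)
      · intro B1 B2 hB1 hB2 hD1 hD2 hB
        exact build B1 B2 (viaB1 B1 hB1) (viaB2 B2 hB2) hD1 hD2 hB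
      · exact (t2'.mono t5).trans (q1.mono ((erase_subset _ _).trans t4))
      · exact (e1'.mono e4).trans (q2.mono ((erase_subset _ _).trans e5))
      · intro x hx hx'
        exact hET x hx' hx

/-- normal form -/
theorem nf (hR' : ∀ a b, R' a b → R a b ∨ (b = z ∧ U a)) {D : Finset V}
    (hD : ∀ a b, R' a b → a ∈ D ∧ b ∈ D) (h : Neck R') :
    Neck R ∨ (∃ u ∈ D, U u ∧ u ≠ z ∧
      ∀ B, Rc R B u z → (∀ x ∈ B, x ∈ D → x = u ∨ x = z) → Neck R) ∨
    (∃ u1 ∈ D, ∃ u2 ∈ D, u1 ≠ u2 ∧ u1 ≠ z ∧ u2 ≠ z ∧ U u1 ∧ U u2 ∧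
      (∀ B1 B2, Rc R B1 u1 z → Rc R B2 u2 z → (∀ x ∈ B1, x ∈ D → x = u1 ∨ x = z) →
        (∀ x ∈ B2, x ∈ D → x = u2 ∨ x = z) → (∀ x ∈ B1, x ∈ B2 → x = z) → Neck R) ∧
      ∃ P1 P2, P1 ⊆ D ∧ P2 ⊆ D ∧ Rc R P1 z u1 ∧ Rc R P2 z u2 ∧ ∀ x ∈ P1, x ∈ P2 → x = z) := by
  obtain ⟨a, t, S, T, hring, hS, hT⟩ := h.ringDom hD
  by_cases hz : z ∈ S ∪ T
  · obtain ⟨a', t', S', T', hr', hz', hU⟩ := hring.at hz
    have hSub : S' ∪ T' ⊆ D := by rw [hU]; exact union_subset hS hT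
    have hS' : S' ⊆ D := subset_union_left.trans hSub
    have hT' : T' ⊆ D := subset_union_right.trans hSub
    by_cases hzS : z ∈ S'
    · obtain ⟨r, h1, h2, h3, h4⟩ := hr'
      rcases h4 z hzS hz' with h5 | h5
      · subst h5
        exact nf_joint hR' ⟨r, h1, h2, h3, h4⟩ hT' hS'
      · subst h5
        exact nf_joint hR' (Ring.symm ⟨r, h1, h2, h3, h4⟩) hT' hS'
    · rcases nf_int hR' hr' hT' hS' hzS with h1 | h1
      · exact Or.inl h1
      · exact Or.inr (Or.inl h1)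
  · left
    obtain ⟨r, h1, h2, h3, h4⟩ := hring
    rw [mem_union, not_or] at hz
    refine ⟨r, a, t, S, T, h1, h2.change ?_, h3.change ?_, h4⟩
    · intro p hp q hq hpq
      rcases hR' p q hpq with h5 | ⟨h5, _⟩
      · exact h5
      · exact absurd (h5 ▸ hq) hz.1
    · intro p hp q hq hpq
      rcases hR' p q hpq with h5 | ⟨h5, _⟩
      · exact h5
      · exact absurd (h5 ▸ hq) hz.2

end nf

end Pool.Agent.Lib.NK
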