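import Mathlib
import Pool.Agent.Lib.NK.Nf
import Pool.Agent.Lib.P71954f.MengerAB

set_option autoImplicit false

/-! Reduction to strongly 2-connected digraphs (MP_c62493_co). -/

namespace Pool.Agent.Lib.NK

open Finset
open scoped Classical

section colr
variable {V : Type*} {R : V → V → Prop}

/-- `S` can be coloured with colours in `α`, all classes being acyclic -/
def Colr (R : V → V → Prop) (α : Type) (S : Finset V) : Prop :=
  ∃ c : V → α, ∀ F ⊆ S, (∀ u ∈ F, ∀ v ∈ F, c u = c v) → Ac R F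

theorem ac_empty : Ac R (∅ : Finset V) := fun _ _ _ h => absurd h (by simp)

/-- a non-strong set is colourable if its proper subsets are -/
theorem colr_split {α : Type} {S : Finset V} {u v : V} (hu : u ∈ S) (hv : v ∈ S)
    (huv : ¬ Rc R S u v) (ih : ∀ T ⊂ S, Colr R α T) : Colr R α S := by
  obtain ⟨S1, hS1⟩ : ∃ S1, S1 = S.filter (fun x => Rc R S u x) := ⟨_, rfl⟩
  have mem1 : ∀ x, x ∈ S1 ↔ Rc R S u x := by
    intro x; rw [hS1, mem_filter]; exact ⟨fun h => h.2, fun h => ⟨h.right, h⟩⟩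
  have hsub1 : S1 ⊆ S := by rw [hS1]; exact filter_subset _ _
  obtain ⟨c1, hc1⟩ := ih S1 (by
    rw [Finset.ssubset_iff_of_subset hsub1]
    exact ⟨v, hv, fun h => huv ((mem1 v).mp h)⟩)
  obtain ⟨c2, hc2⟩ := ih (S \ S1) (by
    rw [Finset.ssubset_iff_of_subset sdiff_subset]
    exact ⟨u, hu, fun h => (mem_sdiff.mp h).2 ((mem1 u).mpr (Rc.rfl' hu))⟩)
  have closed : ∀ T ⊆ S, ∀ x y, x ∈ S1 → Rc R T x y → y ∈ S1 := by
    intro T hT x y hx hr
    rw [mem1] at hx ⊢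
    exact hx.trans (hr.mono hT)
  refine ⟨fun v => if v ∈ S1 then c1 v else c2 v, ?_⟩
  intro F hF hmono x y hxy hx hr
  obtain ⟨T, hT, hP⟩ := hr.toPS
  have hyS : y ∈ S := hF hr.left
  by_cases hx1 : x ∈ S1
  · have hy1 : y ∈ S1 := by
      rw [mem1] at hx1 ⊢
      exact hx1.tail hxy hyS
    have hT1 : ∀ z ∈ T, z ∈ S1 := fun z hz => closed T (hT.trans hF) y z hy1 (hP.2.2 z hz).1
    refine hc1 T hT1 ?_ x y hxy hP.2.1 hP.rc
    intro a ha b hb
    have := hmono a (hT ha) b (hT hb)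
    simpa only [if_pos (hT1 a ha), if_pos (hT1 b hb)] using this
  · have hT1 : ∀ z ∈ T, z ∉ S1 := fun z hz h => hx1 (closed T (hT.trans hF) z x h (hP.2.2 z hz).2)
    refine hc2 T ?_ ?_ x y hxy hP.2.1 hP.rc
    · intro z hz
      exact mem_sdiff.mpr ⟨hF (hT hz), hT1 z hz⟩
    · intro a ha b hb
      have := hmono a (hT ha) b (hT hb)
      simpa only [if_neg (hT1 a ha), if_neg (hT1 b hb)] using this


end colr

section menger
variable {V : Type*} {R : V → V → Prop}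

theorem menger2 [Fintype V] {X : Finset V} (A B : V → Prop) (x0 : V)
    (h : ∀ x : V, ∃ a b, A a ∧ B b ∧ Rc R (X.erase x) a b) :
    ∃ S1 S2 a1 b1 a2 b2, S1 ⊆ X ∧ S2 ⊆ X ∧ A a1 ∧ A a2 ∧ B b1 ∧ B b2 ∧ Rc R S1 a1 b1 ∧
      Rc R S2 a2 b2 ∧ ∀ x ∈ S1, x ∉ S2 := by
  have key : ∀ (a b : V) (T : Finset V) (S : Finset V), T ⊆ X → (∀ x ∈ T, x ∉ S) → Rc R T a b →
      P71954f.RS (fun p q => R p q ∧ p ∈ X ∧ q ∈ X) (↑S : Set V)ᶜ a b := by
    intro a b T S hT hTS hr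
    refine ⟨?_, ?_⟩
    · simpa using hTS a hr.left
    · refine Rc.induct (p := fun b => Relation.ReflTransGen (fun p q => (R p q ∧ p ∈ X ∧ q ∈ X) ∧
        q ∈ (↑S : Set V)ᶜ) a b) (fun _ => Relation.ReflTransGen.refl) ?_ hr
      intro p q hp ih hpq hq
      exact ih.tail ⟨⟨hpq, hT hp.right, hT hq⟩, by simpa using hTS q hq⟩
  obtain ⟨L, hL, hr⟩ := P71954f.menger_ab (fun p q => R p q ∧ p ∈ X ∧ q ∈ X)
    {a | A a ∧ a ∈ X} {b | B b} 2 (by
      intro S hS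
      by_cases hSe : S = ∅
      · obtain ⟨a, b, ha, hb, hab⟩ := h x0
        refine ⟨a, ⟨ha, (mem_erase.mp hab.left).2⟩, b, hb, key a b _ S (erase_subset x0 X) ?_ hab⟩
        intro x _; rw [hSe]; simp
      · have h1 : S.card = 1 := by
          have := card_pos.mpr (nonempty_iff_ne_empty.mpr hSe)
          omega
        obtain ⟨x, hx⟩ := card_eq_one.mp h1
        obtain ⟨a, b, ha, hb, hab⟩ := h x
        refine ⟨a, ⟨ha, (mem_erase.mp hab.left).2⟩, b, hb, key a b _ S (erase_subset x X) ?_ hab⟩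
        intro y hy; rw [hx, mem_singleton]; exact (mem_erase.mp hy).1)
  have back : ∀ i, ∃ a b, A a ∧ B b ∧ Rc R (univ.filter (fun v => v ∈ L i ∧ v ∈ X)) a b := by
    intro i
    obtain ⟨a, ⟨ha, haX⟩, b, hb, h1, h2⟩ := hr i
    refine ⟨a, b, ha, hb, ?_⟩
    refine ⟨by simp [h1, haX], ?_⟩
    refine Relation.ReflTransGen.mono ?_ _ _ h2
    intro p q hpq
    refine ⟨hpq.1.1, ?_⟩
    simp only [mem_filter, mem_univ, true_and]
    exact ⟨hpq.2, hpq.1.2.2⟩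
  obtain ⟨a1, b1, g1, g2, g3⟩ := back 0
  obtain ⟨a2, b2, g4, g5, g6⟩ := back 1
  refine ⟨_, _, a1, b1, a2, b2, ?_, ?_, g1, g4, g2, g5, g3, g6, ?_⟩
  · intro x hx; simp only [mem_filter, mem_univ, true_and] at hx; exact hx.2
  · intro x hx; simp only [mem_filter, mem_univ, true_and] at hx; exact hx.2
  · intro x hx hx'
    simp only [mem_filter, mem_univ, true_and] at hx hx'
    exact Set.disjoint_left.mp (hL 0 1 (by decide)) hx.1 hx'.1

end menger

section piece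
variable {V : Type*} {R : V → V → Prop}

/-- `R` restricted to `S` -/
def Rin (R : V → V → Prop) (S : Finset V) : V → V → Prop := fun a b => R a b ∧ a ∈ S ∧ b ∈ S

/-- strongly 2-connected on `S` -/
def TwoStr (R : V → V → Prop) (S : Finset V) : Prop :=
  3 ≤ S.card ∧ ∀ z ∈ S, ∀ a ∈ S.erase z, ∀ b ∈ S.erase z, Rc R (S.erase z) a b

/-- `X` is left only through `z` -/
def Piece (R : V → V → Prop) (S : Finset V) (z : V) (X : Finset V) : Prop :=
  z ∈ S ∧ X ⊆ S.erase z ∧ X.Nonempty ∧ (∃ y ∈ S.erase z, y ∉ X) ∧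
    ∀ x ∈ X, ∀ y ∈ S.erase z, R x y → y ∈ X

theorem Rc.closed {S X T : Finset V} {z : V} (hcl : ∀ x ∈ X, ∀ y ∈ S.erase z, R x y → y ∈ X)
    {a b : V} (ha : a ∈ X) (hT : T ⊆ S.erase z) (h : Rc R T a b) : Rc R (T ∩ X) a b := by
  refine Rc.induct (p := fun b => Rc R (T ∩ X) a b) (fun h => Rc.rfl' (mem_inter.mpr ⟨h, ha⟩)) ?_ h
  intro p q _ ih hpq hq
  exact ih.tail hpq (mem_inter.mpr ⟨hq, hcl p (mem_inter.mp ih.right).2 q (hT hq) hpq⟩)

theorem exists_piece {S : Finset V} (h3 : 3 ≤ S.card) (h : ¬ TwoStr R S) :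
    ∃ z X, Piece R S z X ∧ ∀ z' X', Piece R S z' X' → X.card ≤ X'.card := by
  have hex : ∃ z X, Piece R S z X := by
    have h1 : ¬ ∀ z ∈ S, ∀ a ∈ S.erase z, ∀ b ∈ S.erase z, Rc R (S.erase z) a b := fun h' => h ⟨h3, h'⟩
    push Not at h1
    obtain ⟨z, hz, a, ha, b, hb, hab⟩ := h1
    refine ⟨z, (S.erase z).filter (fun x => Rc R (S.erase z) a x), hz, filter_subset _ _,
      ⟨a, by rw [mem_filter]; exact ⟨ha, Rc.rfl' ha⟩⟩, ⟨b, hb, ?_⟩, ?_⟩
    · rw [mem_filter]; exact fun h' => hab h'.2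
    · intro x hx y hy hxy
      rw [mem_filter] at hx ⊢
      exact ⟨hy, hx.2.tail hxy hy⟩
  obtain ⟨z, X, hX⟩ := hex
  have hn : ∃ n, ∃ z X, Piece R S z X ∧ X.card = n := ⟨X.card, z, X, hX, rfl⟩
  obtain ⟨z, X, h1, h2⟩ := Nat.find_spec hn
  refine ⟨z, X, h1, ?_⟩
  intro z' X' h'
  rw [h2]
  exact Nat.find_min' hn ⟨z', X', h', rfl⟩

theorem Piece.avoid {S X : Finset V} {z : V} (h : Piece R S z X)
    (hmin : ∀ z' X', Piece R S z' X' → X.card ≤ X'.card) {x w : V} (hx : x ∈ X) (hw : w ∈ X)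
    (hne : w ≠ x) : Rc R ((insert z X).erase x) w z := by
  obtain ⟨hz, hXS, hXne, ⟨y0, hy0, hy0X⟩, hcl⟩ := h
  have hzX : z ∉ X := fun h => (mem_erase.mp (hXS h)).1 rfl
  by_contra hcon
  obtain ⟨Y, hY⟩ : ∃ Y, Y = X.filter (fun w => w ≠ x ∧ ¬ Rc R ((insert z X).erase x) w z) := ⟨_, rfl⟩
  have hYX : Y ⊆ X := by rw [hY]; exact filter_subset _ _
  have hxY : x ∉ Y := by rw [hY, mem_filter]; exact fun h => h.2.1 rfl
  have hP : Piece R S x Y := by
    refine ⟨(mem_erase.mp (hXS hx)).2, ?_, ⟨w, ?_⟩, ⟨z, ?_, fun h => hzX (hYX h)⟩, ?_⟩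
    · intro v hv
      refine mem_erase.mpr ⟨?_, (mem_erase.mp (hXS (hYX hv))).2⟩
      rintro rfl; exact hxY hv
    · rw [hY, mem_filter]; exact ⟨hw, hne, hcon⟩
    · refine mem_erase.mpr ⟨?_, hz⟩
      rintro rfl; exact hzX hx
    · intro v hv y hy hvy
      rw [hY, mem_filter] at hv
      have hyx : y ≠ x := (mem_erase.mp hy).1
      have hvD : v ∈ (insert z X).erase x := mem_erase.mpr ⟨hv.2.1, mem_insert_of_mem hv.1⟩
      have hyz : y ≠ z := by
        rintro rfl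
        exact hv.2.2 (Rc.step hvy hvD (mem_erase.mpr ⟨hyx, mem_insert_self _ _⟩))
      have hyX : y ∈ X := hcl v hv.1 y (mem_erase.mpr ⟨hyz, (mem_erase.mp hy).2⟩) hvy
      rw [hY, mem_filter]
      exact ⟨hyX, hyx, fun h' => hv.2.2 (Rc.head hvy hvD h')⟩
  have h1 := hmin x Y hP
  have h2 : Y.card < X.card := card_lt_card ⟨hYX, fun h => hxY (h hx)⟩
  omega

/-- the fan from two vertices of the piece to `z` -/
theorem Piece.fan [Fintype V] {S X : Finset V} {z : V} (h : Piece R S z X)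
    (hmin : ∀ z' X', Piece R S z' X' → X.card ≤ X'.card) {w1 w2 : V} (hw1 : w1 ∈ X) (hw2 : w2 ∈ X)
    (hne : w1 ≠ w2) : ∃ B1 B2, B1 ⊆ insert z X ∧ B2 ⊆ insert z X ∧ Rc R B1 w1 z ∧ Rc R B2 w2 z ∧
      ∀ x ∈ B1, x ∈ B2 → x = z := by
  have hzX : z ∉ X := fun h' => (mem_erase.mp (h.2.1 h')).1 rfl
  have hX : ∀ x w, x ∈ X → w ∈ X → w ≠ x → ∃ b, R b z ∧ Rc R (X.erase x) w b := by
    intro x w hx hw hwx
    have h1 := h.avoid hmin hx hw hwx
    obtain ⟨b, hb, h2⟩ := h1.inn (fun e => hzX (e ▸ hw))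
    refine ⟨b, hb, h2.mono ?_⟩
    intro v hv
    simp only [mem_erase, mem_insert] at hv ⊢
    tauto
  obtain ⟨S1, S2, a1, b1, a2, b2, g1, g2, g3, g4, g5, g6, g7, g8, g9⟩ := menger2 (R := R) (X := X)
    (fun a => a = w1 ∨ a = w2) (fun b => R b z) w1 (by
      intro x
      by_cases hx : x ∈ X
      · by_cases h1 : w1 = x
        · obtain ⟨b, hb, hr⟩ := hX x w2 hx hw2 (fun e => hne (h1.trans e.symm))
          exact ⟨w2, b, Or.inr rfl, hb, hr⟩
        · obtain ⟨b, hb, hr⟩ := hX x w1 hx hw1 h1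
          exact ⟨w1, b, Or.inl rfl, hb, hr⟩
      · obtain ⟨b, hb, hr⟩ := hX w2 w1 hw2 hw1 hne
        refine ⟨w1, b, Or.inl rfl, hb, hr.mono ?_⟩
        intro v hv
        refine mem_erase.mpr ⟨?_, (mem_erase.mp hv).2⟩
        rintro rfl; exact hx (mem_erase.mp hv).2)
  have asm : ∀ S1 S2 : Finset V, S1 ⊆ X → S2 ⊆ X → (∀ x ∈ S1, x ∉ S2) →
      ∀ x ∈ insert z S1, x ∈ insert z S2 → x = z := by
    intro S1 S2 _ _ hd x hx hx'
    rcases mem_insert.mp hx with h1 | h1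
    · exact h1
    · rcases mem_insert.mp hx' with h2 | h2
      · exact h2
      · exact absurd h2 (hd x h1)
  have ext : ∀ (S1 : Finset V) (a b : V), Rc R S1 a b → R b z → Rc R (insert z S1) a z := by
    intro S1 a b hr hb
    exact (hr.mono (subset_insert _ _)).tail hb (mem_insert_self _ _)
  rcases g3 with rfl | rfl
  · rcases g4 with rfl | rfl
    · exact absurd g8.left (g9 _ g7.left)
    · exact ⟨insert z S1, insert z S2, insert_subset_insert _ g1, insert_subset_insert _ g2,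
        ext S1 _ _ g7 g5, ext S2 _ _ g8 g6, asm S1 S2 g1 g2 g9⟩
  · rcases g4 with rfl | rfl
    · exact ⟨insert z S2, insert z S1, insert_subset_insert _ g2, insert_subset_insert _ g1,
        ext S2 _ _ g8 g6, ext S1 _ _ g7 g5, asm S2 S1 g2 g1 (fun x hx hx' => g9 x hx' hx)⟩
    · exact absurd g8.left (g9 _ g7.left)

end piece

end Pool.Agent.Lib.NK
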