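import Mathlib
import Pool.Agent.Lib.NK.Reduce

set_option autoImplicit false

/-! Reduction to strongly 2-connected digraphs, main step (MP_c62493_co). -/

namespace Pool.Agent.Lib.NK

open Finset
open scoped Classical

section small
variable {V : Type*} {R : V → V → Prop}

theorem colr_small (hirr : ∀ v, ¬ R v v) {k : ℕ} {S : Finset V} (h : S.card < 3) :
    Colr R (Fin (k + 2)) S := by
  rcases S.eq_empty_or_nonempty with h0 | ⟨a, ha⟩
  · exact ⟨fun _ => 0, fun F hF _ => ac_empty.mono (h0 ▸ hF)⟩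
  refine ⟨fun v => if v = a then 0 else 1, fun F hF hm => ?_⟩
  by_contra hac
  obtain ⟨g, hg, _, x, hx, y, hy, hne⟩ := exists_circ_of_not_ac hirr hac
  have h1 := hm x (hg hx) y (hg hy)
  have h01 : (0 : Fin (k + 2)) ≠ 1 := by
    intro h; simpa using congrArg Fin.val h
  by_cases hxa : x = a
  · have hya : y ≠ a := fun e => hne (hxa.trans e.symm)
    simp only [hxa, if_true, hya, if_false] at h1
    exact h01 h1
  · by_cases hya : y = a
    · simp only [hya, if_true, hxa, if_false] at h1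
      exact h01 h1.symm
    · have h2 : ({a, x, y} : Finset V) ⊆ S := by
        intro v hv
        simp only [mem_insert, mem_singleton] at hv
        rcases hv with rfl | rfl | rfl
        · exact ha
        · exact hF (hg hx)
        · exact hF (hg hy)
      have h3 : ({a, x, y} : Finset V).card = 3 := card_eq_three.mpr ⟨a, x, y, Ne.symm hxa, Ne.symm hya, hne, rfl⟩
      have := card_le_card h2
      omega

end small

section main
variable {V : Type*}

/-- the fan from `z` to two vertices through `Y` -/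
theorem fan_out [Fintype V] {R : V → V → Prop} {Y : Finset V} {z w1 w2 : V}
    (hw1 : w1 ∉ Y) (hw2 : w2 ∉ Y) (hne : w1 ≠ w2) (hz1 : w1 ≠ z) (hz2 : w2 ≠ z)
    (h : ∀ x : V, ∃ a b, R z a ∧ (b = w1 ∨ b = w2) ∧ Rc R ((insert w1 (insert w2 Y)).erase x) a b) :
    ∃ B1 B2, B1 ⊆ insert z (insert w1 Y) ∧ B2 ⊆ insert z (insert w2 Y) ∧ Rc R B1 z w1 ∧ Rc R B2 z w2 ∧
      ∀ x ∈ B1, x ∈ B2 → x = z := by
  obtain ⟨S1, S2, a1, b1, a2, b2, g1, g2, g3, g4, g5, g6, g7, g8, g9⟩ :=
    menger2 (R := R) (X := insert w1 (insert w2 Y)) (fun a => R z a) (fun b => b = w1 ∨ b = w2) w1 h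
  have asm : ∀ S1 S2 : Finset V, (∀ x ∈ S1, x ∉ S2) → ∀ x ∈ insert z S1, x ∈ insert z S2 → x = z := by
    intro S1 S2 hd x hx hx'
    rcases mem_insert.mp hx with h1 | h1
    · exact h1
    · rcases mem_insert.mp hx' with h2 | h2
      · exact h2
      · exact absurd h2 (hd x h1)
  have ext : ∀ (S1 : Finset V) (a b : V), Rc R S1 a b → R z a → Rc R (insert z S1) z b := by
    intro S1 a b hr ha
    exact Rc.head ha (mem_insert_self _ _) (hr.mono (subset_insert _ _))
  have sub1 : ∀ S1 S2 : Finset V, S1 ⊆ insert w1 (insert w2 Y) → w2 ∉ S1 →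
      insert z S1 ⊆ insert z (insert w1 Y) := by
    intro S1 _ h1 h2
    apply insert_subset_insert
    intro x hx
    have := h1 hx
    simp only [mem_insert] at this ⊢
    rcases this with h3 | h3 | h3
    · exact Or.inl h3
    · exact absurd (h3 ▸ hx) h2
    · exact Or.inr h3
  have sub2 : ∀ S1 S2 : Finset V, S1 ⊆ insert w1 (insert w2 Y) → w1 ∉ S1 →
      insert z S1 ⊆ insert z (insert w2 Y) := by
    intro S1 _ h1 h2
    apply insert_subset_insert
    intro x hx
    have := h1 hx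
    simp only [mem_insert] at this ⊢
    rcases this with h3 | h3 | h3
    · exact absurd (h3 ▸ hx) h2
    · exact Or.inl h3
    · exact Or.inr h3
  rcases g5 with rfl | rfl
  · rcases g6 with rfl | rfl
    · exact absurd g8.right (g9 _ g7.right)
    · exact ⟨insert z S1, insert z S2, sub1 S1 S2 g1 (fun h => g9 _ h g8.right),
        sub2 S2 S1 g2 (g9 _ g7.right), ext _ _ _ g7 g3, ext _ _ _ g8 g4, asm _ _ g9⟩
  · rcases g6 with rfl | rfl
    · exact ⟨insert z S2, insert z S1, sub1 S2 S1 g2 (g9 _ g7.right), sub2 S1 S2 g1 (fun h => g9 _ h g8.right),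
        ext _ _ _ g8 g4, ext _ _ _ g7 g3, asm _ _ (fun x hx hx' => g9 x hx' hx)⟩
    · exact absurd g8.right (g9 _ g7.right)

/-- combining two colourings at a piece -/
theorem combine {R R1 R2 : V → V → Prop} {k : ℕ} {S X D1 D2 : Finset V} {z : V}
    (hz : z ∈ S) (hXS : X ⊆ S.erase z) (hcl : ∀ x ∈ X, ∀ y ∈ S.erase z, R x y → y ∈ X)
    (hD1 : D1 = insert z ((S.erase z) \ X)) (hD2 : D2 = insert z X)
    {c1 c2 : V → Fin (k + 2)} {cls : Finset V} (hcls : cls = D1.filter (fun v => c1 v = c1 z))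
    (hR1 : ∀ a ∈ D1, ∀ b ∈ D1, R a b → R1 a b) (hR2 : ∀ a ∈ D2, ∀ b ∈ D2, R a b → R2 a b)
    (hW : ∀ w ∈ X, ∀ u ∈ cls, R u w → Rc R cls z u → R2 z w)
    (h1 : ∀ F ⊆ D1, (∀ u ∈ F, ∀ v ∈ F, c1 u = c1 v) → Ac R1 F)
    (h2 : ∀ F ⊆ D2, (∀ u ∈ F, ∀ v ∈ F, c2 u = c2 v) → Ac R2 F) : Colr R (Fin (k + 2)) S := by
  have hzX : z ∉ X := fun h => (mem_erase.mp (hXS h)).1 rfl
  have hzD1 : z ∈ D1 := by rw [hD1]; exact mem_insert_self _ _
  have hzcls : z ∈ cls := by rw [hcls, mem_filter]; exact ⟨hzD1, rfl⟩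
  obtain ⟨c, hc⟩ : ∃ c : V → Fin (k + 2), c = fun v => if v ∈ X then Equiv.swap (c2 z) (c1 z) (c2 v) else c1 v :=
    ⟨_, rfl⟩
  have hcX : ∀ v ∈ D2, c v = Equiv.swap (c2 z) (c1 z) (c2 v) := by
    intro v hv
    rw [hc]
    by_cases hvX : v ∈ X
    · simp only [hvX, if_true]
    · have : v = z := by
        rw [hD2, mem_insert] at hv
        exact hv.resolve_right hvX
      subst this
      simp only [hvX, if_false, Equiv.swap_apply_left]
  have hcY : ∀ v, v ∉ X → c v = c1 v := by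
    intro v hv; rw [hc]; simp only [hv, if_false]
  refine ⟨c, ?_⟩
  intro F hF hm x y hxy hx hr
  obtain ⟨T, hTF, hP⟩ := hr.toPS
  have hTS : T ⊆ S := hTF.trans hF
  have hmT : ∀ u ∈ T, ∀ v ∈ T, c u = c v := fun u hu v hv => hm u (hTF hu) v (hTF hv)
  have hst : ∀ p ∈ T, ∀ q ∈ T, Rc R T p q := by
    intro p hp q hq
    exact ((hP.2.2 p hp).2.tail hxy hP.1).trans (hP.2.2 q hq).1
  by_cases hA : ∀ p ∈ T, p ∉ X
  · have hTD : T ⊆ D1 := by
      intro p hp
      rw [hD1, mem_insert, mem_sdiff]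
      by_cases hpz : p = z
      · exact Or.inl hpz
      · exact Or.inr ⟨mem_erase.mpr ⟨hpz, hTS hp⟩, hA p hp⟩
    refine h1 T hTD ?_ x y (hR1 x (hTD hP.2.1) y (hTD hP.1) hxy) hP.2.1 ?_
    · intro u hu v hv
      rw [← hcY u (hA u hu), ← hcY v (hA v hv)]
      exact hmT u hu v hv
    · exact hP.rc.change (Subset.refl _) (fun a ha b hb => hR1 a (hTD ha) b (hTD hb))
  push Not at hA
  obtain ⟨p, hpT, hpX⟩ := hA
  have hc2 : ∀ T' ⊆ T, T' ⊆ D2 → ∀ u ∈ T', ∀ v ∈ T', c2 u = c2 v := by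
    intro T' hT' hT'D u hu v hv
    have := hmT u (hT' hu) v (hT' hv)
    rw [hcX u (hT'D hu), hcX v (hT'D hv)] at this
    exact (Equiv.swap (c2 z) (c1 z)).injective this
  by_cases hB : ∀ q ∈ T, q ∈ D2
  · exact h2 T hB (hc2 T (Subset.refl _) hB) x y (hR2 x (hB x hP.2.1) y (hB y hP.1) hxy) hP.2.1
      (hP.rc.change (Subset.refl _) (fun a ha b hb => hR2 a (hB a ha) b (hB b hb)))
  push Not at hB
  obtain ⟨q, hqT, hqD⟩ := hB
  have hqz : q ≠ z := by
    rintro rfl; apply hqD; rw [hD2]; exact mem_insert_self _ _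
  have hqX : q ∉ X := by
    intro h; apply hqD; rw [hD2]; exact mem_insert_of_mem h
  -- `z` is in `T`
  have hzT : z ∈ T := by
    by_contra hzT
    have hTz : T ⊆ S.erase z := by
      intro v hv
      refine mem_erase.mpr ⟨?_, hTS hv⟩
      rintro rfl; exact hzT hv
    exact hqX (mem_inter.mp (Rc.closed hcl hpX hTz (hst p hpT q hqT)).right).2
  have hTe : T.erase z ⊆ S.erase z := erase_subset_erase _ hTS
  have hpz : p ≠ z := by rintro rfl; exact hzX hpX
  have clsmem : ∀ v ∈ T, v ∉ X → v ∈ cls := by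
    intro v hv hvX
    rw [hcls, mem_filter, hD1, mem_insert, mem_sdiff]
    refine ⟨?_, ?_⟩
    · by_cases hvz : v = z
      · exact Or.inl hvz
      · exact Or.inr ⟨mem_erase.mpr ⟨hvz, hTS hv⟩, hvX⟩
    · rw [← hcY v hvX, ← hcY z hzX]
      exact hmT v hv z hzT
  obtain ⟨w, hwT, hwX, hzw⟩ : ∃ w ∈ T, w ∈ X ∧ R2 z w := by
    obtain ⟨n, hn, hr1⟩ := (hst z hzT p hpT).out hpz
    obtain ⟨x0, hx0X, hx0T, T', hT', hr2, hT'X⟩ := hr1.firstHit (fun v => v ∈ X) hpX
    refine ⟨x0, (mem_erase.mp hx0T).2, hx0X, ?_⟩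
    by_cases hnx : n = x0
    · subst hnx
      exact hW n hx0X z hzcls hn (Rc.rfl' hzcls)
    · obtain ⟨u, hu, hr3⟩ := hr2.inn hnx
      have hsub : T'.erase x0 ⊆ cls := by
        intro v hv
        exact clsmem v (mem_erase.mp (hT' (mem_erase.mp hv).2)).2
          (fun h => (mem_erase.mp hv).1 (hT'X v (mem_erase.mp hv).2 h))
      exact hW x0 hx0X u (hsub hr3.right) hu (Rc.head hn hzcls (hr3.mono hsub))
  have hwz : w ≠ z := by rintro rfl; exact hzX hwX
  obtain ⟨b, hb, hr4⟩ := (hst w hwT z hzT).inn hwz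
  have hr5 := Rc.closed hcl hwX hTe hr4
  have hsub2 : T ∩ D2 ⊆ D2 := inter_subset_right
  have hr6 : Rc R (T ∩ D2) w z := by
    refine (hr5.mono ?_).tail hb (mem_inter.mpr ⟨hzT, by rw [hD2]; exact mem_insert_self _ _⟩)
    intro v hv
    rw [mem_inter] at hv ⊢
    exact ⟨(mem_erase.mp hv.1).2, by rw [hD2]; exact mem_insert_of_mem hv.2⟩
  refine h2 (T ∩ D2) hsub2 (hc2 _ inter_subset_left hsub2) z w hzw hr6.right ?_
  exact hr6.change (Subset.refl _) (fun a ha b hb => hR2 a (hsub2 ha) b (hsub2 hb))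

theorem Rc.rin {R : V → V → Prop} {S T : Finset V} {u v : V} (h : Rc R T u v) (hT : T ⊆ S) :
    Rc (Rin R S) T u v :=
  h.change (Subset.refl _) (fun _ ha _ hb hab => ⟨hab, hT ha, hT hb⟩)

/-- one step of the reduction -/
theorem reduce_step [Fintype V] {k : ℕ} {R : V → V → Prop} {S : Finset V} {n : ℕ}
    (hirr : ∀ v, ¬ R v v) (hn : S.card ≤ n + 1) (hstr : ∀ u ∈ S, ∀ v ∈ S, Rc R S u v)
    (hN : ¬ Neck (Rin R S)) {z : V} {X : Finset V} (hP : Piece R S z X)
    (hmin : ∀ z' X', Piece R S z' X' → X.card ≤ X'.card)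
    (ih : ∀ (R' : V → V → Prop) (S' : Finset V), S' ⊆ S → S'.card ≤ n →
      (∀ a ∈ S', ∀ b ∈ S', R a b → R' a b) → (∀ v, ¬ R' v v) → ¬ Neck R' →
      Colr R' (Fin (k + 2)) S') : Colr R (Fin (k + 2)) S := by
  have hP' := hP
  obtain ⟨hz, hXS, ⟨p0, hp0⟩, ⟨y0, hy0, hy0X⟩, hcl⟩ := hP
  have hzX : z ∉ X := fun h => (mem_erase.mp (hXS h)).1 rfl
  obtain ⟨Y, hY⟩ : ∃ Y, Y = (S.erase z) \ X := ⟨_, rfl⟩
  obtain ⟨D1, hD1⟩ : ∃ D1, D1 = insert z Y := ⟨_, rfl⟩
  obtain ⟨D2, hD2⟩ : ∃ D2, D2 = insert z X := ⟨_, rfl⟩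
  have memY : ∀ v, v ∈ Y ↔ v ≠ z ∧ v ∈ S ∧ v ∉ X := by
    intro v; rw [hY, mem_sdiff, mem_erase]; tauto
  have memD1 : ∀ v, v ∈ D1 ↔ v = z ∨ v ∈ Y := by intro v; rw [hD1, mem_insert]
  have memD2 : ∀ v, v ∈ D2 ↔ v = z ∨ v ∈ X := by intro v; rw [hD2, mem_insert]
  have hXsub : X ⊆ S := hXS.trans (erase_subset _ _)
  have hD1S : D1 ⊆ S := by
    intro v hv
    rcases (memD1 v).mp hv with rfl | h
    · exact hz
    · exact ((memY v).mp h).2.1
  have hD2S : D2 ⊆ S := by
    intro v hv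
    rcases (memD2 v).mp hv with rfl | h
    · exact hz
    · exact hXsub h
  have hD12 : ∀ v, v ∈ D1 → v ∈ D2 → v = z := by
    intro v h1 h2
    rcases (memD1 v).mp h1 with h | h
    · exact h
    · rcases (memD2 v).mp h2 with h' | h'
      · exact h'
      · exact absurd h' ((memY v).mp h).2.2
  have hy0Y : y0 ∈ Y := (memY y0).mpr ⟨(mem_erase.mp hy0).1, (mem_erase.mp hy0).2, hy0X⟩
  have hcard1 : D1.card ≤ n := by
    have h1 : D1 ⊂ S := by
      rw [Finset.ssubset_iff_of_subset hD1S]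
      exact ⟨p0, hXsub hp0, fun h => hzX (hD12 p0 h ((memD2 p0).mpr (Or.inr hp0)) ▸ hp0)⟩
    have := card_lt_card h1
    omega
  have hcard2 : D2.card ≤ n := by
    have h1 : D2 ⊂ S := by
      rw [Finset.ssubset_iff_of_subset hD2S]
      refine ⟨y0, (mem_erase.mp hy0).2, fun h => ?_⟩
      exact (mem_erase.mp hy0).1 (hD12 y0 ((memD1 y0).mpr (Or.inr hy0Y)) h)
    have := card_lt_card h1
    omega
  -- paths from the piece to `z`
  have toz : ∀ w ∈ X, Rc R D2 w z := by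
    intro w hw
    have hwz : w ≠ z := by rintro rfl; exact hzX hw
    obtain ⟨b, hb, h1⟩ := (hstr w (hXsub hw) z hz).inn hwz
    have h2 := Rc.closed hcl hw (Subset.refl _) h1
    refine (h2.mono ?_).tail hb ((memD2 z).mpr (Or.inl rfl))
    intro v hv
    exact (memD2 v).mpr (Or.inr (mem_inter.mp hv).2)
  -- the special vertices of the piece
  obtain ⟨Ts, hTs⟩ : ∃ Ts : V → Prop, Ts = fun w => w ∈ X ∧ ∃ u1 ∈ Y, ∃ u2 ∈ Y,
      (∀ w' ∈ X, R u1 w' ↔ w' = w) ∧ (∀ w' ∈ X, R u2 w' ↔ w' = w) ∧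
      ∃ P1 P2, P1 ⊆ D1 ∧ P2 ⊆ D1 ∧ Rc R P1 z u1 ∧ Rc R P2 z u2 ∧ ∀ x ∈ P1, x ∈ P2 → x = z := ⟨_, rfl⟩
  obtain ⟨U, hU⟩ : ∃ U : V → Prop, U = fun u => u ∈ Y ∧ ∃ w ∈ X, ¬ Ts w ∧ R u w := ⟨_, rfl⟩
  obtain ⟨R1, hR1⟩ : ∃ R1 : V → V → Prop, R1 = fun a b => (R a b ∧ a ∈ D1 ∧ b ∈ D1) ∨ (b = z ∧ U a) :=
    ⟨_, rfl⟩
  have hN1 : ¬ Neck R1 := by
    intro hneck
    rcases nf (R := Rin R S) (R' := R1) (z := z) (U := U) (D := D1) (by
      intro a b hab
      rw [hR1] at hab
      rcases hab with h | h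
      · exact Or.inl ⟨h.1, hD1S h.2.1, hD1S h.2.2⟩
      · exact Or.inr h) (by
      intro a b hab
      rw [hR1] at hab
      rcases hab with h | ⟨h1, h2⟩
      · exact h.2
      · rw [hU] at h2
        exact ⟨(memD1 a).mpr (Or.inr h2.1), (memD1 b).mpr (Or.inl h1)⟩) hneck with h | h | h
    · exact hN h
    · obtain ⟨u, huD, hUu, huz, f⟩ := h
      rw [hU] at hUu
      obtain ⟨huY, w, hw, _, huw⟩ := hUu
      apply hN
      apply f (insert u D2)
      · refine Rc.rin (Rc.head huw (mem_insert_self _ _) ((toz w hw).mono (subset_insert _ _))) ?_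
        exact insert_subset (hD1S huD) hD2S
      · intro x hx hxD
        rcases mem_insert.mp hx with h | h
        · exact Or.inl h
        · exact Or.inr (hD12 x hxD h)
    · obtain ⟨u1, hu1D, u2, hu2D, hne, hu1z, hu2z, hU1, hU2, f, P1, P2, hP1, hP2, r1, r2, hPP⟩ := h
      rw [hU] at hU1 hU2
      obtain ⟨hu1Y, v1, hv1, hv1T, huv1⟩ := hU1
      obtain ⟨hu2Y, v2, hv2, hv2T, huv2⟩ := hU2
      by_cases hex : ∃ w1 ∈ X, ∃ w2 ∈ X, R u1 w1 ∧ R u2 w2 ∧ w1 ≠ w2
      · obtain ⟨w1, hw1, w2, hw2, e1, e2, hww⟩ := hex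
        obtain ⟨B1, B2, b1, b2, b3, b4, b5⟩ := hP'.fan hmin hw1 hw2 hww
        apply hN
        have hu1X : u1 ∉ D2 := fun h => hu1z (hD12 u1 hu1D h)
        have hu2X : u2 ∉ D2 := fun h => hu2z (hD12 u2 hu2D h)
        rw [← hD2] at b1 b2
        apply f (insert u1 B1) (insert u2 B2)
        · exact Rc.rin (Rc.head e1 (mem_insert_self _ _) (b3.mono (subset_insert _ _)))
            (insert_subset (hD1S hu1D) (b1.trans hD2S))
        · exact Rc.rin (Rc.head e2 (mem_insert_self _ _) (b4.mono (subset_insert _ _)))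
            (insert_subset (hD1S hu2D) (b2.trans hD2S))
        · intro x hx hxD
          rcases mem_insert.mp hx with h | h
          · exact Or.inl h
          · exact Or.inr (hD12 x hxD (b1 h))
        · intro x hx hxD
          rcases mem_insert.mp hx with h | h
          · exact Or.inl h
          · exact Or.inr (hD12 x hxD (b2 h))
        · intro x hx hx'
          rcases mem_insert.mp hx with h | h
          · rcases mem_insert.mp hx' with h' | h'
            · exact absurd (h.symm.trans h') hne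
            · exact absurd (h ▸ b2 h') hu1X
          · rcases mem_insert.mp hx' with h' | h'
            · exact absurd (h' ▸ b1 h) hu2X
            · exact b5 x h h'
      · push Not at hex
        apply hv1T
        rw [hTs]
        have h12 : v1 = v2 := hex v1 hv1 v2 hv2 huv1 huv2
        refine ⟨hv1, u1, hu1Y, u2, hu2Y, ?_, ?_, P1, P2, hP1, hP2,
          r1.monoR (fun _ _ h => h.1), r2.monoR (fun _ _ h => h.1), hPP⟩
        · intro w' hw'
          refine ⟨fun h => ?_, fun h => h ▸ huv1⟩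
          rw [hex w' hw' v2 hv2 h huv2, h12]
        · intro w' hw'
          refine ⟨fun h => (hex v1 hv1 w' hw' huv1 h).symm, fun h => ?_⟩
          rw [h, h12]; exact huv2
  have hR1irr : ∀ v, ¬ R1 v v := by
    intro v hv
    rw [hR1] at hv
    rcases hv with h | ⟨h1, h2⟩
    · exact hirr v h.1
    · rw [hU] at h2
      exact ((memY v).mp h2.1).1 h1
  obtain ⟨c1, hc1⟩ := ih R1 D1 hD1S hcard1 (by
    intro a ha b hb hab; rw [hR1]; exact Or.inl ⟨hab, ha, hb⟩) hR1irr hN1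
  obtain ⟨cls, hcls⟩ : ∃ cls, cls = D1.filter (fun v => c1 v = c1 z) := ⟨_, rfl⟩
  have hclsD : cls ⊆ D1 := by rw [hcls]; exact filter_subset _ _
  have hzD1 : z ∈ D1 := (memD1 z).mpr (Or.inl rfl)
  have hzcls : z ∈ cls := by rw [hcls, mem_filter]; exact ⟨hzD1, rfl⟩
  have hclsAc : Ac R1 cls := by
    refine hc1 cls hclsD ?_
    intro u hu v hv
    rw [hcls, mem_filter] at hu hv
    rw [hu.2, hv.2]
  obtain ⟨W0, hW0⟩ : ∃ W0 : V → Prop, W0 = fun w => w ∈ X ∧ ∃ u ∈ cls, R u w ∧ Rc R cls z u := ⟨_, rfl⟩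
  have claim : ∀ w, W0 w → ¬ R z w → Ts w := by
    intro w hw hzw
    rw [hW0] at hw
    obtain ⟨hwX, u, hu, huw, hzu⟩ := hw
    have huz : u ≠ z := by rintro rfl; exact hzw huw
    have huY : u ∈ Y := ((memD1 u).mp (hclsD hu)).resolve_left huz
    by_contra hT
    have hUu : U u := by rw [hU]; exact ⟨huY, w, hwX, hT, huw⟩
    refine hclsAc u z (by rw [hR1]; exact Or.inr ⟨rfl, hUu⟩) hu ?_
    refine hzu.change (Subset.refl _) ?_
    intro a ha b hb hab
    rw [hR1]; exact Or.inl ⟨hab, hclsD ha, hclsD hb⟩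
  obtain ⟨R2, hR2⟩ : ∃ R2 : V → V → Prop, R2 = fun a b => (R a b ∧ a ∈ D2 ∧ b ∈ D2) ∨ (a = z ∧ W0 b) :=
    ⟨_, rfl⟩
  have hN2 : ¬ Neck R2 := by
    intro hneck
    rcases nf (R := Rv (Rin R S)) (R' := Rv R2) (z := z) (U := fun b => W0 b ∧ ¬ R z b) (D := D2) (by
      intro a b hab
      have hab' : R2 b a := hab
      rw [hR2] at hab'
      rcases hab' with h | ⟨h1, h2⟩
      · exact Or.inl ⟨h.1, hD2S h.2.1, hD2S h.2.2⟩
      · by_cases hza : R z a
        · left
          refine ⟨by rw [h1]; exact hza, by rw [h1]; exact hz, ?_⟩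
          rw [hW0] at h2
          exact hXsub h2.1
        · exact Or.inr ⟨h1, h2, hza⟩) (by
      intro a b hab
      have hab' : R2 b a := hab
      rw [hR2] at hab'
      rcases hab' with h | ⟨h1, h2⟩
      · exact ⟨h.2.2, h.2.1⟩
      · rw [hW0] at h2
        exact ⟨(memD2 a).mpr (Or.inr h2.1), (memD2 b).mpr (Or.inl h1)⟩) hneck.rv with h | h | h
    · exact hN h.rv
    · obtain ⟨w, hwD, ⟨hWw, hzw⟩, hwz, f⟩ := h
      rw [hW0] at hWw
      obtain ⟨hwX, u, hu, huw, hzu⟩ := hWw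
      apply hN
      apply Neck.rv
      apply f (insert w cls)
      · apply Rc.rv
        refine Rc.rin (((hzu.mono (subset_insert _ _)).tail huw (mem_insert_self _ _))) ?_
        exact insert_subset (hXsub hwX) (hclsD.trans hD1S)
      · intro x hx hxD
        rcases mem_insert.mp hx with h | h
        · exact Or.inl h
        · exact Or.inr (hD12 x (hclsD h) hxD)
    · obtain ⟨w1, hw1D, w2, hw2D, hne, hw1z, hw2z, ⟨hW1, hzw1⟩, ⟨hW2, hzw2⟩, f, _⟩ := h
      have hT1 := claim w1 hW1 hzw1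
      have hT2 := claim w2 hW2 hzw2
      rw [hTs] at hT1 hT2
      obtain ⟨hw1X, u1, hu1Y, u2, hu2Y, n1, n2, P1, P2, hP1, hP2, r1, r2, hPP⟩ := hT1
      obtain ⟨hw2X, v1, hv1Y, v2, hv2Y, m1, m2, Q1, Q2, hQ1, hQ2, s1, s2, hQQ⟩ := hT2
      have hw1Y : w1 ∉ Y := fun h => ((memY w1).mp h).2.2 hw1X
      have hw2Y : w2 ∉ Y := fun h => ((memY w2).mp h).2.2 hw2X
      -- a path from `z` to `w` avoiding `x`
      have path : ∀ (w u x : V) (P : Finset V), (w = w1 ∨ w = w2) → x ≠ w → P ⊆ D1 → x ∉ P → u ∈ Y →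
          R u w → Rc R P z u → ∃ a b, R z a ∧ (b = w1 ∨ b = w2) ∧
            Rc R ((insert w1 (insert w2 Y)).erase x) a b := by
        intro w u x P hw hxw hPD hxP huY huw hr
        have huz : u ≠ z := ((memY u).mp huY).1
        obtain ⟨a, ha, hr1⟩ := hr.out huz
        refine ⟨a, w, ha, hw, ?_⟩
        refine Rc.tail (hr1.mono ?_) huw ?_
        · intro v hv
          rw [mem_erase] at hv ⊢
          refine ⟨fun e => hxP (e ▸ hv.2), ?_⟩
          rw [mem_insert, mem_insert]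
          exact Or.inr (Or.inr (((memD1 v).mp (hPD hv.2)).resolve_left hv.1))
        · rw [mem_erase, mem_insert, mem_insert]
          refine ⟨Ne.symm hxw, ?_⟩
          rcases hw with h | h
          · exact Or.inl h
          · exact Or.inr (Or.inl h)
      have hD1X : ∀ x ∈ X, ∀ P ⊆ D1, x ∉ P := by
        intro x hx P hP hxP
        have := hD12 x (hP hxP) ((memD2 x).mpr (Or.inr hx))
        exact hzX (this ▸ hx)
      obtain ⟨B1, B2, b1, b2, b3, b4, b5⟩ := fan_out (R := R) hw1Y hw2Y hne hw1z hw2z (by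
        intro x
        by_cases hx1 : x = w1
        · have h1 : x ≠ w2 := fun e => hne (hx1.symm.trans e)
          exact path w2 v1 x Q1 (Or.inr rfl) h1 hQ1 (hD1X x (hx1 ▸ hw1X) Q1 hQ1) hv1Y
            ((m1 w2 hw2X).mpr rfl) s1
        · by_cases hxP1 : x ∈ P1
          · by_cases hxz : x = z
            · -- use a path avoiding nothing
              subst hxz
              have huz : u1 ≠ x := ((memY u1).mp hu1Y).1
              obtain ⟨a, ha, hr1⟩ := r1.out huz
              refine ⟨a, w1, ha, Or.inl rfl, ?_⟩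
              refine Rc.tail (hr1.mono ?_) ((n1 w1 hw1X).mpr rfl) ?_
              · intro v hv
                rw [mem_erase] at hv ⊢
                refine ⟨hv.1, ?_⟩
                rw [mem_insert, mem_insert]
                exact Or.inr (Or.inr (((memD1 v).mp (hP1 hv.2)).resolve_left hv.1))
              · rw [mem_erase, mem_insert]
                exact ⟨hw1z, Or.inl rfl⟩
            · have hxP2 : x ∉ P2 := fun h => hxz (hPP x hxP1 h)
              exact path w1 u2 x P2 (Or.inl rfl) hx1 hP2 hxP2 hu2Y ((n2 w1 hw1X).mpr rfl) r2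
          · exact path w1 u1 x P1 (Or.inl rfl) hx1 hP1 hxP1 hu1Y ((n1 w1 hw1X).mpr rfl) r1)
      have hBD : ∀ (B : Finset V) (w : V), B ⊆ insert z (insert w Y) → ∀ x ∈ B, x ∈ D2 → x = w ∨ x = z := by
        intro B w hB x hx hxD
        have h1 := hB hx
        rw [mem_insert, mem_insert] at h1
        rcases h1 with h | h | h
        · exact Or.inr h
        · exact Or.inl h
        · exact Or.inr (hD12 x ((memD1 x).mpr (Or.inr h)) hxD)
      have hBS : ∀ (B : Finset V) (w : V), w ∈ X → B ⊆ insert z (insert w Y) → B ⊆ S := by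
        intro B w hw hB x hx
        have h1 := hB hx
        rw [mem_insert, mem_insert] at h1
        rcases h1 with h | h | h
        · rw [h]; exact hz
        · rw [h]; exact hXsub hw
        · exact ((memY x).mp h).2.1
      apply hN
      apply Neck.rv
      exact f B1 B2 (Rc.rin b3 (hBS B1 w1 hw1X b1)).rv (Rc.rin b4 (hBS B2 w2 hw2X b2)).rv
        (hBD B1 w1 b1) (hBD B2 w2 b2) b5
  have hR2irr : ∀ v, ¬ R2 v v := by
    intro v hv
    rw [hR2] at hv
    rcases hv with h | ⟨h1, h2⟩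
    · exact hirr v h.1
    · rw [hW0] at h2
      exact hzX (h1 ▸ h2.1)
  obtain ⟨c2, hc2⟩ := ih R2 D2 hD2S hcard2 (by
    intro a ha b hb hab; rw [hR2]; exact Or.inl ⟨hab, ha, hb⟩) hR2irr hN2
  refine combine (R1 := R1) (R2 := R2) (c1 := c1) (c2 := c2) hz hXS hcl (by rw [hD1, hY]) hD2 hcls ?_ ?_ ?_ hc1 hc2
  · intro a ha b hb hab; rw [hR1]; exact Or.inl ⟨hab, ha, hb⟩
  · intro a ha b hb hab; rw [hR2]; exact Or.inl ⟨hab, ha, hb⟩
  · intro w hw u hu huw hzu
    rw [hR2]; right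
    refine ⟨rfl, ?_⟩
    rw [hW0]; exact ⟨hw, u, hu, huw, hzu⟩

/-- the reduction, for a class of digraphs closed under induced subdigraphs and added arcs -/
theorem reduce [Fintype V] {k : ℕ} (P : (V → V → Prop) → Finset V → Prop)
    (hP : ∀ (R : V → V → Prop) (S : Finset V) (R' : V → V → Prop) (S' : Finset V), P R S → S' ⊆ S →
      (∀ a ∈ S', ∀ b ∈ S', R a b → R' a b) → P R' S')
    (base : ∀ (R : V → V → Prop) (S : Finset V), P R S → (∀ v, ¬ R v v) → TwoStr R S →
      ¬ Neck (Rin R S) → Colr R (Fin (k + 2)) S) :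
    ∀ (n : ℕ) (R : V → V → Prop) (S : Finset V), S.card ≤ n → P R S → (∀ v, ¬ R v v) →
      ¬ Neck (Rin R S) → Colr R (Fin (k + 2)) S := by
  intro n
  induction n with
  | zero =>
    intro R S hS _ hirr _
    exact colr_small hirr (by omega)
  | succ n ih =>
    intro R S hS hPS hirr hN
    by_cases hstr : ∀ u ∈ S, ∀ v ∈ S, Rc R S u v
    swap
    · push Not at hstr
      obtain ⟨u, hu, v, hv, huv⟩ := hstr
      refine colr_split hu hv huv ?_
      intro T hT
      refine ih R T (by have := card_lt_card hT; omega) (hP R S R T hPS hT.1 (fun _ _ _ _ h => h)) hirr ?_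
      intro h
      exact hN (h.monoR (fun a b hab => ⟨hab.1, hT.1 hab.2.1, hT.1 hab.2.2⟩))
    by_cases h3 : 3 ≤ S.card
    swap
    · exact colr_small hirr (by omega)
    by_cases h2 : TwoStr R S
    · exact base R S hPS hirr h2 hN
    obtain ⟨z, X, hX, hmin⟩ := exists_piece h3 h2
    refine reduce_step hirr hS hstr hN hX hmin ?_
    intro R' S' hS' hcard hRR hirr' hN'
    refine ih R' S' hcard (hP R S R' S' hPS hS' hRR) hirr' ?_
    intro h
    exact hN' (h.monoR (fun a b hab => hab.1))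

end main

end Pool.Agent.Lib.NK
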