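import Mathlib
import Pool.Agent.Lib.NK.Reduce2

set_option autoImplicit false

/-! Neighbourhoods in strongly 2-connected necklace-free digraphs (MP_c62493_co). -/

namespace Pool.Agent.Lib.NK

open Finset
open scoped Classical

section local'
variable {V : Type*} {R : V → V → Prop} {S : Finset V}

theorem TwoStr.rv (h : TwoStr R S) : TwoStr (Rv R) S :=
  ⟨h.1, fun z hz a ha b hb => (h.2 z hz b hb a ha).rv⟩

theorem TwoStr.ex (h : TwoStr R S) {v : V} : ∃ z ∈ S, z ≠ v := by
  have h3 := h.1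
  by_contra hcon
  push Not at hcon
  have : S ⊆ {v} := fun z hz => by rw [mem_singleton]; exact hcon z hz
  have := card_le_card this
  simp at this
  omega

theorem neck_four {E F G H : Finset V} {a m t s : V} (h1 : Link R E a m) (h2 : Link R F m t)
    (h3 : Link R G t s) (h4 : Link R H s a)
    (hEF : ∀ x ∈ E, x ∈ F → x = m) (hFG : ∀ x ∈ F, x ∈ G → x = t)
    (hGH : ∀ x ∈ G, x ∈ H → x = s) (hEH : ∀ x ∈ E, x ∈ H → x = a)
    (hEG : ∀ x ∈ E, x ∉ G) (hFH : ∀ x ∈ F, x ∉ H) : Neck R := by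
  refine ⟨3, a, s, E ∪ (F ∪ (G ∪ {s})), H, by omega,
    Ch.cons h1 (Ch.cons h2 (Ch.cons h3 (Ch.nil s) ?_) ?_) ?_, h4, ?_⟩
  · intro x _ hx; simpa using hx
  · intro x hx hx'
    rcases mem_union.mp hx' with h | h
    · exact hFG x hx h
    · rw [mem_singleton] at h; subst h
      exact absurd h4.left (hFH x hx)
  · intro x hx hx'
    simp only [mem_union, mem_singleton] at hx'
    rcases hx' with h | h | h
    · exact hEF x hx h
    · exact absurd h (hEG x hx)
    · subst h; exact absurd h3.right (hEG x hx)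
  · intro x hx hx'
    simp only [mem_union, mem_singleton] at hx
    rcases hx with h | h | h | h
    · exact Or.inl (hEH x h hx')
    · exact absurd hx' (hFH x h)
    · exact Or.inr (hGH x h hx')
    · exact Or.inr h

/-- the out-neighbourhood of a vertex is acyclic -/
theorem TwoStr.out_ac [Fintype V] (hirr : ∀ v, ¬ R v v) (h : TwoStr R S) (hN : ¬ Neck R) {v : V}
    (hv : v ∈ S) : Ac R (S.filter (fun b => R v b)) := by
  by_contra hac
  obtain ⟨g, hg, hC, x, hx, y, hy, hxy⟩ := exists_circ_of_not_ac hirr hac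
  have hgS : ∀ z ∈ g, z ∈ S ∧ R v z := fun z hz => mem_filter.mp (hg hz)
  have hgv : ∀ z ∈ g, z ≠ v := by
    rintro z hz rfl; exact hirr _ (hgS _ hz).2
  have step : ∀ z ∈ S, ∀ a ∈ g, a ≠ z → z ≠ v → ∃ u, R u v ∧ Rc R ((S.erase z).erase v) a u := by
    intro z hz a ha haz hzv
    exact (h.2 z hz a (mem_erase.mpr ⟨haz, (hgS a ha).1⟩) v (mem_erase.mpr ⟨hzv.symm, hv⟩)).inn (hgv a ha)
  obtain ⟨S1, S2, a1, b1, a2, b2, g1, g2, ha1, ha2, hb1, hb2, r1, r2, hdis⟩ :=
    menger2 (R := R) (X := S.erase v) (fun a => a ∈ g) (fun b => R b v) x (by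
      intro z
      by_cases hz : z ∈ S ∧ z ≠ v
      · obtain ⟨a, ha, haz⟩ : ∃ a ∈ g, a ≠ z := by
          by_cases h1 : x = z
          · exact ⟨y, hy, fun e => hxy (h1.trans e.symm)⟩
          · exact ⟨x, hx, h1⟩
        obtain ⟨u, hu, hr⟩ := step z hz.1 a ha haz hz.2
        refine ⟨a, u, ha, hu, hr.mono ?_⟩
        intro w hw
        simp only [mem_erase] at hw ⊢
        tauto
      · obtain ⟨u, hu, hr⟩ := step y (hgS y hy).1 x hx hxy (hgv y hy)
        refine ⟨x, u, hx, hu, hr.mono ?_⟩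
        intro w hw
        simp only [mem_erase] at hw ⊢
        refine ⟨?_, hw.1, hw.2.2⟩
        rintro rfl
        exact hz ⟨hw.2.2, hw.1⟩)
  obtain ⟨x1, hx1, _, T1, hT1, q1, k1⟩ := r1.lastHit (fun a => a ∈ g) ha1
  obtain ⟨x2, hx2, _, T2, hT2, q2, k2⟩ := r2.lastHit (fun a => a ∈ g) ha2
  have hne : x1 ≠ x2 := by
    rintro rfl
    exact hdis _ (hT1 q1.left) (hT2 q2.left)
  have hvT1 : v ∉ T1 := fun hh => (mem_erase.mp (g1 (hT1 hh))).1 rfl
  have hvT2 : v ∉ T2 := fun hh => (mem_erase.mp (g2 (hT2 hh))).1 rfl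
  have lk : ∀ (T : Finset V) (x b : V), x ∈ g → Rc R T x b → R b v → Link R (insert v T) v x := by
    intro T x b hx hr hb
    refine ⟨(hgv x hx).symm, {v, x}, insert v T, Rc.step (hgS x hx).2 (by simp) (by simp),
      (hr.mono (subset_insert _ _)).tail hb (mem_insert_self _ _), ?_, ?_, Subset.refl _⟩
    · intro z hz _; simpa using hz
    · intro z hz
      rcases mem_insert.mp hz with h1 | h1
      · exact h1 ▸ mem_insert_self _ _
      · rw [mem_singleton] at h1; exact h1 ▸ mem_insert_of_mem hr.left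
  refine hN (neck_three (lk T1 x1 b1 hx1 q1 hb1) (hC.link hx1 hx2 hne) (lk T2 x2 b2 hx2 q2 hb2).symm
    ?_ ?_ ?_)
  · intro z hz hz'
    rcases mem_insert.mp hz with h1 | h1
    · exact absurd h1 (hgv z hz')
    · exact k1 z h1 hz'
  · intro z hz' hz
    rcases mem_insert.mp hz with h1 | h1
    · exact absurd h1 (hgv z hz')
    · exact k2 z h1 hz'
  · intro z hz hz'
    rcases mem_insert.mp hz with h1 | h1
    · exact h1
    · rcases mem_insert.mp hz' with h2 | h2
      · exact h2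
      · exact absurd (hT2 h2) (hdis z (hT1 h1))

/-- the in-neighbourhood of a vertex is acyclic -/
theorem TwoStr.in_ac [Fintype V] (hirr : ∀ v, ¬ R v v) (h : TwoStr R S) (hN : ¬ Neck R) {v : V}
    (hv : v ∈ S) : Ac R (S.filter (fun b => R b v)) := by
  have h1 := TwoStr.out_ac (R := Rv R) hirr h.rv (fun hh => hN hh.rv) hv
  exact h1.rv

theorem two_sided (hirr : ∀ v, ¬ R v v) (h : TwoStr R S) (hN : ¬ Neck R)
    {v m x2 x1 : V} (hv : v ∈ S) (hm : m ∈ S) (hmv : m ≠ v) {g1 g2 : Finset V}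
    (hg2 : ∀ z ∈ g2, z ≠ m → z ∈ S ∧ R v z) (hg1 : ∀ z ∈ g1, z ≠ m → z ∈ S ∧ R z v ∧ ¬ R v z)
    (hm2 : m ∈ g2) (hm1 : m ∈ g1) (hC2 : Circ R g2) (hC1 : Circ R g1) (hx2 : x2 ∈ g2)
    (hx2m : x2 ≠ m) (hx1 : x1 ∈ g1) (hx1m : x1 ≠ m) : False := by
  have hv2 : v ∉ g2 := fun hh => hirr v (hg2 v hh hmv.symm).2
  have hv1 : v ∉ g1 := fun hh => hirr v (hg1 v hh hmv.symm).2.1
  have h12 : ∀ z ∈ g2, z ∈ g1 → z = m := by
    intro z hz hz'
    by_contra hne
    exact (hg1 z hz' hne).2.2 (hg2 z hz hne).2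
  have hr0 := h.2 m hm x2 (mem_erase.mpr ⟨hx2m, (hg2 x2 hx2 hx2m).1⟩) x1
    (mem_erase.mpr ⟨hx1m, (hg1 x1 hx1 hx1m).1⟩)
  obtain ⟨x, hx, _, T, hT, hr, hTx⟩ := hr0.lastHit (fun z => z ∈ g2) hx2
  obtain ⟨y, hy, _, T', hT', hr', hTy⟩ := hr.firstHit (fun z => z ∈ g1) hx1
  have hTm : ∀ z ∈ T', z ≠ m := fun z hz => (mem_erase.mp (hT (hT' hz))).1
  have hxm : x ≠ m := hTm x hr'.left
  have hym : y ≠ m := hTm y hr'.right
  have hvx : R v x := (hg2 x hx hxm).2
  have hyv : R y v := (hg1 y hy hym).2.1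
  have hxv : x ≠ v := by rintro rfl; exact hv2 hx
  have hyv' : y ≠ v := by rintro rfl; exact hv1 hy
  have hxy : x ≠ y := by
    rintro rfl; exact hxm (h12 x hx hy)
  have hT2 : ∀ z ∈ T', z ∈ g2 → z = x := fun z hz hz' => hTx z (hT' hz) hz'
  by_cases hcut : Rc R (T'.erase v) x y
  · -- the path avoids `v`
    have hl : Link R (insert v T') x y := by
      refine ⟨hxy, T'.erase v, {y, v, x}, hcut, ?_, ?_, (erase_subset _ _).trans (subset_insert _ _), ?_⟩
      · exact (Rc.step hyv (by simp) (by simp)).tail hvx (by simp)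
      · intro z hz hz'
        simp only [mem_insert, mem_singleton] at hz'
        rcases hz' with h1 | h1 | h1
        · exact Or.inr h1
        · exact absurd h1 (mem_erase.mp hz).1
        · exact Or.inl h1
      · intro z hz
        simp only [mem_insert, mem_singleton] at hz ⊢
        rcases hz with h1 | h1 | h1
        · right; exact h1 ▸ hr'.right
        · exact Or.inl h1
        · right; exact h1 ▸ hr'.left
    refine hN (neck_three (hC2.link hm2 hx hxm.symm) hl (hC1.link hy hm1 hym) ?_ ?_ ?_)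
    · intro z hz hz'
      rcases mem_insert.mp hz' with h1 | h1
      · exact absurd (h1 ▸ hz) hv2
      · exact hT2 z h1 hz
    · intro z hz' hz
      rcases mem_insert.mp hz' with h1 | h1
      · exact absurd (h1 ▸ hz) hv1
      · exact hTy z h1 hz
    · exact h12
  · -- the path passes through `v`
    rcases hr'.cut v with h1 | ⟨h1, h2⟩
    · exact hcut h1
    obtain ⟨u, hu, q1⟩ := h1.inn hxv
    obtain ⟨n, hn, q2⟩ := h2.out hyv'
    obtain ⟨P1, hP1, p1⟩ := q1.toPS
    obtain ⟨P2, hP2, p2⟩ := q2.toPS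
    have hdis : ∀ z ∈ P1, z ∉ P2 := by
      intro z hz hz'
      exact hcut (((p1.2.2 z hz).1.mono hP1).trans ((p2.2.2 z hz').2.mono hP2))
    have hvP1 : v ∉ P1 := fun hh => (mem_erase.mp (hP1 hh)).1 rfl
    have hvP2 : v ∉ P2 := fun hh => (mem_erase.mp (hP2 hh)).1 rfl
    have hP1T : P1 ⊆ T' := hP1.trans (erase_subset _ _)
    have hP2T : P2 ⊆ T' := hP2.trans (erase_subset _ _)
    have l1 : Link R (insert v P1) x v := by
      refine ⟨hxv, insert v P1, {v, x}, (p1.rc.mono (subset_insert _ _)).tail hu (mem_insert_self _ _),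
        Rc.step hvx (by simp) (by simp), ?_, Subset.refl _, ?_⟩
      · intro z _ hz
        simp only [mem_insert, mem_singleton] at hz
        exact hz.symm
      · intro z hz
        simp only [mem_insert, mem_singleton] at hz ⊢
        rcases hz with h3 | h3
        · exact Or.inl h3
        · right; exact h3 ▸ p1.1
    have l2 : Link R (insert v P2) v y := by
      refine ⟨hyv'.symm, insert v P2, {y, v}, Rc.head hn (mem_insert_self _ _)
        (p2.rc.mono (subset_insert _ _)), Rc.step hyv (by simp) (by simp), ?_, Subset.refl _, ?_⟩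
      · intro z _ hz
        simp only [mem_insert, mem_singleton] at hz
        exact hz.symm
      · intro z hz
        simp only [mem_insert, mem_singleton] at hz ⊢
        rcases hz with h3 | h3
        · right; exact h3 ▸ p2.2.1
        · exact Or.inl h3
    refine hN (neck_four (hC2.link hm2 hx hxm.symm) l1 l2 (hC1.link hy hm1 hym) ?_ ?_ ?_ ?_ ?_ ?_)
    · intro z hz hz'
      rcases mem_insert.mp hz' with h3 | h3
      · exact absurd (h3 ▸ hz) hv2
      · exact hT2 z (hP1T h3) hz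
    · intro z hz hz'
      rcases mem_insert.mp hz with h3 | h3
      · exact h3
      · rcases mem_insert.mp hz' with h4 | h4
        · exact h4
        · exact absurd h4 (hdis z h3)
    · intro z hz' hz
      rcases mem_insert.mp hz' with h3 | h3
      · exact absurd (h3 ▸ hz) hv1
      · exact hTy z (hP2T h3) hz
    · exact h12
    · intro z hz hz'
      rcases mem_insert.mp hz' with h3 | h3
      · exact hv2 (h3 ▸ hz)
      · have := hT2 z (hP2T h3) hz
        subst this
        exact hdis _ p1.1 h3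
    · intro z hz hz'
      rcases mem_insert.mp hz with h3 | h3
      · exact hv1 (h3 ▸ hz')
      · have := hTy z (hP1T h3) hz'
        subst this
        exact hdis _ h3 p2.2.1

/-- adding a sink to an acyclic set -/
theorem Ac.insertSink {B : Finset V} {v : V} (h : Ac R (B.erase v))
    (hs : ∀ b ∈ B, ¬ R v b) : Ac R B := by
  intro u w huw hu hr
  by_cases huv : u = v
  · subst huv; exact hs w hr.left huw
  · rcases hr.cut v with h1 | ⟨_, h1⟩
    · exact h u w huw (mem_erase.mpr ⟨huv, hu⟩) h1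
    · rcases h1.cases_head with h2 | ⟨n, hn, h2⟩
      · exact huv h2.symm
      · exact hs n h2.left hn

/-- the base case: some vertex has at most one non-neighbour -/
theorem base_almost [Fintype V] (hirr : ∀ v, ¬ R v v) (h : TwoStr R S) (hN : ¬ Neck R) {v : V}
    (hv : v ∈ S) (hP : ∀ a ∈ S, ∀ b ∈ S, v ≠ a → v ≠ b → a ≠ b →
      (R v a ∨ R a v) ∨ (R v b ∨ R b v)) :
    ∃ A B : Finset V, S ⊆ A ∪ B ∧ Ac R A ∧ Ac R B := by
  obtain ⟨A, hA⟩ : ∃ A, A = S.filter (fun b => R v b) := ⟨_, rfl⟩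
  obtain ⟨B0, hB0⟩ : ∃ B, B = S.filter (fun b => R b v ∧ ¬ R v b) := ⟨_, rfl⟩
  have acA : Ac R A := by rw [hA]; exact h.out_ac hirr hN hv
  have acB0 : Ac R B0 := by
    refine (h.in_ac hirr hN hv).mono ?_
    rw [hB0]; intro z hz
    rw [mem_filter] at hz ⊢
    exact ⟨hz.1, hz.2.1⟩
  have memA : ∀ z, z ∈ A ↔ z ∈ S ∧ R v z := by intro z; rw [hA, mem_filter]
  have memB : ∀ z, z ∈ B0 ↔ z ∈ S ∧ R z v ∧ ¬ R v z := by intro z; rw [hB0, mem_filter]
  have acB : ∀ C : Finset V, C ⊆ S → v ∉ C → (∀ z ∈ C, ¬ R v z) → Ac R C → Ac R (insert v C) := by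
    intro C _ hvC hs hC
    refine Ac.insertSink (v := v) ?_ ?_
    · rw [erase_insert hvC]; exact hC
    · intro b hb
      rcases mem_insert.mp hb with h1 | h1
      · rw [h1]; exact hirr v
      · exact hs b h1
  by_cases hM : ∃ m ∈ S, m ≠ v ∧ ¬ R v m ∧ ¬ R m v
  swap
  · push Not at hM
    refine ⟨A, insert v B0, ?_, acA, acB B0 ?_ ?_ ?_ acB0⟩
    · intro z hz
      rw [mem_union, memA, mem_insert, memB]
      by_cases h1 : z = v
      · exact Or.inr (Or.inl h1)
      · by_cases h2 : R v z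
        · exact Or.inl ⟨hz, h2⟩
        · exact Or.inr (Or.inr ⟨hz, hM z hz h1 h2, h2⟩)
    · intro z hz; exact ((memB z).mp hz).1
    · intro hh; exact hirr v ((memB v).mp hh).2.1
    · intro z hz; exact ((memB z).mp hz).2.2
  obtain ⟨m, hm, hmv, hvm, hmv'⟩ := hM
  have hrest : ∀ z ∈ S, z = m ∨ z = v ∨ z ∈ A ∨ z ∈ B0 := by
    intro z hz
    by_cases h1 : z = m
    · exact Or.inl h1
    by_cases h2 : z = v
    · exact Or.inr (Or.inl h2)
    right; right
    rw [memA, memB]
    rcases hP m hm z hz hmv.symm (fun e => h2 e.symm) (fun e => h1 e.symm) with h3 | h3 | h3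
    · rcases h3 with h3 | h3
      · exact absurd h3 hvm
      · exact absurd h3 hmv'
    · exact Or.inl ⟨hz, h3⟩
    · by_cases h4 : R v z
      · exact Or.inl ⟨hz, h4⟩
      · exact Or.inr ⟨hz, h3, h4⟩
  by_cases c1 : Ac R (insert m A)
  · refine ⟨insert m A, insert v B0, ?_, c1, acB B0 ?_ ?_ ?_ acB0⟩
    · intro z hz
      rw [mem_union, mem_insert, mem_insert]
      rcases hrest z hz with h1 | h1 | h1 | h1
      · exact Or.inl (Or.inl h1)
      · exact Or.inr (Or.inl h1)
      · exact Or.inl (Or.inr h1)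
      · exact Or.inr (Or.inr h1)
    · intro z hz; exact ((memB z).mp hz).1
    · intro hh; exact hirr v ((memB v).mp hh).2.1
    · intro z hz; exact ((memB z).mp hz).2.2
  by_cases c2 : Ac R (insert m B0)
  · refine ⟨A, insert v (insert m B0), ?_, acA, acB (insert m B0) ?_ ?_ ?_ c2⟩
    · intro z hz
      rw [mem_union, mem_insert, mem_insert]
      rcases hrest z hz with h1 | h1 | h1 | h1
      · exact Or.inr (Or.inr (Or.inl h1))
      · exact Or.inr (Or.inl h1)
      · exact Or.inl h1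
      · exact Or.inr (Or.inr (Or.inr h1))
    · intro z hz
      rcases mem_insert.mp hz with h1 | h1
      · exact h1 ▸ hm
      · exact ((memB z).mp h1).1
    · intro hh
      rcases mem_insert.mp hh with h1 | h1
      · exact hmv h1.symm
      · exact hirr v ((memB v).mp h1).2.1
    · intro z hz
      rcases mem_insert.mp hz with h1 | h1
      · rw [h1]; exact hvm
      · exact ((memB z).mp h1).2.2
  exfalso
  have pick : ∀ (g : Finset V) (x y : V), x ∈ g → y ∈ g → x ≠ y → ∃ z ∈ g, z ≠ m := by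
    intro g x y hx hy hne
    by_cases h1 : x = m
    · exact ⟨y, hy, fun e => hne (h1.trans e.symm)⟩
    · exact ⟨x, hx, h1⟩
  obtain ⟨g2, hg2, hC2, a2, ha2, b2, hb2, hab2⟩ := exists_circ_of_not_ac hirr c1
  obtain ⟨g1, hg1, hC1, a1, ha1, b1, hb1, hab1⟩ := exists_circ_of_not_ac hirr c2
  have hm2 : m ∈ g2 := by
    by_contra hcon
    refine hC2.not_sub ha2 hb2 hab2 acA ?_
    intro z hz
    rcases mem_insert.mp (hg2 hz) with h1 | h1
    · exact absurd (h1 ▸ hz) hcon
    · exact h1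
  have hm1 : m ∈ g1 := by
    by_contra hcon
    refine hC1.not_sub ha1 hb1 hab1 acB0 ?_
    intro z hz
    rcases mem_insert.mp (hg1 hz) with h1 | h1
    · exact absurd (h1 ▸ hz) hcon
    · exact h1
  obtain ⟨x2, hx2, hx2m⟩ := pick g2 a2 b2 ha2 hb2 hab2
  obtain ⟨x1, hx1, hx1m⟩ := pick g1 a1 b1 ha1 hb1 hab1
  refine two_sided hirr h hN (v := v) (m := m) hv hm hmv (g1 := g1) (g2 := g2) ?_ ?_ hm2 hm1 hC2 hC1
    hx2 hx2m hx1 hx1m
  · intro z hz hzm
    exact (memA z).mp ((mem_insert.mp (hg2 hz)).resolve_left hzm)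
  · intro z hz hzm
    exact (memB z).mp ((mem_insert.mp (hg1 hz)).resolve_left hzm)

end local'

end Pool.Agent.Lib.NK
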