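import Mathlib
import Pool.Agent.Lib.NK.Local

set_option autoImplicit false

/-! From the conclusion of the frozen statement back to necklaces (MP_c62493_co). -/

namespace Pool.Agent.Lib.NK

open Finset
open scoped Classical

section conv
variable {V : Type*} {R : V → V → Prop}

theorem rc_fn {f : ℕ → V} {n : ℕ} (h : ∀ k, k < n → R (f k) (f (k + 1))) :
    Rc R ((range (n + 1)).image f) (f 0) (f n) := by
  have key : ∀ m, m ≤ n → Rc R ((range (n + 1)).image f) (f 0) (f m) := by
    intro m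
    induction m with
    | zero =>
      intro _
      exact Rc.rfl' (mem_image.mpr ⟨0, by simp, rfl⟩)
    | succ m ih =>
      intro hm
      exact (ih (by omega)).tail (h m (by omega)) (mem_image.mpr ⟨m + 1, by simp; omega, rfl⟩)
  exact key n (le_refl _)

theorem Concl.neck (h : Concl R) : Neck R := by
  obtain ⟨ℓ, b, n, P, hl, hinj, hn, hend, hstep, hint, hdis⟩ := h
  obtain ⟨Sd, hSd⟩ : ∃ Sd : ℕ → Bool → Finset V, Sd = fun i d => (range (n i d + 1)).image (P i d) :=
    ⟨_, rfl⟩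
  have memS : ∀ i d x, x ∈ Sd i d ↔ ∃ k, k ≤ n i d ∧ P i d k = x := by
    intro i d x
    rw [hSd]
    simp only [mem_image, mem_range]
    constructor
    · rintro ⟨k, hk, he⟩; exact ⟨k, by omega, he⟩
    · rintro ⟨k, hk, he⟩; exact ⟨k, by omega, he⟩
  have hmod : ∀ i, (i + 1) % ℓ < ℓ := fun i => Nat.mod_lt _ (by omega)
  -- points of a link
  have pts : ∀ i, i < ℓ → ∀ d x, x ∈ Sd i d → x = b i ∨ x = b ((i + 1) % ℓ) ∨
      ∃ k, 0 < k ∧ k < n i d ∧ P i d k = x := by
    intro i hi d x hx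
    obtain ⟨k, hk, he⟩ := (memS i d x).mp hx
    obtain ⟨e1, e2, e3, e4⟩ := hend i hi
    by_cases h0 : k = 0
    · subst h0
      cases d
      · left; rw [← he, e1]
      · right; left; rw [← he, e3]
    · by_cases h1 : k = n i d
      · subst h1
        cases d
        · right; left; rw [← he, e2]
        · left; rw [← he, e4]
      · right; right; exact ⟨k, by omega, by omega, he⟩
  obtain ⟨E, hE⟩ : ∃ E : ℕ → Finset V, E = fun i => Sd i false ∪ Sd i true := ⟨_, rfl⟩
  have ptsE : ∀ i, i < ℓ → ∀ x, x ∈ E i → x = b i ∨ x = b ((i + 1) % ℓ) ∨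
      ∃ d k, 0 < k ∧ k < n i d ∧ P i d k = x := by
    intro i hi x hx
    rw [hE] at hx
    simp only [mem_union] at hx
    rcases hx with hx | hx
    · rcases pts i hi _ x hx with h1 | h1 | ⟨k, h1⟩
      · exact Or.inl h1
      · exact Or.inr (Or.inl h1)
      · exact Or.inr (Or.inr ⟨_, k, h1⟩)
    · rcases pts i hi _ x hx with h1 | h1 | ⟨k, h1⟩
      · exact Or.inl h1
      · exact Or.inr (Or.inl h1)
      · exact Or.inr (Or.inr ⟨_, k, h1⟩)
  have hne : ∀ i, i < ℓ → b i ≠ b ((i + 1) % ℓ) := by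
    intro i hi he
    have h1 := hinj i _ hi (hmod i) he
    by_cases h2 : i + 1 < ℓ
    · rw [Nat.mod_eq_of_lt h2] at h1; omega
    · have h3 : i + 1 = ℓ := by omega
      rw [h3, Nat.mod_self] at h1; omega
  have link : ∀ i, i < ℓ → Link R (E i) (b i) (b ((i + 1) % ℓ)) := by
    intro i hi
    obtain ⟨e1, e2, e3, e4⟩ := hend i hi
    have r1 := rc_fn (R := R) (f := P i false) (n := n i false) (hstep i hi false)
    have r2 := rc_fn (R := R) (f := P i true) (n := n i true) (hstep i hi true)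
    rw [e1, e2] at r1
    rw [e3, e4] at r2
    refine ⟨hne i hi, Sd i false, Sd i true, by rw [hSd]; exact r1, by rw [hSd]; exact r2, ?_,
      by rw [hE]; exact subset_union_left, by rw [hE]; exact subset_union_right⟩
    intro x hx hx'
    rcases pts i hi _ x hx with h1 | h1 | ⟨k, h1, h2, h3⟩
    · exact Or.inl h1
    · exact Or.inr h1
    · rcases pts i hi _ x hx' with h4 | h4 | ⟨k', h4, h5, h6⟩
      · exact Or.inl h4
      · exact Or.inr h4
      · have := (hdis i false k i true k' hi hi h1 h2 h4 h5 (h3.trans h6.symm)).2.1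
        exact absurd this (by decide)
  -- intersections
  have inter : ∀ i j, i < ℓ → j < ℓ → i ≠ j → ∀ x, x ∈ E i → x ∈ E j →
      ∃ s, s < ℓ ∧ x = b s ∧ (s = i ∨ s = (i + 1) % ℓ) ∧ (s = j ∨ s = (j + 1) % ℓ) := by
    intro i j hi hj hij x hx hx'
    rcases ptsE i hi x hx with h1 | h1 | ⟨d, k, h1, h2, h3⟩
    · rcases ptsE j hj x hx' with h4 | h4 | ⟨d', k', h4, h5, h6⟩
      · exact ⟨i, hi, h1, Or.inl rfl, Or.inl (hinj i j hi hj (h1.symm.trans h4))⟩
      · exact ⟨i, hi, h1, Or.inl rfl, Or.inr (hinj i _ hi (hmod j) (h1.symm.trans h4))⟩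
      · exact absurd (h6.trans h1) (hint j hj d' k' h4 h5 i hi)
    · rcases ptsE j hj x hx' with h4 | h4 | ⟨d', k', h4, h5, h6⟩
      · exact ⟨_, hmod i, h1, Or.inr rfl, Or.inl (hinj _ j (hmod i) hj (h1.symm.trans h4))⟩
      · exact ⟨_, hmod i, h1, Or.inr rfl, Or.inr (hinj _ _ (hmod i) (hmod j) (h1.symm.trans h4))⟩
      · exact absurd (h6.trans h1) (hint j hj d' k' h4 h5 _ (hmod i))
    · rcases ptsE j hj x hx' with h4 | h4 | ⟨d', k', h4, h5, h6⟩
      · exact absurd (h3.trans h4) (hint i hi d k h1 h2 j hj)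
      · exact absurd (h3.trans h4) (hint i hi d k h1 h2 _ (hmod j))
      · exact absurd (hdis i d k j d' k' hi hj h1 h2 h4 h5 (h3.trans h6.symm)).1 hij
  have b0E : ∀ r, r < ℓ → b 0 ∈ E r → r = 0 ∨ r + 1 = ℓ := by
    intro r hr hx
    rcases ptsE r hr _ hx with h1 | h1 | ⟨d, k, h1, h2, h3⟩
    · have := hinj 0 r (by omega) hr h1; omega
    · have h2 := hinj 0 _ (by omega) (hmod r) h1
      by_cases h3 : r + 1 < ℓ
      · rw [Nat.mod_eq_of_lt h3] at h2; omega
      · omega
    · exact absurd h3 (hint r hr d k h1 h2 0 (by omega))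
  -- the chain
  have chain : ∀ r, r ≤ ℓ - 1 → ∃ S, Ch R r (b 0) (b r) S ∧ ∀ x ∈ S, x = b 0 ∨ ∃ i, i < r ∧ x ∈ E i := by
    intro r
    induction r with
    | zero => intro _; exact ⟨{b 0}, Ch.nil _, fun x hx => Or.inl (by simpa using hx)⟩
    | succ r ih =>
      intro hr
      obtain ⟨S, hS, hpt⟩ := ih (by omega)
      have hl := link r (by omega)
      have hmr : (r + 1) % ℓ = r + 1 := Nat.mod_eq_of_lt (by omega)
      rw [hmr] at hl
      refine ⟨S ∪ E r, hS.snoc hl ?_, ?_⟩
      · intro x hx hx'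
        rcases hpt x hx with h1 | ⟨i, hi, h1⟩
        · subst h1
          rcases b0E r (by omega) hx' with h2 | h2
          · rw [h2]
          · omega
        · obtain ⟨s, hs, h2, h3, h4⟩ := inter i r (by omega) (by omega) (by omega) x h1 hx'
          have hmi : (i + 1) % ℓ = i + 1 := Nat.mod_eq_of_lt (by omega)
          rw [hmi] at h3
          rw [hmr] at h4
          have : s = r := by omega
          rw [h2, this]
      · intro x hx
        rcases mem_union.mp hx with h1 | h1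
        · rcases hpt x h1 with h2 | ⟨i, hi, h2⟩
          · exact Or.inl h2
          · exact Or.inr ⟨i, by omega, h2⟩
        · exact Or.inr ⟨r, by omega, h1⟩
  obtain ⟨S, hS, hpt⟩ := chain (ℓ - 1) (le_refl _)
  have hl1 := link (ℓ - 1) (by omega)
  have hml : (ℓ - 1 + 1) % ℓ = 0 := by
    rw [show ℓ - 1 + 1 = ℓ by omega, Nat.mod_self]
  rw [hml] at hl1
  refine ⟨ℓ - 1, b 0, b (ℓ - 1), S, E (ℓ - 1), by omega, hS, hl1, ?_⟩
  intro x hx hx'
  rcases hpt x hx with h1 | ⟨i, hi, h1⟩
  · exact Or.inl h1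
  · obtain ⟨s, hs, h2, h3, h4⟩ := inter i (ℓ - 1) (by omega) (by omega) (by omega) x h1 hx'
    rw [hml] at h4
    rcases h4 with h4 | h4
    · right; rw [h2, h4]
    · left; rw [h2, h4]

theorem Concl.map {W : Type*} {Q : W → W → Prop} {f : W → V} (hf : Function.Injective f)
    (hR : ∀ a b, Q a b → R (f a) (f b)) (h : Concl Q) : Concl R := by
  obtain ⟨ℓ, b, n, P, hl, hinj, hn, hend, hstep, hint, hdis⟩ := h
  refine ⟨ℓ, fun i => f (b i), n, fun i d k => f (P i d k), hl, ?_, hn, ?_, ?_, ?_, ?_⟩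
  · intro i j hi hj he; exact hinj i j hi hj (hf he)
  · intro i hi
    obtain ⟨e1, e2, e3, e4⟩ := hend i hi
    refine ⟨?_, ?_, ?_, ?_⟩
    · show f (P i false 0) = _; rw [e1]
    · show f (P i false (n i false)) = _; rw [e2]
    · show f (P i true 0) = _; rw [e3]
    · show f (P i true (n i true)) = _; rw [e4]
  · intro i hi d k hk; exact hR _ _ (hstep i hi d k hk)
  · intro i hi d k h0 hk j hj he; exact hint i hi d k h0 hk j hj (hf he)
  · intro i d k i' d' k' hi hi' h0 hk h0' hk' he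
    exact hdis i d k i' d' k' hi hi' h0 hk h0' hk' (hf he)

end conv

end Pool.Agent.Lib.NK

namespace Pool.Agent.Lib.NK

open Finset
open scoped Classical

section fin'
variable {V : Type*} {R : V → V → Prop} {S : Finset V}

theorem Ac.of_rin {F : Finset V} (hF : F ⊆ S) (h : Ac (Rin R S) F) : Ac R F := by
  intro u w huw hu hr
  exact h u w ⟨huw, hF hu, hF hr.left⟩ hu (hr.rin hF)

theorem TwoStr.rin (h : TwoStr R S) : TwoStr (Rin R S) S :=
  ⟨h.1, fun z hz a ha b hb => (h.2 z hz a ha b hb).rin (erase_subset _ _)⟩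

theorem colr_of_cover {A B : Finset V} (h : S ⊆ A ∪ B) (hA : Ac (Rin R S) A) (hB : Ac (Rin R S) B) :
    Colr R (Fin 2) S := by
  refine ⟨fun v => if v ∈ A then 0 else 1, fun F hF hm => ?_⟩
  rcases F.eq_empty_or_nonempty with hFe | ⟨u0, hu0⟩
  · subst hFe; exact ac_empty
  by_cases h0 : u0 ∈ A
  · refine (hA.mono ?_).of_rin hF
    intro v hv
    have := hm u0 hu0 v hv
    by_contra hcon
    simp [h0, hcon] at this
  · refine (hB.mono ?_).of_rin hF
    intro v hv
    have := hm u0 hu0 v hv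
    have hvA : v ∉ A := by
      intro hcon
      simp [h0, hcon] at this
    exact (mem_union.mp (h (hF hv))).resolve_left hvA

/-- a colouring with the meaning of the problem contradicts `Colr` -/
theorem Colr.false {α : Type} {T : Finset V} (h : Colr R α T)
    (hcol : ∀ c : V → α, ∃ F : Finset V, F ⊆ T ∧ F.Nonempty ∧ (∀ u ∈ F, ∀ v ∈ F, c u = c v) ∧
      (∀ u ∈ F, ∃ v ∈ F, R u v)) : False := by
  obtain ⟨c, hc⟩ := h
  obtain ⟨F, hFT, hne, hm, hs⟩ := hcol c
  exact (hc F hFT hm).sink (Subset.refl F) hne hs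

end fin'

end Pool.Agent.Lib.NK
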