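import Mathlib
import Pool.Agent.Lib.NK.Conv

set_option autoImplicit false

/-! Digraphs in which every directed cycle of length at least 4 has a chord (MP_c62493_co). -/

namespace Pool.Agent.Lib.NK

open Finset
open scoped Classical

section t3
variable {V : Type*} {R : V → V → Prop}

/-- a digon or a directed triangle without digons -/
def At (R : V → V → Prop) (F : Finset V) : Prop :=
  (∃ a b, a ≠ b ∧ R a b ∧ R b a ∧ F = {a, b}) ∨
    ∃ a b c, (a ≠ b ∧ b ≠ c ∧ a ≠ c) ∧ (R a b ∧ R b c ∧ R c a) ∧ (¬ R b a ∧ ¬ R c b ∧ ¬ R a c) ∧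
      F = {a, b, c}

theorem At.rot {F : Finset V} (h : At R F) {z : V} (hz : z ∈ F) :
    (∃ a, z ≠ a ∧ R z a ∧ R a z ∧ F = {z, a}) ∨
    ∃ a b, (z ≠ a ∧ a ≠ b ∧ z ≠ b) ∧ (R z a ∧ R a b ∧ R b z) ∧ (¬ R a z ∧ ¬ R b a ∧ ¬ R z b) ∧
      F = {z, a, b} := by
  rcases h with ⟨a, b, hab, h1, h2, rfl⟩ | ⟨a, b, c, ⟨n1, n2, n3⟩, ⟨h1, h2, h3⟩, ⟨k1, k2, k3⟩, rfl⟩
  · left
    simp only [mem_insert, mem_singleton] at hz
    rcases hz with rfl | rfl
    · exact ⟨b, hab, h1, h2, rfl⟩
    · exact ⟨a, hab.symm, h2, h1, pair_comm _ _⟩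
  · right
    simp only [mem_insert, mem_singleton] at hz
    rcases hz with rfl | rfl | rfl
    · exact ⟨b, c, ⟨n1, n2, n3⟩, ⟨h1, h2, h3⟩, ⟨k1, k2, k3⟩, rfl⟩
    · exact ⟨c, a, ⟨n2, n3.symm, n1.symm⟩, ⟨h2, h3, h1⟩, ⟨k2, k3, k1⟩, by
        ext x; simp only [mem_insert, mem_singleton]; tauto⟩
    · exact ⟨a, b, ⟨n3.symm, n1, n2.symm⟩, ⟨h3, h1, h2⟩, ⟨k3, k1, k2⟩, by
        ext x; simp only [mem_insert, mem_singleton]; tauto⟩

theorem At.tri {F : Finset V} (h : At R F) {a b : V} (ha : a ∈ F) (hb : b ∈ F) (hab : a ≠ b)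
    (h2 : ¬ R b a) :
    ∃ c, (c ≠ a ∧ c ≠ b) ∧ (R a b ∧ R b c ∧ R c a) ∧ (¬ R c b ∧ ¬ R a c) ∧ F = {a, b, c} := by
  rcases h.rot ha with ⟨x, n, h3, h4, rfl⟩ | ⟨x, y, ⟨n1, n2, n3⟩, ⟨h3, h4, h5⟩, ⟨k1, k2, k3⟩, rfl⟩
  · simp only [mem_insert, mem_singleton] at hb
    rcases hb with rfl | rfl
    · exact absurd rfl hab
    · exact absurd h4 h2
  · simp only [mem_insert, mem_singleton] at hb
    rcases hb with rfl | rfl | rfl
    · exact absurd rfl hab
    · exact ⟨y, ⟨n3.symm, n2.symm⟩, ⟨h3, h4, h5⟩, ⟨k2, k3⟩, rfl⟩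
    · exact absurd h5 h2

theorem At.circ {F : Finset V} (h : At R F) : Circ R F := by
  intro x hx y hy hne
  rcases h.rot hx with ⟨a, n, h3, h4, rfl⟩ | ⟨a, b, ⟨n1, n2, n3⟩, ⟨h3, h4, h5⟩, _, rfl⟩
  · simp only [mem_insert, mem_singleton] at hy
    rcases hy with rfl | rfl
    · exact absurd rfl hne
    · exact link_digon n h3 h4
  · simp only [mem_insert, mem_singleton] at hy
    rcases hy with rfl | rfl | rfl
    · exact absurd rfl hne
    · exact link_tri n1 h3 h4 h5
    · have := (link_tri n3.symm h5 h3 h4).symm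
      refine this.mono ?_
      intro z hz
      simp only [mem_insert, mem_singleton] at hz ⊢
      tauto

/-- prolonging a chain at its end -/
theorem Ch.snocAt {r : ℕ} {a t s : V} {S E : Finset V} (h : Ch R r a t S) (hl : Link R E t s)
    (hE : ∀ x ∈ S, x ∈ E → x = t) : ∃ T, Ch R (r + 1) a s T ∧ T ⊆ S ∪ E := by
  have key : ∃ T, Ch R (r + 1) a s T ∧ T = S ∪ E := by
    induction h with
    | nil a =>
      refine ⟨E ∪ {s}, Ch.cons hl (Ch.nil s) (fun x _ hx => by simpa using hx), ?_⟩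
      ext x
      have h1 := hl.left
      have h2 := hl.right
      simp only [mem_union, mem_singleton]
      constructor
      · rintro (h | rfl)
        · exact Or.inr h
        · exact Or.inr h2
      · rintro (rfl | h)
        · exact Or.inl h1
        · exact Or.inl h
    | @cons r a m t E0 S h1 h2 h3 ih =>
      obtain ⟨T, hT, rfl⟩ := ih hl (fun x hx hx' => hE x (mem_union_right _ hx) hx')
      refine ⟨E0 ∪ (S ∪ E), Ch.cons h1 hT ?_, by rw [union_assoc]⟩
      intro x hx hx'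
      rcases mem_union.mp hx' with hx' | hx'
      · exact h3 x hx hx'
      · have := hE x (mem_union_left _ hx) hx'
        subst this
        exact h3 _ hx h2.right
  obtain ⟨T, hT, rfl⟩ := key
  exact ⟨_, hT, Subset.refl _⟩

/-- any two vertices of `W` are joined by a chain inside `W` -/
def EC (R : V → V → Prop) (W : Finset V) : Prop :=
  ∀ u ∈ W, ∀ v ∈ W, u ≠ v → ∃ r T, 1 ≤ r ∧ Ch R r u v T ∧ T ⊆ W

theorem EC.union {W E : Finset V} (h : EC R W) (hE : Circ R E) {w : V} (hwE : w ∈ E) (hwW : w ∈ W)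
    (hEW : ∀ x ∈ E, x ∈ W → x = w) : EC R (W ∪ E) := by
  intro u hu v hv hne
  have hl : ∀ x ∈ E, ∀ y ∈ E, x ≠ y → ∃ r T, 1 ≤ r ∧ Ch R r x y T ∧ T ⊆ W ∪ E := by
    intro x hx y hy hxy
    refine ⟨1, E ∪ {y}, le_refl _, Ch.cons (hE x hx y hy hxy) (Ch.nil y) (fun z _ hz => by simpa using hz), ?_⟩
    intro z hz
    rcases mem_union.mp hz with hz | hz
    · exact mem_union_right _ hz
    · rw [mem_singleton] at hz; subst hz; exact mem_union_right _ hy
  have hW : ∀ x ∈ W, ∀ y ∈ W, x ≠ y → ∃ r T, 1 ≤ r ∧ Ch R r x y T ∧ T ⊆ W ∪ E := by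
    intro x hx y hy hxy
    obtain ⟨r, T, h1, h2, h3⟩ := h x hx y hy hxy
    exact ⟨r, T, h1, h2, h3.trans subset_union_left⟩
  rcases mem_union.mp hu with huW | huE <;> rcases mem_union.mp hv with hvW | hvE
  · exact hW u huW v hvW hne
  · by_cases huw : u = w
    · subst huw; exact hl u hwE v hvE hne
    by_cases hvw : v = w
    · subst hvw; exact hW u huW v hwW hne
    obtain ⟨r, T, h1, h2, h3⟩ := h u huW w hwW huw
    obtain ⟨T', h4, h5⟩ := Ch.snocAt h2 (hE w hwE v hvE (Ne.symm hvw)) (fun x hx hx' => hEW x hx' (h3 hx))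
    exact ⟨r + 1, T', by omega, h4, h5.trans (union_subset_union h3 (Subset.refl _))⟩
  · by_cases huw : u = w
    · subst huw; exact hW u hwW v hvW hne
    by_cases hvw : v = w
    · subst hvw; exact hl u huE v hwE hne
    obtain ⟨r, T, h1, h2, h3⟩ := h w hwW v hvW (Ne.symm hvw)
    refine ⟨r + 1, E ∪ T, by omega, Ch.cons (hE u huE w hwE huw) h2 (fun x hx hx' => hEW x hx (h3 hx')), ?_⟩
    exact union_subset subset_union_right (h3.trans subset_union_left)
  · exact hl u huE v hvE hne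

theorem EC.neck {W E F : Finset V} (h : EC R W) {u w t : V} (hw : w ∈ W) (ht : t ∈ W) (hwt : w ≠ t)
    (hE : Link R E u w) (hF : Link R F t u) (hEW : ∀ x ∈ E, x ∈ W → x = w)
    (hFW : ∀ x ∈ F, x ∈ W → x = t) (hEF : ∀ x ∈ E, x ∈ F → x = u) : Neck R := by
  obtain ⟨r, T, h1, h2, h3⟩ := h w hw t ht hwt
  refine ⟨r + 1, u, t, E ∪ T, F, by omega, Ch.cons hE h2 (fun x hx hx' => hEW x hx (h3 hx')), hF, ?_⟩
  intro x hx hxF
  rcases mem_union.mp hx with hx | hx
  · exact Or.inl (hEF x hx hxF)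
  · exact Or.inr (hFW x hxF (h3 hx))

/-- no digon or pure triangle of `S` with at least two vertices in `W` has constant colour on `W` -/
def Adm (R : V → V → Prop) (S W : Finset V) (g : V → Bool) : Prop :=
  ∀ F ⊆ S, At R F → ∀ x ∈ F, x ∈ W → ∀ y ∈ F, y ∈ W → x ≠ y → ¬ ∀ u ∈ F, u ∈ W → g u = g x

theorem Adm.one {S W F : Finset V} {g : V → Bool} (h : Adm R S W g) (hF : F ⊆ S) (hA : At R F)
    {x : V} (hx : x ∈ F) (hxW : x ∈ W) (hm : ∀ u ∈ F, u ∈ W → g u = g x) :
    ∀ y ∈ F, y ∈ W → y = x := by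
  intro y hy hyW
  by_contra hne
  exact h F hF hA x hx hxW y hy hyW (Ne.symm hne) hm

/-- three triangles at the three arcs of a pure triangle -/
theorem three_tri (hN : ¬ Neck R) {w a b : V} (hwa : w ≠ a) (hab : a ≠ b) (hwb : w ≠ b)
    (k1 : ¬ R a w) (k2 : ¬ R b a) (k3 : ¬ R w b) {FA FB FC : Finset V} (hA : At R FA)
    (hB : At R FB) (hC : At R FC) (hA1 : a ∈ FA) (hA2 : b ∈ FA) (hA3 : w ∉ FA)
    (hB1 : w ∈ FB) (hB2 : a ∈ FB) (hB3 : b ∉ FB) (hC1 : b ∈ FC) (hC2 : w ∈ FC) (hC3 : a ∉ FC) :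
    False := by
  obtain ⟨c, ⟨c1, c2⟩, ⟨-, c3, c4⟩, ⟨c5, c6⟩, rfl⟩ := hA.tri hA1 hA2 hab k2
  obtain ⟨d, ⟨d1, d2⟩, ⟨-, d3, d4⟩, ⟨d5, d6⟩, rfl⟩ := hB.tri hB1 hB2 hwa k1
  obtain ⟨e, ⟨e1, e2⟩, ⟨-, e3, e4⟩, ⟨e5, e6⟩, rfl⟩ := hC.tri hC1 hC2 hwb.symm k3
  have hcd : c ≠ d := by rintro rfl; exact c6 d3
  have hce : c ≠ e := by rintro rfl; exact e6 c3
  have hde : d ≠ e := by rintro rfl; exact d6 e3
  simp only [mem_insert, mem_singleton, not_or] at hA3 hB3 hC3
  refine hN (neck_three (hB.circ w hB1 a hB2 hwa) (hA.circ a hA1 b hA2 hab) (hC.circ b hC1 w hC2 hwb.symm)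
    ?_ ?_ ?_)
  · intro x hx hx'
    simp only [mem_insert, mem_singleton] at hx hx'
    rcases hx with rfl | rfl | rfl
    · rcases hx' with h | h | h
      · exact h
      · exact absurd h hwb
      · exact absurd h hA3.2.2
    · rfl
    · rcases hx' with h | h | h
      · exact h
      · exact absurd h.symm hB3.2.2
      · exact absurd h.symm hcd
  · intro x hx hx'
    simp only [mem_insert, mem_singleton] at hx hx'
    rcases hx with rfl | rfl | rfl
    · rcases hx' with h | h | h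
      · exact h
      · exact absurd h.symm hwa
      · exact absurd h hC3.2.2
    · rfl
    · rcases hx' with h | h | h
      · exact h
      · exact absurd h.symm hA3.2.2
      · exact absurd h hce
  · intro x hx hx'
    simp only [mem_insert, mem_singleton] at hx hx'
    rcases hx with rfl | rfl | rfl
    · rfl
    · rcases hx' with h | h | h
      · exact absurd h hab
      · exact h
      · exact absurd h hC3.2.2
    · rcases hx' with h | h | h
      · exact absurd h.symm hB3.2.2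
      · exact h
      · exact absurd h hde

/-- attaching a digon -/
theorem step_at_two (hN : ¬ Neck R) {S W : Finset V} {g : V → Bool} (hEC : EC R W) (hA : Adm R S W g)
    {w a : V} (hw : w ∈ W) (ha : a ∉ W) (hAt : At R {w, a}) (hwa : w ≠ a) :
    Adm R S (W ∪ {w, a}) (fun v => if v = a then !g w else g v) := by
  intro F hF hFA x hx hxW y hy hyW hne hm
  have mW : ∀ z, z ≠ a → z ∈ W ∪ {w, a} → z ∈ W := by
    intro z hza hz
    simp only [mem_union, mem_insert, mem_singleton] at hz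
    rcases hz with h | rfl | h
    · exact h
    · exact hw
    · exact absurd h hza
  have hWm : ∀ z, z ∈ W → z ∈ W ∪ {w, a} := fun z hz => mem_union_left _ hz
  by_cases haF : a ∈ F
  · have hma : ∀ u ∈ F, u ∈ W → g u = !g w := by
      intro u hu huW
      have h1 := hm u hu (hWm u huW)
      have h2 := hm a haF (by simp)
      have hua : u ≠ a := fun h => ha (h ▸ huW)
      rw [← h2] at h1
      simpa [hua] using h1
    have hwF : w ∉ F := by
      intro h
      have := hma w h hw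
      cases hg : g w <;> simp [hg] at this
    obtain ⟨t, htF, htW⟩ : ∃ t ∈ F, t ∈ W := by
      by_cases hxa : x = a
      · exact ⟨y, hy, mW y (fun h => hne (hxa.trans h.symm)) hyW⟩
      · exact ⟨x, hx, mW x hxa hxW⟩
    have htw : w ≠ t := by rintro rfl; exact hwF htF
    have hta : t ≠ a := by rintro rfl; exact ha htW
    have hone := hA.one hF hFA htF htW (fun u hu huW => (hma u hu huW).trans (hma t htF htW).symm)
    refine hN (hEC.neck hw htW htw (hAt.circ a (by simp) w (by simp) hwa.symm)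
      (hFA.circ t htF a haF hta) ?_ hone ?_)
    · intro z hz hzW
      simp only [mem_insert, mem_singleton] at hz
      rcases hz with h | h
      · exact h
      · exact absurd (h ▸ hzW) ha
    · intro z hz hzF
      simp only [mem_insert, mem_singleton] at hz
      rcases hz with h | h
      · exact absurd (h ▸ hzF) hwF
      · exact h
  · have hxa : x ≠ a := by rintro rfl; exact haF hx
    have hya : y ≠ a := by rintro rfl; exact haF hy
    refine hA F hF hFA x hx (mW x hxa hxW) y hy (mW y hya hyW) hne ?_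
    intro u hu huW
    have hua : u ≠ a := by rintro rfl; exact haF hu
    have := hm u hu (hWm u huW)
    simpa [hua, hxa] using this

/-- attaching a pure triangle -/
theorem step_at_three (hN : ¬ Neck R) {S W : Finset V} {g : V → Bool} (hEC : EC R W) (hA : Adm R S W g)
    {w a b : V} (hw : w ∈ W) (ha : a ∉ W) (hb : b ∉ W) (hAt : At R {w, a, b}) (hwa : w ≠ a)
    (hab : a ≠ b) (hwb : w ≠ b) (α β : Bool)
    (c1 : ∀ F ⊆ S, At R F → a ∈ F → b ∈ F → w ∉ F → α ≠ β)
    (c2 : ∀ F ⊆ S, At R F → w ∈ F → a ∈ F → b ∉ F → α ≠ g w)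
    (c3 : ∀ F ⊆ S, At R F → w ∈ F → b ∈ F → a ∉ F → β ≠ g w)
    (c4 : α ≠ g w ∨ β ≠ g w) :
    Adm R S (W ∪ {w, a, b}) (fun v => if v = a then α else if v = b then β else g v) := by
  intro F hF hFA x hx hxW y hy hyW hne hm
  have mW : ∀ z, z ≠ a → z ≠ b → z ∈ W ∪ {w, a, b} → z ∈ W := by
    intro z hza hzb hz
    simp only [mem_union, mem_insert, mem_singleton] at hz
    rcases hz with h | rfl | h | h
    · exact h
    · exact hw
    · exact absurd h hza
    · exact absurd h hzb
  have hWm : ∀ z, z ∈ W → z ∈ W ∪ {w, a, b} := fun z hz => mem_union_left _ hz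
  have hWa : ∀ z, z ∈ W → z ≠ a := fun z hz h => ha (h ▸ hz)
  have hWb : ∀ z, z ∈ W → z ≠ b := fun z hz h => hb (h ▸ hz)
  have hmW : ∀ u ∈ F, ∀ v ∈ F, u ∈ W → v ∈ W → g u = g v := by
    intro u hu v hv huW hvW
    have h1 := hm u hu (hWm u huW)
    have h2 := hm v hv (hWm v hvW)
    rw [← h2] at h1
    simpa [hWa u huW, hWb u huW, hWa v hvW, hWb v hvW] using h1
  have hma : a ∈ F → ∀ u ∈ F, u ∈ W → g u = α := by
    intro haF u hu huW
    have h1 := hm u hu (hWm u huW)
    have h2 := hm a haF (by simp)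
    rw [← h2] at h1
    simpa [hWa u huW, hWb u huW] using h1
  have hmb : b ∈ F → ∀ u ∈ F, u ∈ W → g u = β := by
    intro hbF u hu huW
    have h1 := hm u hu (hWm u huW)
    have h2 := hm b hbF (by simp)
    rw [← h2] at h1
    simpa [hWa u huW, hWb u huW, hab.symm] using h1
  have hmab : a ∈ F → b ∈ F → α = β := by
    intro haF hbF
    have h1 := hm a haF (by simp)
    have h2 := hm b hbF (by simp)
    rw [← h2] at h1
    simpa [hab.symm] using h1
  have hone : ∀ t ∈ F, t ∈ W → ∀ y ∈ F, y ∈ W → y = t := fun t ht htW =>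
    hA.one hF hFA ht htW (fun u hu huW => hmW u hu t ht huW htW)
  by_cases haF : a ∈ F <;> by_cases hbF : b ∈ F
  · by_cases hwF : w ∈ F
    · rcases c4 with h | h
      · exact h (hma haF w hwF hw).symm
      · exact h (hmb hbF w hwF hw).symm
    · exact c1 F hF hFA haF hbF hwF (hmab haF hbF)
  · by_cases hwF : w ∈ F
    · exact c2 F hF hFA hwF haF hbF (hma haF w hwF hw).symm
    · obtain ⟨t, htF, htW⟩ : ∃ t ∈ F, t ∈ W := by
        by_cases hxa : x = a
        · exact ⟨y, hy, mW y (fun h => hne (hxa.trans h.symm)) (fun h => hbF (h ▸ hy)) hyW⟩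
        · exact ⟨x, hx, mW x hxa (fun h => hbF (h ▸ hx)) hxW⟩
      have htw : w ≠ t := by rintro rfl; exact hwF htF
      refine hN (hEC.neck hw htW htw (hAt.circ a (by simp) w (by simp) hwa.symm)
        (hFA.circ t htF a haF (hWa t htW)) ?_ (hone t htF htW) ?_)
      · intro z hz hzW
        simp only [mem_insert, mem_singleton] at hz
        rcases hz with h | h | h
        · exact h
        · exact absurd (h ▸ hzW) ha
        · exact absurd (h ▸ hzW) hb
      · intro z hz hzF
        simp only [mem_insert, mem_singleton] at hz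
        rcases hz with h | h | h
        · exact absurd (h ▸ hzF) hwF
        · exact h
        · exact absurd (h ▸ hzF) hbF
  · by_cases hwF : w ∈ F
    · exact c3 F hF hFA hwF hbF haF (hmb hbF w hwF hw).symm
    · obtain ⟨t, htF, htW⟩ : ∃ t ∈ F, t ∈ W := by
        by_cases hxb : x = b
        · exact ⟨y, hy, mW y (fun h => haF (h ▸ hy)) (fun h => hne (hxb.trans h.symm)) hyW⟩
        · exact ⟨x, hx, mW x (fun h => haF (h ▸ hx)) hxb hxW⟩
      have htw : w ≠ t := by rintro rfl; exact hwF htF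
      refine hN (hEC.neck hw htW htw (hAt.circ b (by simp) w (by simp) hwb.symm)
        (hFA.circ t htF b hbF (hWb t htW)) ?_ (hone t htF htW) ?_)
      · intro z hz hzW
        simp only [mem_insert, mem_singleton] at hz
        rcases hz with h | h | h
        · exact h
        · exact absurd (h ▸ hzW) ha
        · exact absurd (h ▸ hzW) hb
      · intro z hz hzF
        simp only [mem_insert, mem_singleton] at hz
        rcases hz with h | h | h
        · exact absurd (h ▸ hzF) hwF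
        · exact absurd (h ▸ hzF) haF
        · exact h
  · have hxa : x ≠ a := by rintro rfl; exact haF hx
    have hxb : x ≠ b := by rintro rfl; exact hbF hx
    have hya : y ≠ a := by rintro rfl; exact haF hy
    have hyb : y ≠ b := by rintro rfl; exact hbF hy
    have hxW' := mW x hxa hxb hxW
    exact hA F hF hFA x hx hxW' y hy (mW y hya hyb hyW) hne
      (fun u hu huW => hmW u hu x hx huW hxW')

/-- attaching a digon or pure triangle which meets `W` in exactly one vertex -/
theorem step_at (hN : ¬ Neck R) {S W E : Finset V} {g : V → Bool} (hEC : EC R W) (hA : Adm R S W g)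
    (hE : At R E) {w : V} (hwE : w ∈ E) (hw : w ∈ W) (hEW : ∀ x ∈ E, x ∈ W → x = w) :
    ∃ g', Adm R S (W ∪ E) g' := by
  rcases hE.rot hwE with ⟨a, n, h3, h4, rfl⟩ | ⟨a, b, ⟨n1, n2, n3⟩, ⟨h3, h4, h5⟩, ⟨k1, k2, k3⟩, rfl⟩
  · exact ⟨_, step_at_two hN hEC hA hw (fun h => n (hEW a (by simp) h).symm) hE n⟩
  · have ha : a ∉ W := fun h => n1 (hEW a (by simp) h).symm
    have hb : b ∉ W := fun h => n3 (hEW b (by simp) h).symm
    have hnot : ∀ x : Bool, (!x) ≠ x := by decide
    by_cases hAA : ∃ F ⊆ S, At R F ∧ a ∈ F ∧ b ∈ F ∧ w ∉ F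
    · obtain ⟨FA, _, hFA, hA1, hA2, hA3⟩ := hAA
      by_cases hBB : ∃ F ⊆ S, At R F ∧ w ∈ F ∧ a ∈ F ∧ b ∉ F
      · obtain ⟨FB, _, hFB, hB1, hB2, hB3⟩ := hBB
        refine ⟨_, step_at_three hN hEC hA hw ha hb hE n1 n2 n3 (!g w) (g w) ?_ ?_ ?_ ?_⟩
        · intro _ _ _ _ _ _; exact hnot _
        · intro _ _ _ _ _ _; exact hnot _
        · intro FC _ hFC hC1 hC2 hC3
          exact absurd (three_tri hN n1 n2 n3 k1 k2 k3 hFA hFB hFC hA1 hA2 hA3 hB1 hB2 hB3 hC2 hC1 hC3)
            not_false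
        · exact Or.inl (hnot _)
      · refine ⟨_, step_at_three hN hEC hA hw ha hb hE n1 n2 n3 (g w) (!g w) ?_ ?_ ?_ ?_⟩
        · intro _ _ _ _ _ _; exact (hnot _).symm
        · intro F hF hFA' h1 h2 h3'
          exact absurd ⟨F, hF, hFA', h1, h2, h3'⟩ hBB
        · intro _ _ _ _ _ _; exact hnot _
        · exact Or.inr (hnot _)
    · refine ⟨_, step_at_three hN hEC hA hw ha hb hE n1 n2 n3 (!g w) (!g w) ?_ ?_ ?_ ?_⟩
      · intro F hF hFA' h1 h2 h3'
        exact absurd ⟨F, hF, hFA', h1, h2, h3'⟩ hAA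
      · intro _ _ _ _ _ _; exact hnot _
      · intro _ _ _ _ _ _; exact hnot _
      · exact Or.inl (hnot _)

theorem colr_grow (hN : ¬ Neck R) {S : Finset V} (hS : ∀ T ⊆ S, ¬ Ac R T → ∃ F ⊆ T, At R F)
    (ih : ∀ T ⊂ S, Colr R Bool T) : ∀ (n : ℕ) (W : Finset V) (g : V → Bool), W ⊆ S → W.Nonempty →
    (S \ W).card ≤ n → EC R W → Adm R S W g → Colr R Bool S := by
  intro n
  induction n with
  | zero =>
    intro W g hWS hne hn hEC hA
    refine ⟨g, fun F hF hm => ?_⟩
    by_contra hac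
    obtain ⟨E, hE, hEA⟩ := hS F hF hac
    have hSW : S ⊆ W := by
      rw [Nat.le_zero, card_eq_zero, sdiff_eq_empty_iff_subset] at hn
      exact hn
    have h2 : ∃ x ∈ E, ∃ y ∈ E, x ≠ y := by
      rcases hEA with ⟨a, b, n, _, _, rfl⟩ | ⟨a, b, c, ⟨n, _, _⟩, _, _, rfl⟩
      · exact ⟨a, by simp, b, by simp, n⟩
      · exact ⟨a, by simp, b, by simp, n⟩
    obtain ⟨x, hx, y, hy, hxy⟩ := h2
    exact hA E (hE.trans hF) hEA x hx (hSW (hF (hE hx))) y hy (hSW (hF (hE hy))) hxy
      (fun u hu _ => hm u (hE hu) x (hE hx))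
  | succ n ihn =>
    intro W g hWS hne hn hEC hA
    by_cases hex : ∃ E ⊆ S, At R E ∧ ∃ w ∈ E, w ∈ W ∧ ∀ x ∈ E, x ∈ W → x = w
    · obtain ⟨E, hES, hEA, w, hwE, hw, hEW⟩ := hex
      obtain ⟨g', hg'⟩ := step_at hN hEC hA hEA hwE hw hEW
      refine ihn (W ∪ E) g' (union_subset hWS hES) (hne.mono subset_union_left) ?_
        (hEC.union hEA.circ hwE hw hEW) hg'
      obtain ⟨a, haE, haw⟩ : ∃ a ∈ E, a ≠ w := by
        rcases hEA.rot hwE with ⟨a, n, _, _, rfl⟩ | ⟨a, b, ⟨n, _, _⟩, _, _, rfl⟩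
        · exact ⟨a, by simp, n.symm⟩
        · exact ⟨a, by simp, n.symm⟩
      have h1 : S \ (W ∪ E) ⊂ S \ W := by
        rw [Finset.ssubset_iff_of_subset (sdiff_subset_sdiff (Subset.refl _) subset_union_left)]
        refine ⟨a, mem_sdiff.mpr ⟨hES haE, fun h => haw (hEW a haE h)⟩, ?_⟩
        intro h
        exact (mem_sdiff.mp h).2 (mem_union_right _ haE)
      have := card_lt_card h1
      omega
    · obtain ⟨w0, hw0⟩ := hne
      obtain ⟨c, hc⟩ := ih (S \ W) (by
        rw [Finset.ssubset_iff_of_subset sdiff_subset]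
        exact ⟨w0, hWS hw0, fun h => (mem_sdiff.mp h).2 hw0⟩)
      refine ⟨fun v => if v ∈ W then g v else c v, fun F hF hm => ?_⟩
      by_contra hac
      obtain ⟨E, hE, hEA⟩ := hS F hF hac
      have hmE : ∀ u ∈ E, ∀ v ∈ E, (if u ∈ W then g u else c u) = (if v ∈ W then g v else c v) :=
        fun u hu v hv => hm u (hE hu) v (hE hv)
      by_cases h0 : ∃ x ∈ E, x ∈ W
      · obtain ⟨x, hx, hxW⟩ := h0
        refine hex ⟨E, hE.trans hF, hEA, x, hx, hxW, ?_⟩
        refine hA.one (hE.trans hF) hEA hx hxW ?_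
        intro u hu huW
        have := hmE u hu x hx
        simpa only [if_pos huW, if_pos hxW] using this
      · push Not at h0
        obtain ⟨x, y, hx, hy, hxy⟩ : ∃ x y, x ∈ E ∧ y ∈ E ∧ x ≠ y := by
          rcases hEA with ⟨a, b, n, _, _, rfl⟩ | ⟨a, b, c, ⟨n, _, _⟩, _, _, rfl⟩
          · exact ⟨a, b, by simp, by simp, n⟩
          · exact ⟨a, b, by simp, by simp, n⟩
        have hacE : Ac R E := by
          refine hc E (fun z hz => mem_sdiff.mpr ⟨hF (hE hz), h0 z hz⟩) ?_
          intro u hu v hv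
          have := hmE u hu v hv
          simpa only [if_neg (h0 u hu), if_neg (h0 v hv)] using this
        exact hEA.circ.not_sub hx hy hxy hacE (Subset.refl _)

/-- if every non-acyclic set contains a digon or a pure triangle then two colours suffice -/
theorem colr_t3 (hN : ¬ Neck R) : ∀ (n : ℕ) (S : Finset V), S.card ≤ n →
    (∀ T ⊆ S, ¬ Ac R T → ∃ F ⊆ T, At R F) → Colr R Bool S := by
  intro n
  induction n with
  | zero =>
    intro S hS _
    have : S = ∅ := card_eq_zero.mp (by omega)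
    subst this
    exact ⟨fun _ => true, fun F hF _ => ac_empty.mono hF⟩
  | succ n ih =>
    intro S hS hT
    rcases S.eq_empty_or_nonempty with hSe | ⟨r, hr⟩
    · subst hSe
      exact ⟨fun _ => true, fun F hF _ => ac_empty.mono hF⟩
    refine colr_grow hN hT ?_ _ {r} (fun _ => true) (by simpa using hr) (by simp) (le_refl _) ?_ ?_
    · intro T hTS
      exact ih T (by have := card_lt_card hTS; omega) (fun T' h => hT T' (h.trans hTS.1))
    · intro u hu v hv hne
      rw [mem_singleton] at hu hv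
      exact absurd (hu.trans hv.symm) hne
    · intro F _ _ x _ hx y _ hy hne _
      rw [mem_singleton] at hx hy
      exact hne (hx.trans hy.symm)

/-- if long directed cycles have chords then every directed cycle contains a digon or a pure triangle -/
theorem short_at (hirr : ∀ v, ¬ R v v)
    (hch : ∀ (m : ℕ) (c : ℕ → V), 4 ≤ m → (∀ i j, i < m → j < m → c i = c j → i = j) →
      (∀ i, i < m → R (c i) (c ((i + 1) % m))) →
      ∃ i j, i < m ∧ j < m ∧ j ≠ (i + 1) % m ∧ R (c i) (c j)) {S : Finset V} :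
    ∀ (n m : ℕ) (c : ℕ → V), m ≤ n → 2 ≤ m → (∀ i, i < m → c i ∈ S) →
      (∀ i j, i < m → j < m → c i = c j → i = j) →
      (∀ i, i < m → R (c i) (c ((i + 1) % m))) → ∃ F ⊆ S, At R F := by
  intro n
  induction n with
  | zero => intro m c h1 h2; omega
  | succ n ih =>
    intro m c hmn h2 hS hinj hadj
    by_cases hm2 : m = 2
    · subst hm2
      have e1 := hadj 0 (by omega)
      have e2 := hadj 1 (by omega)
      norm_num at e1 e2
      refine ⟨{c 0, c 1}, ?_, Or.inl ⟨c 0, c 1, ?_, e1, e2, rfl⟩⟩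
      · intro x hx
        simp only [mem_insert, mem_singleton] at hx
        rcases hx with rfl | rfl
        · exact hS 0 (by omega)
        · exact hS 1 (by omega)
      · intro h
        have := hinj 0 1 (by omega) (by omega) h
        omega
    by_cases hm3 : m = 3
    · subst hm3
      have e1 := hadj 0 (by omega)
      have e2 := hadj 1 (by omega)
      have e3 := hadj 2 (by omega)
      norm_num at e1 e2 e3
      have s0 := hS 0 (by omega)
      have s1 := hS 1 (by omega)
      have s2 := hS 2 (by omega)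
      have n01 : c 0 ≠ c 1 := fun h => by have := hinj 0 1 (by omega) (by omega) h; omega
      have n12 : c 1 ≠ c 2 := fun h => by have := hinj 1 2 (by omega) (by omega) h; omega
      have n02 : c 0 ≠ c 2 := fun h => by have := hinj 0 2 (by omega) (by omega) h; omega
      have dig : ∀ a b, a ∈ S → b ∈ S → a ≠ b → R a b → R b a → ∃ F ⊆ S, At R F := by
        intro a b ha hb hab h1 h2
        refine ⟨{a, b}, ?_, Or.inl ⟨a, b, hab, h1, h2, rfl⟩⟩
        intro x hx
        simp only [mem_insert, mem_singleton] at hx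
        rcases hx with rfl | rfl
        · exact ha
        · exact hb
      by_cases k1 : R (c 1) (c 0)
      · exact dig _ _ s0 s1 n01 e1 k1
      by_cases k2 : R (c 2) (c 1)
      · exact dig _ _ s1 s2 n12 e2 k2
      by_cases k3 : R (c 0) (c 2)
      · exact dig _ _ s0 s2 n02 k3 e3
      refine ⟨{c 0, c 1, c 2}, ?_, Or.inr ⟨c 0, c 1, c 2, ⟨n01, n12, n02⟩, ⟨e1, e2, e3⟩, ⟨k1, k2, k3⟩, rfl⟩⟩
      intro x hx
      simp only [mem_insert, mem_singleton] at hx
      rcases hx with rfl | rfl | rfl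
      · exact s0
      · exact s1
      · exact s2
    obtain ⟨i, j, hi, hj, hij, hR⟩ := hch m c (by omega) hinj hadj
    have hne : i ≠ j := by rintro rfl; exact hirr _ hR
    obtain ⟨d, hd⟩ : ∃ d, d = (i + m - j) % m := ⟨_, rfl⟩
    have hdm : d < m := by rw [hd]; exact Nat.mod_lt _ (by omega)
    have hjd : (j + d) % m = i := by
      rw [hd, Nat.add_mod_mod, show j + (i + m - j) = i + m by omega, Nat.add_mod_right,
        Nat.mod_eq_of_lt hi]
    have hd1 : 1 ≤ d := by
      rcases Nat.eq_zero_or_pos d with h | h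
      · rw [h, Nat.add_zero, Nat.mod_eq_of_lt hj] at hjd
        exact absurd hjd.symm hne
      · exact h
    have hd2 : d + 1 < m := by
      by_contra hcon
      have hdd : d = m - 1 := by omega
      apply hij
      rw [← hjd, Nat.mod_add_mod, hdd, show j + (m - 1) + 1 = j + m by omega, Nat.add_mod_right,
        Nat.mod_eq_of_lt hj]
    refine ih (d + 1) (fun k => c ((j + k) % m)) (by omega) (by omega) ?_ ?_ ?_
    · intro k hk
      exact hS _ (Nat.mod_lt _ (by omega))
    · intro k k' hk hk' he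
      have := hinj _ _ (Nat.mod_lt _ (by omega)) (Nat.mod_lt _ (by omega)) he
      have h5 : k ≡ k' [MOD m] := Nat.ModEq.add_left_cancel' j this
      have h6 : k % m = k' % m := h5
      rwa [Nat.mod_eq_of_lt (by omega), Nat.mod_eq_of_lt (by omega)] at h6
    · intro k hk
      show R (c ((j + k) % m)) (c ((j + (k + 1) % (d + 1)) % m))
      by_cases hkd : k = d
      · subst hkd
        rw [Nat.mod_self, Nat.add_zero, Nat.mod_eq_of_lt hj, hjd]
        exact hR
      · rw [Nat.mod_eq_of_lt (show k + 1 < d + 1 by omega)]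
        have := hadj ((j + k) % m) (Nat.mod_lt _ (by omega))
        rwa [Nat.mod_add_mod, Nat.add_assoc] at this

theorem short_of_not_ac (hirr : ∀ v, ¬ R v v)
    (hch : ∀ (m : ℕ) (c : ℕ → V), 4 ≤ m → (∀ i j, i < m → j < m → c i = c j → i = j) →
      (∀ i, i < m → R (c i) (c ((i + 1) % m))) →
      ∃ i j, i < m ∧ j < m ∧ j ≠ (i + 1) % m ∧ R (c i) (c j)) {S : Finset V} (h : ¬ Ac R S) :
    ∃ F ⊆ S, At R F := by
  unfold Ac at h
  push Not at h
  obtain ⟨u, v, huv, hu, hr⟩ := h
  have hne : v ≠ u := by rintro rfl; exact hirr _ huv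
  obtain ⟨l, hl, hlS⟩ := hr.pth hne
  obtain ⟨n, f, h1, h0, hn, hadj, hmem, hinj⟩ := hl.fn
  refine short_at hirr hch (n + 1) (n + 1) f (le_refl _) (by omega) ?_ ?_ ?_
  · intro i hi
    by_cases hi0 : i = 0
    · subst hi0; rw [h0]; exact hr.left
    by_cases hin : i = n
    · subst hin; rw [hn]; exact hu
    · exact hlS _ (hmem i (by omega) (by omega))
  · intro i j hi hj he
    exact hinj i j (by omega) (by omega) he
  · intro i hi
    by_cases hin : i = n
    · subst hin
      rw [Nat.mod_self, h0, hn]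
      exact huv
    · rw [Nat.mod_eq_of_lt (by omega)]
      exact hadj i (by omega)

end t3

end Pool.Agent.Lib.NK
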